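import Pool.Agent.Lib.MP_b5021c_nt.KV.H67.Kh
import Pool.Agent.Lib.MP_b5021c_nt.KO.H67.O2

/-!
# MP_b5021c_nt, all `θ`, K odd: faces spanned by three disjoint rays, rays of a double closing
-/

set_option linter.unusedSectionVars false

namespace Pool.Agent.B5.KO.H40

open scoped LaurentPolynomial
open Polynomial
open Pool.Agent.B5.KE

/-- The functional on a sum of rays. -/
theorem clos3 {L : Type} [AddCommGroup L] (Rs : Set L) (X Y Q : L) (lam : L →+ ℤ)
    (hX : lam X = 0) (hY : lam Y = 0) (hQ : lam Q = 0)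
    (hT : ∀ T ∈ Rs, T ≠ X → T ≠ Y → T ≠ Q → 0 < lam T) (x : L)
    (hx : x ∈ AddSubmonoid.closure Rs) :
    0 ≤ lam x ∧ (lam x = 0 → ∃ a b c : ℕ, x = a • X + b • Y + c • Q) := by
  induction hx using AddSubmonoid.closure_induction with
  | mem y hy =>
    by_cases h1 : y = X
    · subst h1
      exact ⟨hX.ge, fun _ => ⟨1, 0, 0, by rw [one_nsmul, zero_nsmul, zero_nsmul]; abel⟩⟩
    by_cases h2 : y = Y
    · subst h2
      exact ⟨hY.ge, fun _ => ⟨0, 1, 0, by rw [one_nsmul, zero_nsmul, zero_nsmul]; abel⟩⟩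
    by_cases h3 : y = Q
    · subst h3
      exact ⟨hQ.ge, fun _ => ⟨0, 0, 1, by rw [one_nsmul, zero_nsmul, zero_nsmul]; abel⟩⟩
    have h4 := hT y hy h1 h2 h3
    exact ⟨h4.le, fun h => absurd h h4.ne'⟩
  | zero => exact ⟨(map_zero lam).ge, fun _ => ⟨0, 0, 0, by simp⟩⟩
  | add y z _ _ hy hz =>
    rw [map_add]
    refine ⟨add_nonneg hy.1 hz.1, fun h => ?_⟩
    have h1 := hy.1
    have h2 := hz.1
    obtain ⟨a, b, c, habc⟩ := hy.2 (by omega)
    obtain ⟨a', b', c', habc'⟩ := hz.2 (by omega)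
    refine ⟨a + a', b + b', c + c', ?_⟩
    rw [habc, habc', add_nsmul, add_nsmul, add_nsmul]
    abel

section

variable {P L : Type} [Fintype P] [DecidableEq P] [AddCommGroup L] [Module.Free ℤ L]
  [Module.Finite ℤ L] {phi : L →+ (P → ℤ)} {D : AO ℤ L}

theorem port_zero {X Y : L} (d : ∀ i, phi X i = 0 ∨ phi Y i = 0) {i : P} (h : phi X i = 1) :
    phi Y i = 0 := by
  rcases d i with h1 | h1
  · rw [h] at h1
    exact absurd h1 one_ne_zero
  · exact h1

/-- The exponents on a face spanned by three disjoint rays. -/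
theorem face3 (hRS : RaySpanS) (hE : E2S) (hD : DD phi D) (h2 : 2 ≤ Module.finrank ℤ L)
    {X Y Q : L} (rX : Ray D X) (rY : Ray D Y) (rQ : Ray D Q)
    (dXY : ∀ i, phi X i = 0 ∨ phi Y i = 0) (dXQ : ∀ i, phi X i = 0 ∨ phi Q i = 0)
    (dYQ : ∀ i, phi Y i = 0 ∨ phi Q i = 0) {lam : L →+ ℤ} (hX : lam X = 0) (hY : lam Y = 0)
    (hQ : lam Q = 0) (hT : ∀ T, Ray D T → T ≠ X → T ≠ Y → T ≠ Q → 0 < lam T) :
    ∀ x ∈ supp D, 0 ≤ lam x ∧
      (lam x = 0 → ∃ a b c : ℤ, (c = 0 ∨ c = 1) ∧ x = a • X + b • Y + c • Q) := by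
  intro x hx
  by_cases hx0 : x = 0
  · subst hx0
    exact ⟨(map_zero lam).ge, fun _ => ⟨0, 0, 0, Or.inl rfl, by simp⟩⟩
  obtain ⟨-, hthin, -⟩ := hE ℤ P L phi D hD h2
  obtain ⟨lam0, hlam0, -⟩ := hD.st.2
  obtain ⟨n, hn, hmem⟩ := (hRS ℤ L D ⟨lam0, hlam0⟩ hthin).1 x hx hx0
  obtain ⟨h5, h6⟩ := clos3 {b | Ray D b} X Y Q lam hX hY hQ hT (n • x) hmem
  rw [map_nsmul, nsmul_eq_mul] at h5 h6
  have hnz : (0 : ℤ) < (n : ℤ) := by exact_mod_cast hn
  refine ⟨?_, fun h => ?_⟩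
  · by_contra hneg
    push Not at hneg
    have := mul_neg_of_pos_of_neg hnz hneg
    omega
  obtain ⟨a, b, c, habc⟩ := h6 (by rw [h, mul_zero])
  obtain ⟨iX, hiX⟩ := exists_port hD rX
  obtain ⟨iY, hiY⟩ := exists_port hD rY
  obtain ⟨iQ, hiQ⟩ := exists_port hD rQ
  have pX : phi X iX = 1 := hiX
  have pY : phi Y iY = 1 := hiY
  have pQ : phi Q iQ = 1 := hiQ
  have dYX : ∀ i, phi Y i = 0 ∨ phi X i = 0 := fun i => (dXY i).symm
  have dQX : ∀ i, phi Q i = 0 ∨ phi X i = 0 := fun i => (dXQ i).symm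
  have dQY : ∀ i, phi Q i = 0 ∨ phi Y i = 0 := fun i => (dYQ i).symm
  have key : ∀ i, (n : ℤ) * phi x i = a * phi X i + b * phi Y i + c * phi Q i := by
    intro i
    have h9 := congrFun (congrArg phi habc) i
    simp only [map_nsmul, map_add, Pi.smul_apply, Pi.add_apply, nsmul_eq_mul] at h9
    exact h9
  have e1 := key iX
  rw [pX, port_zero dXY pX, port_zero dXQ pX, mul_one, mul_zero, mul_zero, add_zero,
    add_zero] at e1
  have e2 := key iY
  rw [pY, port_zero dYX pY, port_zero dYQ pY, mul_one, mul_zero, mul_zero, zero_add,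
    add_zero] at e2
  have e3 := key iQ
  rw [pQ, port_zero dQX pQ, port_zero dQY pQ, mul_one, mul_zero, mul_zero, zero_add,
    zero_add] at e3
  refine ⟨phi x iX, phi x iY, phi x iQ, hD.bin x hx iQ, ?_⟩
  have h9 : (n : ℤ) • (x - (phi x iX • X + phi x iY • Y + phi x iQ • Q)) = 0 := by
    rw [smul_sub, natCast_zsmul, habc, smul_add, smul_add, smul_smul, smul_smul, smul_smul,
      e1, e2, e3, natCast_zsmul, natCast_zsmul, natCast_zsmul, sub_self]
  rcases smul_eq_zero.mp h9 with h10 | h10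
  · exact absurd h10 hnz.ne'
  · exact sub_eq_zero.mp h10

/-- A ray of a double closing. -/
theorem ray_dbl (hb : ∀ a ∈ supp D, Bin phi a) {S R X : L} {i0 i1 : P} (h0 : co phi i0 S = 1)
    {R' : Ker (co phi i0)} (hR' : (R' : L) = R) (h1 : co (phO phi S i0) i1 R' = 1)
    (u0 u1 : (RO ℤ)ˣ) (dSR : ∀ i, phi S i = 0 ∨ phi R i = 0) (hX0 : phi X i0 = 0)
    (hX1 : phi X i1 = 0) (hXne : X ≠ 0) {lam : L →+ ℤ} (lS : lam S = 0) (lR : lam R = 0)
    (lX : lam X = 0)
    (hl : ∀ x ∈ supp D, 0 ≤ lam x ∧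
      (lam x = 0 → ∃ a b c : ℤ, (c = 0 ∨ c = 1) ∧ x = a • S + b • R + c • X))
    (hc : csm D S R u0 u1 X ≠ 0) :
    ∃ x : Ker (co (phO phi S i0) i1), ((x : Ker (co phi i0)) : L) = X ∧
      Ray (cl (co (phO phi S i0) i1) R' h1 u1 (cl (co phi i0) S h0 u0 D)) x := by
  have hS1 : phi S i1 = 0 := by
    by_contra hne
    have h2 : (if phi S i1 = 0 then phi (R' : L) i1 else 0) = 1 := h1
    rw [if_neg hne] at h2
    exact zero_ne_one h2
  have hS0 : phi S i0 = 1 := h0
  have hR0 : phi R i0 = 0 := port_zero dSR hS0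
  have hR1 : phi R i1 = 1 := by
    have h2 : (if phi S i1 = 0 then phi (R' : L) i1 else 0) = 1 := h1
    rw [if_pos hS1, hR'] at h2
    exact h2
  have hk : ∀ b : Ker (co phi i0), co (phO phi S i0) i1 b = phi (b : L) i1 := by
    intro b
    change (if phi S i1 = 0 then phi (b : L) i1 else 0) = _
    rw [if_pos hS1]
  obtain ⟨x, hx⟩ : ∃ x : Ker (co (phO phi S i0) i1), ((x : Ker (co phi i0)) : L) = X :=
    ⟨⟨⟨X, hX0⟩, by rw [mem_Ker, hk]; exact hX1⟩, rfl⟩
  refine ⟨x, hx, ?_, ?_, (lam.comp (incl _)).comp (incl _), ?_, ?_⟩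
  · change (cl (co (phO phi S i0) i1) R' h1 u1 (cl (co phi i0) S h0 u0 D)).coeff x ≠ 0
    rw [KV67.csm_coeff hb h0 hR' h1, hx]
    exact hc
  · intro h
    apply hXne
    rw [← hx, h]
    rfl
  · change lam ((x : Ker (co phi i0)) : L) = 0
    rw [hx, lX]
  · intro b hbs hb0 hbx
    change 0 < lam ((b : Ker (co phi i0)) : L)
    have h3 : (cl (co (phO phi S i0) i1) R' h1 u1 (cl (co phi i0) S h0 u0 D)).coeff b ≠ 0 := hbs
    rw [KV67.csm_coeff hb h0 hR' h1] at h3
    obtain ⟨B, hB⟩ : ∃ B : L, B = ((b : Ker (co phi i0)) : L) := ⟨_, rfl⟩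
    rw [← hB] at h3 ⊢
    have hB0 : phi B i0 = 0 := by
      rw [hB]
      exact (b : Ker (co phi i0)).2
    have hB1 : phi B i1 = 0 := by
      have h4 := b.2
      rw [mem_Ker, hk, ← hB] at h4
      exact h4
    obtain ⟨al, be, hy⟩ : ∃ al be : ℤ, D.coeff (B + al • S + be • R) ≠ 0 := by
      by_contra hcon
      push Not at hcon
      apply h3
      unfold csm
      have q1 := hcon 0 0
      have q2 := hcon 1 0
      have q3 := hcon 0 1
      have q4 := hcon 1 1
      simp only [zero_smul, one_smul, add_zero] at q1 q2 q3 q4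
      rw [q1, q2, q3, q4]
      ring
    obtain ⟨h5, h6⟩ := hl _ hy
    have h7 : lam (B + al • S + be • R) = lam B := by
      rw [map_add, map_add, map_zsmul, map_zsmul, lS, lR, smul_zero, smul_zero, add_zero,
        add_zero]
    rw [h7] at h5 h6
    by_contra hneg
    obtain ⟨a', b', c', hcX, habc⟩ := h6 (by omega)
    have hi0 := congrFun (congrArg phi habc) i0
    have hi1 := congrFun (congrArg phi habc) i1
    simp only [map_add, map_zsmul, Pi.add_apply, Pi.smul_apply, smul_eq_mul, hB0, hB1, hS0, hS1,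
      hR0, hR1, hX0, hX1, mul_zero, mul_one, add_zero, zero_add] at hi0 hi1
    rw [hi0, hi1] at habc
    have hBX : B = c' • X := by
      have h8 : B + a' • S + b' • R = c' • X + a' • S + b' • R := by
        rw [habc]
        abel
      exact add_right_cancel (add_right_cancel h8)
    rcases hcX with h8 | h8
    · apply hb0
      apply Subtype.ext
      apply Subtype.ext
      change ((b : Ker (co phi i0)) : L) = 0
      rw [← hB, hBX, h8, zero_smul]
    · apply hbx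
      apply Subtype.ext
      apply Subtype.ext
      rw [← hB, hBX, h8, one_smul, ← hx]

end

end Pool.Agent.B5.KO.H40
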