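import Pool.Agent.Lib.MP_b5021c_nt.KE.H96.EndA
import Pool.Agent.Lib.MP_b5021c_nt.KE.H96.Fin

/-!
# MP_b5021c_nt, all `θ`, K odd, (O4): the content of a double closing `(-1/z, z)` is `(1 + X^2)^d`
-/

set_option linter.unusedSectionVars false

namespace Pool.Agent.B5.KO.H40

open scoped LaurentPolynomial
open Polynomial
open Pool.Agent.B5.KE
open Pool.Agent.B5.Nr.Sch

/-- `1/z - z` is in the open cardioid for `‖z‖ = 1`, `z ≠ 1, -1, I, -I`. -/
theorem card_i {z : ℂ} (h : ‖z‖ = 1) (h1 : z ≠ 1) (h2 : z ≠ -1) (h3 : z ≠ Complex.I)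
    (h4 : z ≠ -Complex.I) : ∃ x : ℂ, ‖x‖ < 1 ∧ z * (1 - x) ^ 2 = 1 - z ^ 2 := by
  have hn : z.re ^ 2 + z.im ^ 2 = 1 := by
    have h5 := Complex.normSq_eq_norm_sq z
    rw [h, Complex.normSq_apply] at h5
    linarith
  have hs0 : z.im ≠ 0 := by
    intro h0
    rw [h0] at hn
    have h5 : (z.re - 1) * (z.re + 1) = 0 := by linarith
    rcases mul_eq_zero.mp h5 with h6 | h6
    · exact h1 (Complex.ext (by simp; linarith) (by simp [h0]))
    · exact h2 (Complex.ext (by simp; linarith) (by simp [h0]))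
  have hc0 : z.re ≠ 0 := by
    intro h0
    rw [h0] at hn
    have h5 : (z.im - 1) * (z.im + 1) = 0 := by linarith
    rcases mul_eq_zero.mp h5 with h6 | h6
    · exact h3 (Complex.ext (by simp [h0]) (by simp; linarith))
    · exact h4 (Complex.ext (by simp [h0]) (by simp; linarith))
  have hs1 : |z.im| < 1 := by
    rw [abs_lt]
    have h5 : 0 < z.re ^ 2 := by positivity
    constructor <;> nlinarith
  obtain ⟨r, hr0, hr⟩ : ∃ r : ℝ, 0 < r ∧ r ^ 2 = |z.im| :=
    ⟨Real.sqrt |z.im|, Real.sqrt_pos.mpr (abs_pos.mpr hs0), Real.sq_sqrt (abs_nonneg _)⟩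
  have hr1 : r < 1 := by nlinarith
  obtain ⟨s, hs, hsz⟩ : ∃ s : ℝ, s ^ 2 = 1 ∧ s * r ^ 2 = -z.im := by
    rcases lt_or_gt_of_ne hs0 with h5 | h5
    · exact ⟨1, by norm_num, by rw [hr, abs_of_neg h5]; ring⟩
    · exact ⟨-1, by norm_num, by rw [hr, abs_of_pos h5]; ring⟩
  refine ⟨⟨1 - r, -(s * r)⟩, ?_, ?_⟩
  · have h5 : ‖(⟨1 - r, -(s * r)⟩ : ℂ)‖ ^ 2 < 1 := by
      rw [← Complex.normSq_eq_norm_sq, Complex.normSq_apply]
      have h6 : -(s * r) * -(s * r) = r ^ 2 := by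
        have : -(s * r) * -(s * r) = s ^ 2 * r ^ 2 := by ring
        rw [this, hs, one_mul]
      change (1 - r) * (1 - r) + -(s * r) * -(s * r) < 1
      rw [h6]
      nlinarith
    nlinarith [norm_nonneg (⟨1 - r, -(s * r)⟩ : ℂ)]
  · have h5 : (1 : ℂ) - ⟨1 - r, -(s * r)⟩ = ⟨r, s * r⟩ := by
      apply Complex.ext <;> simp
    rw [h5]
    have h6 : (⟨r, s * r⟩ : ℂ) ^ 2 = ⟨0, -(2 * z.im)⟩ := by
      apply Complex.ext
      · simp only [pow_two, Complex.mul_re]
        have : r * r - s * r * (s * r) = r ^ 2 * (1 - s ^ 2) := by ring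
        rw [this, hs]
        ring
      · simp only [pow_two, Complex.mul_im]
        have : r * (s * r) + s * r * r = 2 * (s * r ^ 2) := by ring
        rw [this, hsz]
        ring
    rw [h6]
    apply Complex.ext
    · simp only [pow_two, Complex.mul_re, Complex.sub_re, Complex.one_re]
      linarith
    · simp only [pow_two, Complex.mul_im, Complex.sub_im, Complex.one_im]
      ring

theorem dvd_i {c : ℤ[X]} {z : ℂ} (hz : z = Complex.I ∨ z = -Complex.I) (h : (aeval z c : ℂ) = 0) :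
    (1 + X ^ 2 : ℤ[X]) ∣ c := by
  have hm : (X ^ 2 + C 1 : ℤ[X]).Monic := monic_X_pow_add_C 1 (by norm_num)
  have e : (1 + X ^ 2 : ℤ[X]) = X ^ 2 + C 1 := by rw [C_1, add_comm]
  rw [e, ← modByMonic_eq_zero_iff_dvd hm]
  obtain ⟨r, hr⟩ : ∃ r, r = c %ₘ (X ^ 2 + C 1) := ⟨_, rfl⟩
  rw [← hr]
  have hdeg : r.natDegree < 2 := by
    have h1 := natDegree_modByMonic_lt c hm (by
      intro h2
      have h3 := congrArg natDegree h2
      rw [natDegree_X_pow_add_C, natDegree_one] at h3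
      omega)
    rwa [natDegree_X_pow_add_C, ← hr] at h1
  have hr2 : r = C (r.coeff 1) * X + C (r.coeff 0) := eq_X_add_C_of_natDegree_le_one (by omega)
  have hzz : z ^ 2 = -1 := by
    rcases hz with rfl | rfl
    · exact Complex.I_sq
    · rw [neg_pow_two, Complex.I_sq]
  have h1 : (aeval z r : ℂ) = 0 := by
    have h2 := modByMonic_add_div c (X ^ 2 + C 1 : ℤ[X])
    rw [← hr] at h2
    have h3 := congrArg (fun p : ℤ[X] => (aeval z p : ℂ)) h2
    simp only [map_add, map_mul, map_pow, aeval_X, map_one, hzz, h] at h3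
    linear_combination h3
  rw [hr2] at h1
  simp only [map_add, map_mul, aeval_X, aeval_C] at h1
  have h5 : ((r.coeff 1 : ℤ) : ℂ) * z + ((r.coeff 0 : ℤ) : ℂ) = 0 := h1
  have hre := congrArg Complex.re h5
  have him := congrArg Complex.im h5
  have hz0 : z.re = 0 := by rcases hz with rfl | rfl <;> simp
  have hz1 : z.im ≠ 0 := by rcases hz with rfl | rfl <;> simp
  simp only [Complex.add_re, Complex.mul_re, Complex.intCast_re, Complex.intCast_im, hz0,
    Complex.zero_re] at hre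
  simp only [Complex.add_im, Complex.mul_im, Complex.intCast_re, Complex.intCast_im,
    Complex.zero_im] at him
  have h6 : r.coeff 0 = 0 := by
    have : ((r.coeff 0 : ℤ) : ℝ) = 0 := by linarith
    exact_mod_cast this
  have h7 : r.coeff 1 = 0 := by
    have h8 : ((r.coeff 1 : ℤ) : ℝ) * z.im = 0 := by linarith
    have := (mul_eq_zero.mp h8).resolve_right hz1
    exact_mod_cast this
  rw [hr2, h6, h7]
  simp

/-- A polynomial with measure one and constant term one whose zeros on the circle are `I`, `-I`. -/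
theorem pow_i (hU : UnitRS) (hM1 : M1S) (hMm : MmulS) : ∀ (n : ℕ) {c : ℤ[X]}, c.natDegree ≤ n →
    c.coeff 0 = 1 → M (toLaurent c : RO ℤ) = 1 →
    (∀ z : ℂ, ‖z‖ = 1 → (aeval z c : ℂ) = 0 → z = Complex.I ∨ z = -Complex.I) →
    ∃ d : ℕ, c = (1 + X ^ 2) ^ d := by
  intro n
  induction n with
  | zero =>
    intro c hd h0 _ _
    refine ⟨0, ?_⟩
    rw [eq_C_of_natDegree_le_zero hd, h0, pow_zero, C_1]
  | succ n ih =>
    intro c hd h0 hM hz
    have hcne : c ≠ 0 := by
      rintro rfl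
      rw [coeff_zero] at h0
      exact zero_ne_one h0
    by_cases hc : ∃ z : ℂ, ‖z‖ = 1 ∧ (aeval z c : ℂ) = 0
    · obtain ⟨z, hz1, hz2⟩ := hc
      obtain ⟨c', hc'⟩ := dvd_i (hz z hz1 hz2) hz2
      have h0' : c'.coeff 0 = 1 := by
        rw [hc', mul_coeff_zero] at h0
        simpa using h0
      have hc'ne : c' ≠ 0 := by
        rintro rfl
        rw [coeff_zero] at h0'
        exact zero_ne_one h0'
      have hdeg : c'.natDegree ≤ n := by
        have e : (1 + X ^ 2 : ℤ[X]) = X ^ 2 + C 1 := by rw [C_1, add_comm]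
        have h1 : (1 + X ^ 2 : ℤ[X]).natDegree = 2 := by rw [e, natDegree_X_pow_add_C]
        have h2 : (1 + X ^ 2 : ℤ[X]) ≠ 0 := by
          intro h3
          rw [h3, natDegree_zero] at h1
          omega
        have h3 := natDegree_mul h2 hc'ne
        rw [← hc', h1] at h3
        omega
      obtain ⟨d, hd'⟩ := ih hdeg h0' (M_poly_dvd hMm hcne hM ⟨1 + X ^ 2, by rw [hc', mul_comm]⟩)
        (fun w hw hw2 => hz w hw (by rw [hc', map_mul, hw2, mul_zero]))
      refine ⟨d + 1, ?_⟩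
      rw [hc', hd']
      ring
    · push Not at hc
      refine ⟨0, ?_⟩
      have h1 := unit_of_dvd hU hM1 hc (by rw [h0]; exact one_ne_zero) (dvd_refl c) hM
      obtain ⟨r, hr, hr2⟩ := Polynomial.isUnit_iff.mp h1
      rw [← hr2, coeff_C_zero] at h0
      rw [pow_zero, ← hr2, h0, C_1]

/-- (CONTENT) a divisor of measure one of `V`, `X V = (1 - X - X²) f - q`. -/
theorem content (hU : UnitRS) (hM1 : M1S) (hMm : MmulS) (hMfc : MfcS) {P L : Type} [Fintype P]
    [DecidableEq P] [AddCommGroup L] [Module.Free ℤ L] [Module.Finite ℤ L]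
    {phi : L →+ (P → ℤ)} {D : AO ℤ L} {S S1 : L} {q f V c : ℤ[X]} {e e1 : (RO ℤ)ˣ} {a : ℝ}
    (hD : DD phi D) (h2 : 2 ≤ Module.finrank ℤ L) (hR : RN D S q f e a)
    (hM : Mut D S S1 (ld e 1) e1)
    (hcusp : ∀ z : ℂ, ‖z‖ = 1 → (aeval z (q + X * f) : ℂ) ≠ 0)
    (hV : X * V = (1 - X - X ^ 2) * f - q) (hc0 : c.coeff 0 = 1)
    (hMc : M (toLaurent c : RO ℤ) = 1) (hcV : c ∣ V) : ∃ d : ℕ, c = (1 + X ^ 2) ^ d := by
  refine pow_i hU hM1 hMm _ le_rfl hc0 hMc ?_
  intro z hz hcz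
  have hVz : (aeval z V : ℂ) = 0 := by
    obtain ⟨b, hb⟩ := hcV
    rw [hb, map_mul, hcz, zero_mul]
  have hq : (aeval z q : ℂ) = (1 - z - z ^ 2) * aeval z f := by
    have h3 := congrArg (fun p : ℤ[X] => (aeval z p : ℂ)) hV
    simp only [map_sub, map_mul, map_one, aeval_X, map_pow, hVz, mul_zero] at h3
    linear_combination h3
  by_contra hcon
  push Not at hcon
  have h1 : z ≠ 1 := by
    rintro rfl
    apply hcusp 1 hz
    rw [map_add, map_mul, aeval_X, hq]
    ring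
  have hm1 : z ≠ -1 := by
    rintro rfl
    apply hcusp (-1) hz
    rw [map_add, map_mul, aeval_X, hq]
    ring
  obtain ⟨x, hx, hx2⟩ := card_i hz h1 hm1 hcon.1 hcon.2
  obtain ⟨zc, rfl⟩ := circle_of z hz
  have h5 := hMfc ℤ P L phi D S S1 (ld e 1) e1 hD h2 hM zc x x hx hx
  apply h5
  have h6 : ((ld e 1 : (RO ℤ)ˣ) : RO ℤ) * D.coeff S = toLaurent (X * f) := by
    have h7 := ld_S hR 1
    rw [pow_one] at h7
    exact h7
  rw [hR.D0, h6, evR_poly, evR_poly, hq, map_mul, aeval_X]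
  linear_combination (-(aeval (zc : ℂ) f : ℂ)) * hx2

end Pool.Agent.B5.KO.H40
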