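import Pool.Agent.Lib.MP_b5021c_nt.KO.H40.PxD
import Pool.Agent.Lib.MP_b5021c_nt.KO.H13.Rel
import Pool.Agent.Lib.MP_b5021c_nt.KO.H96.Patx

/-!
# MP_b5021c_nt, all `θ`, K odd, (O4), cycles of length four: row DF4

For a 4-cycle with a relation `Rlt`, the double closing `(-1/z, z)` of `Z 0`, `Z 1` or its mirror is
drop free.
-/

set_option linter.unusedSectionVars false

namespace Pool.Agent.B5.KO.H40

open scoped LaurentPolynomial
open Polynomial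
open Pool.Agent.B5.KE
open Pool.Agent.B5.Nr.Sch
open Pool.Agent.B5.Nr (TrezS)
open Pool.Agent.B5.H61 (CuspS)
open Pool.Agent.B5.KV67 (TT1 tA_val)
open Pool.Agent.B5.O4X

theorem tC_val : ((tC : (RO ℤ)ˣ) : RO ℤ) = LaurentPolynomial.T 1 := by
  unfold tC
  rw [H40.uT_val, Units.val_one, map_one, one_mul]

section

variable {P L : Type} [Fintype P] [DecidableEq P] [AddCommGroup L] [Module.Free ℤ L]
  [Module.Finite ℤ L] {phi : L →+ (P → ℤ)} {D : AO ℤ L} {eta : L → (RO ℤ)ˣ}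

/-- A moved ray is disjoint from the pair. -/
theorem kil_out (hI : Inj1S) (fp : FP phi D) {S S1 R : L} {u0 u1 : (RO ℤ)ˣ} {nu : L →+ ℤ}
    (rS : Ray D S) (rS1 : Ray D S1) (hk : Kil phi D S S1 u0 u1 nu) (rR : Ray D R)
    (hn : nu R ≠ 0) : Out phi S S1 R := by
  have h0 : ∀ q, phi R q = 0 ∨ phi S q = 0 := KO.dsj hI fp rS rR
    (by rintro rfl; exact hn hk.s0) (fun h => hn (hk.part R rR.1 (Or.inl h)))
  have h1 : ∀ q, phi R q = 0 ∨ phi S1 q = 0 := KO.dsj hI fp rS1 rR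
    (by rintro rfl; exact hn hk.s1) (fun h => hn (hk.part R rR.1 (Or.inr h)))
  intro q
  rcases h0 q with h | h
  · exact Or.inl h
  · rcases h1 q with h2 | h2
    · exact Or.inl h2
    · exact Or.inr ⟨h, h2⟩

/-- A moved ray in `U_S`, `U_(S1)`: type (0,0). -/
theorem t00_of (hF1 : F1S) (hI : Inj1S) (fp : FP phi D) {S S1 R : L} {nu : L →+ ℤ}
    (hM : Mut D S S1 (eta S) (eta S1)) (dis : ∀ i, phi S i = 0 ∨ phi S1 i = 0)
    (hk : Kil phi D S S1 (eta S * tA) (eta S1 * tC) nu) (rR : Ray D R) (hn : nu R ≠ 0)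
    (u0 : R ∈ US (eta S) S D) (u1 : R ∈ US (eta S1) S1 D) : ∃ r, T00 phi D eta S S1 R r := by
  have hD := fp.dd
  have ho := kil_out hI fp hM.r0 hM.r1 hk rR hn
  have hS := hF1 ℤ P L phi D S (eta S) hD.inj hD.bin (hD.bin S hM.r0.1) hM.r0.2.1
  have hS1 := hF1 ℤ P L phi D S1 (eta S1) hD.inj hD.bin (hD.bin S1 hM.r1.1) hM.r1.2.1
  have a0 : R + S ∉ US (eta S1) S1 D := fun h => hM.m1 (by
    have := Submodule.sub_mem _ h u1
    rwa [add_sub_cancel_left] at this)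
  have a1 : R + S1 ∉ US (eta S) S D := fun h => hM.m0 (by
    have := Submodule.sub_mem _ h u0
    rwa [add_sub_cancel_left] at this)
  have e0 := (hS1 _ a0).2 (fun i => by
    rw [map_add, Pi.add_apply]
    rcases dis i with h | h
    · rw [h, add_zero]
      exact (ho i).imp id And.right
    · exact Or.inr h)
  have e1 := (hS _ a1).2 (fun i => by
    rw [map_add, Pi.add_apply]
    rcases dis i with h | h
    · exact Or.inr h
    · rw [h, add_zero]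
      exact (ho i).imp id And.left)
  have e2 := hk.free R ho hn
  rw [show R + S1 + S = R + S + S1 by abel] at e1
  rw [Units.val_mul, Units.val_mul, tA_val, tC_val] at e2
  have c00 : D.coeff R = (1 + LaurentPolynomial.T 1 - LaurentPolynomial.T (-1)) *
      ((eta S : RO ℤ) * (eta S1 : RO ℤ) * D.coeff (R + S + S1)) := by
    linear_combination e2 + (LaurentPolynomial.T (-1) * (eta S : RO ℤ)) * e0 -
      (LaurentPolynomial.T 1 * (eta S1 : RO ℤ)) * e1 +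
      ((eta S : RO ℤ) * (eta S1 : RO ℤ) * D.coeff (R + S + S1)) * TT1
  refine ⟨(eta S : RO ℤ) * (eta S1 : RO ℤ) * D.coeff (R + S + S1), rR, ho, u0, u1, ?_, c00, ?_,
    ?_, rfl⟩
  · intro h0
    rw [h0, mul_zero] at c00
    exact rR.1 c00
  · linear_combination (eta S : RO ℤ) * e0
  · linear_combination (eta S1 : RO ℤ) * e1

/-- A moved ray outside `U_S`, in `U_(S1)`. -/
theorem t10_of (hF1 : F1S) {S S1 R : L} {w0 w1 : (RO ℤ)ˣ} (hD : DD phi D) {nu : L →+ ℤ}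
    (hM : Mut D S S1 (eta S) (eta S1)) (dis : ∀ i, phi S i = 0 ∨ phi S1 i = 0)
    (ho : Out phi S S1 R) (hk : Kil phi D S S1 (eta S * w0) (eta S1 * w1) nu) (hn : nu R ≠ 0)
    (u0 : R ∉ US (eta S) S D) (u1 : R ∈ US (eta S1) S1 D) :
    (1 - (w0 : RO ℤ) + (w0 : RO ℤ) * (w1 : RO ℤ)) * D.coeff R +
      (w1 : RO ℤ) * ((eta S1 : RO ℤ) * D.coeff (R + S1)) = 0 := by
  have hS := hF1 ℤ P L phi D S (eta S) hD.inj hD.bin (hD.bin S hM.r0.1) hM.r0.2.1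
  have hS1 := hF1 ℤ P L phi D S1 (eta S1) hD.inj hD.bin (hD.bin S1 hM.r1.1) hM.r1.2.1
  have a0 : R + S ∉ US (eta S1) S1 D := fun h => hM.m1 (by
    have := Submodule.sub_mem _ h u1
    rwa [add_sub_cancel_left] at this)
  have e0 := (hS1 _ a0).2 (fun i => by
    rw [map_add, Pi.add_apply]
    rcases dis i with h | h
    · rw [h, add_zero]
      exact (ho i).imp id And.right
    · exact Or.inr h)
  have e1 := (hS _ u0).2 (fun i => (ho i).imp id And.left)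
  have e2 := hk.free R ho hn
  rw [Units.val_mul, Units.val_mul] at e2
  linear_combination e2 - (w0 : RO ℤ) * e1 + (-(w0 : RO ℤ) * (w1 : RO ℤ)) * ((eta S : RO ℤ) * e0 - e1)

/-- A functional which is zero on all rays. -/
theorem nu_zero (hE2 : E2S) (hRk : RkS) (hD : DD phi D) (h2 : 2 ≤ Module.finrank ℤ L)
    {nu : L →+ ℤ} (h : ∀ T, Ray D T → nu T = 0) : nu = 0 := by
  by_contra hne
  obtain ⟨-, -, -, -, hrk, -⟩ := hE2 ℤ P L phi D hD h2
  have h3 : Submodule.span ℤ {b | Ray D b} ≤ Ker nu := by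
    rw [Submodule.span_le]
    intro b hb
    exact h b hb
  have h4 := Submodule.finrank_mono h3
  have h5 := (hRk L L).1 nu hne
  have h6 : rk {b | Ray D b} = Module.finrank ℤ (Submodule.span ℤ {b | Ray D b}) := rfl
  omega

/-- The relation: a functional which is zero outside the cycle. -/
theorem rlt_three (hE2 : E2S) (hRk : RkS) (hD : DD phi D) (h2 : 2 ≤ Module.finrank ℤ L)
    {Z : ZMod (1 + 3) → L} (hr : Rlt D Z) {nu : L →+ ℤ} (n0 : nu (Z 0) = 0) (n1 : nu (Z 1) = 0)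
    (ho : ∀ T, Ray D T → (∀ i, T ≠ Z i) → nu T = 0) (hne : nu ≠ 0) : nu (Z 3) ≠ 0 := by
  intro n3
  apply hne
  obtain ⟨a0, a1, ha0, hmem⟩ := hr
  have h3 : Submodule.span ℤ {T | Ray D T ∧ ∀ i, T ≠ Z i} ≤ Ker nu := by
    rw [Submodule.span_le]
    intro b hb
    exact ho b hb.1 hb.2
  have h4 : nu (a0 • (Z 0 + Z 2) + a1 • (Z 1 + Z 3)) = 0 := h3 hmem
  rw [map_add, map_zsmul, map_zsmul, map_add, map_add, n0, n1, n3, zero_add, add_zero, smul_zero,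
    add_zero, smul_eq_mul] at h4
  have n2 : nu (Z 2) = 0 := (mul_eq_zero.mp h4).resolve_left ha0
  apply nu_zero hE2 hRk hD h2
  intro T hT
  by_cases hc : ∀ i, T ≠ Z i
  · exact ho T hT hc
  · push Not at hc
    obtain ⟨i, rfl⟩ := hc
    fin_cases i
    · exact n0
    · exact n1
    · exact n2
    · exact n3

/-- (DF4) the double closing or its mirror is drop free. -/
theorem df4 (hE2 : E2S) (hRk : RkS) (hF1 : F1S) (hI : Inj1S) (fp : FP phi D)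
    (h2 : 2 ≤ Module.finrank ℤ L) {Z : ZMod (1 + 3) → L} {mu : ZMod (1 + 3) → L →+ ℤ}
    (h : Cyc phi D eta 1 Z mu) (hr : Rlt D Z)
    (hA : ∀ R r, (∀ i, R ≠ Z i) → ¬ T00 phi D eta (Z 0) (Z 1) R r)
    (hB : ∀ R r, (∀ i, R ≠ Z i) → ¬ T00 phi D eta (Z 1) (Z 0) R r) :
    (∀ nu, Kil phi D (Z 0) (Z 1) (eta (Z 0) * tA) (eta (Z 1) * tC) nu → nu = 0) ∨
    (∀ nu, Kil phi D (Z 1) (Z 0) (eta (Z 1) * tA) (eta (Z 0) * tC) nu → nu = 0) := by
  by_contra hcon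
  push Not at hcon
  obtain ⟨⟨nu, hk, hn⟩, nu', hk', hn'⟩ := hcon
  have hD := fp.dd
  have hM : Mut D (Z 0) (Z 1) (eta (Z 0)) (eta (Z 1)) := by
    have := h.mtl 0
    rwa [zero_add] at this
  have hM' : Mut D (Z 1) (Z 0) (eta (Z 1)) (eta (Z 0)) := ⟨hM.r1, hM.r0, hM.m1, hM.m0⟩
  have d01 : ∀ p, phi (Z 0) p = 0 ∨ phi (Z 1) p = 0 := h.dis 0 1 (by decide)
  have d10 : ∀ p, phi (Z 1) p = 0 ∨ phi (Z 0) p = 0 := h.dis 1 0 (by decide)
  have hoU : ∀ T, Ray D T → (∀ i, T ≠ Z i) → ∀ i, T ∈ US (eta (Z i)) (Z i) D :=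
    fun T hT hT' i => (h.ker i T).mpr (h.oth i T hT (hT' _) (hT' _))
  have o1 : ∀ T, Ray D T → (∀ i, T ≠ Z i) → nu T = 0 := by
    intro T hT hT'
    by_contra hne
    obtain ⟨r, hr'⟩ := t00_of hF1 hI fp hM d01 hk hT hne (hoU T hT hT' 0) (hoU T hT hT' 1)
    exact hA T r hT' hr'
  have o2 : ∀ T, Ray D T → (∀ i, T ≠ Z i) → nu' T = 0 := by
    intro T hT hT'
    by_contra hne
    obtain ⟨r, hr'⟩ := t00_of hF1 hI fp hM' d10 hk' hT hne (hoU T hT hT' 1) (hoU T hT hT' 0)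
    exact hB T r hT' hr'
  have n3 := rlt_three hE2 hRk hD h2 hr hk.s0 hk.s1 o1 hn
  have n3' := rlt_three hE2 hRk hD h2 hr hk'.s1 hk'.s0 o2 hn'
  have r3 : Ray D (Z 3) := (h.mtl 3).r0
  have u0 : Z 3 ∉ US (eta (Z 0)) (Z 0) D := fun hh => by
    have h3 := (h.ker 0 (Z 3)).mp hh
    have h4 := h.prv 0
    rw [show (0 - 1 : ZMod (1 + 3)) = 3 by decide, h3] at h4
    norm_num at h4
  have u1 : Z 3 ∈ US (eta (Z 1)) (Z 1) D := (h.ker 1 (Z 3)).mpr (h.oth 1 (Z 3) r3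
    (fun e => absurd (h.inj e) (by decide)) (fun e => absurd (h.inj e) (by decide)))
  have d3 : ∀ i, i ≠ 3 → ∀ p, phi (Z 3) p = 0 ∨ phi (Z i) p = 0 := fun i hi p =>
    h.dis 3 i (Ne.symm hi) p
  have out : Out phi (Z 0) (Z 1) (Z 3) := fun p => by
    rcases d3 0 (by decide) p with h3 | h3
    · exact Or.inl h3
    · rcases d3 1 (by decide) p with h4 | h4
      · exact Or.inl h4
      · exact Or.inr ⟨h3, h4⟩
  have e1 := t10_of hF1 hD hM d01 out hk n3 u0 u1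
  -- the mirror
  have hS := hF1 ℤ P L phi D (Z 0) (eta (Z 0)) hD.inj hD.bin (hD.bin _ hM.r0.1) hM.r0.2.1
  have hS1 := hF1 ℤ P L phi D (Z 1) (eta (Z 1)) hD.inj hD.bin (hD.bin _ hM.r1.1) hM.r1.2.1
  have a0 : Z 3 + Z 0 ∉ US (eta (Z 1)) (Z 1) D := fun hh => hM.m1 (by
    have := Submodule.sub_mem _ hh u1
    rwa [add_sub_cancel_left] at this)
  have f0 := (hS1 _ a0).2 (fun i => by
    rw [map_add, Pi.add_apply]
    rcases d01 i with h3 | h3
    · rw [h3, add_zero]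
      exact (out i).imp id And.right
    · exact Or.inr h3)
  have f1 := (hS _ u0).2 (fun i => (out i).imp id And.left)
  have f2 := hk'.free (Z 3) (fun p => (out p).imp id And.symm) n3'
  rw [show Z 3 + Z 1 + Z 0 = Z 3 + Z 0 + Z 1 by abel, Units.val_mul, Units.val_mul, tA_val,
    tC_val] at f2
  rw [tA_val, tC_val] at e1
  have e2 : (LaurentPolynomial.T 1 : RO ℤ) * D.coeff (Z 3) +
      LaurentPolynomial.T (-1) * ((eta (Z 1) : RO ℤ) * D.coeff (Z 3 + Z 1)) = 0 := by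
    linear_combination -f2 + (LaurentPolynomial.T 1 : RO ℤ) * f1 -
      (LaurentPolynomial.T (-1) * LaurentPolynomial.T 1 : RO ℤ) *
        ((eta (Z 0) : RO ℤ) * f0 - f1) - D.coeff (Z 3) * TT1
  have e3 : (LaurentPolynomial.T 2 * toLaurent 1 : RO ℤ) =
      LaurentPolynomial.T (-2) * toLaurent 1 := by
    have e4 : (LaurentPolynomial.T 2 : RO ℤ) = LaurentPolynomial.T 1 * LaurentPolynomial.T 1 := by
      rw [← LaurentPolynomial.T_add]
      norm_num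
    have e5 : (LaurentPolynomial.T (-2) : RO ℤ) =
        LaurentPolynomial.T (-1) * LaurentPolynomial.T (-1) := by
      rw [← LaurentPolynomial.T_add]
      norm_num
    have e6 : (LaurentPolynomial.T 1 * LaurentPolynomial.T 1 -
        LaurentPolynomial.T (-1) * LaurentPolynomial.T (-1) : RO ℤ) * D.coeff (Z 3) = 0 := by
      linear_combination (LaurentPolynomial.T 1 : RO ℤ) * e2 -
        (LaurentPolynomial.T (-1) : RO ℤ) * e1 + ((-LaurentPolynomial.T (-1) : RO ℤ) *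
          D.coeff (Z 3)) * TT1
    rw [map_one, mul_one, mul_one, e4, e5]
    exact sub_eq_zero.mp ((mul_eq_zero.mp e6).resolve_right r3.1)
  have e7 := (H78.T_eq (by rw [coeff_one_zero]; exact one_ne_zero)
    (by rw [coeff_one_zero]; exact one_ne_zero) e3).1
  omega

/-- Every ray lies in a component at the B-loads with `u = 1`, `n = j + 1`. -/
def Ball (phi : L →+ (P → ℤ)) (D : AO ℤ L) (q : ℤ[X]) (a : ℝ) (j : ℕ) (eta : L → (RO ℤ)ˣ) :
    Prop :=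
  ∀ R, Ray D R → ∃ (f : ℤ[X]) (C : Set L), KcB phi D q f a j eta 1 C ∧ f.coeff 0 = 1 ∧
    f.coeff 1 - q.coeff 1 = j + 1 ∧ R ∈ C

/-- (PX) for two different cycles. -/
theorem px_cyc (hM1 : M1S) (hMm : MmulS) (hMV : MVS) (hE1 : E1S) (hE2 : E2S) (hPc : PCZS)
    (hClp : ClpS) (hC0 : Coeff0S) (hG0 : G0S) (hI1 : Inj1S) (hRk : RkS) (hFD : FDS)
    (hWW : WWfS) (hRF : RayFacS) (hMug : MugS) (hMco : McoS) (hCu : CuspS) (hSf : SfzS)
    (hTr : TrezS) (hTsa : TsaS) (hI3 : Io3S) (hMfc : MfcS) (hCa : Ca5S) (hGlc : GlcS)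
    (hFou : FouS) (hDti : DtiS) (hNbr : NbrS) (hF1 : F1S) (hF2 : F2S) (hKm : KmuS)
    (hFsp : FspS) (hVco : VcoS) (hRy : RaySpanS) (hVf : KvfS) (hVv : KvvS) (hT : TsgS)
    (hNd : Nd3vS) (hNr : Nr3S) (hB : BpS) {q : ℤ[X]} {a : ℝ} {j : ℕ}
    (hAll : Ball phi D q a j eta) {k : ℕ} {Z Z' : ZMod (k + 3) → L}
    {mu mu' : ZMod (k + 3) → L →+ ℤ} (h : Cyc phi D eta k Z mu) (h' : Cyc phi D eta k Z' mu')
    {i i' : ZMod (k + 3)} {S1 : L} {r : RO ℤ}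
    (hM : Mut D (Z i) S1 (eta (Z i)) (eta S1)) (hne : ∀ n, Z' i' ≠ Z n)
    (t00 : T00 phi D eta (Z i) S1 (Z' i') r) : False := by
  obtain ⟨f, C, W, hu, hn, hS⟩ := hAll (Z i) hM.r0
  obtain ⟨f', C', W', hu', hn', hR⟩ := hAll (Z' i') t00.ray
  have hS1 : S1 ∈ C := (W.kc.mtl _ hS _ hM.r1 hM.m0).1
  have mR := h'.mtl i'
  have hR1 : Z' (i' + 1) ∈ C' := (W'.kc.mtl _ hR _ mR.r1 mR.m0).1
  refine px_false hM1 hMm hMV hE1 hE2 hPc
    hClp hC0 hG0 hI1 hRk hFD hWW hRF hMug hMco hCu hSf hTr hTsa hI3 hMfc hCa hGlc hFou hDti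
    hNbr hF1 hF2 hKm hFsp hVco hRy hVf hVv hT hNd hNr hB W hu hn W' hu' hn' hS hS1 hM hR hR1 mR
    t00 ?_
  by_contra hc
  rcases cyc_nb h' hM.r0 hc with h1 | h1
  · obtain ⟨n, hn⟩ := cyc_range h h' h1 i'
    exact hne n hn
  · rw [add_sub_cancel_right] at h1
    exact hne i h1.symm

/-- (DF4) with PX. -/
theorem df4_px (hM1 : M1S) (hMm : MmulS) (hMV : MVS) (hE1 : E1S) (hE2 : E2S) (hPc : PCZS)
    (hClp : ClpS) (hC0 : Coeff0S) (hG0 : G0S) (hI1 : Inj1S) (hRk : RkS) (hFD : FDS)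
    (hWW : WWfS) (hRF : RayFacS) (hMug : MugS) (hMco : McoS) (hCu : CuspS) (hSf : SfzS)
    (hTr : TrezS) (hTsa : TsaS) (hI3 : Io3S) (hMfc : MfcS) (hCa : Ca5S) (hGlc : GlcS)
    (hFou : FouS) (hDti : DtiS) (hNbr : NbrS) (hF1 : F1S) (hF2 : F2S) (hKm : KmuS)
    (hFsp : FspS) (hVco : VcoS) (hRy : RaySpanS) (hVf : KvfS) (hVv : KvvS) (hT : TsgS)
    (hNd : Nd3vS) (hNr : Nr3S) (hB : BpS) {q : ℤ[X]} {a : ℝ} {j : ℕ}
    (hAll : Ball phi D q a j eta) (h4 : Q4 phi D eta) {Z : ZMod (1 + 3) → L}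
    {mu : ZMod (1 + 3) → L →+ ℤ} (h : Cyc phi D eta 1 Z mu) (hr : Rlt D Z) :
    (∀ nu, Kil phi D (Z 0) (Z 1) (eta (Z 0) * tA) (eta (Z 1) * tC) nu → nu = 0) ∨
    (∀ nu, Kil phi D (Z 1) (Z 0) (eta (Z 1) * tA) (eta (Z 0) * tC) nu → nu = 0) := by
  obtain ⟨f, C, W, -, -, -⟩ := hAll (Z 0) (h.mtl 0).r0
  have h2 : 2 ≤ Module.finrank ℤ L := by have := W.ko.rk; have := W.ko.j2; omega
  have hM : Mut D (Z 0) (Z 1) (eta (Z 0)) (eta (Z 1)) := by
    have := h.mtl 0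
    rwa [zero_add] at this
  refine df4 hE2 hRk hF1 hI1 W.ko.min.fp h2 h hr ?_ ?_
  · intro R r hR t00
    obtain ⟨Z', mu', h', rfl⟩ := h4 R t00.ray
    exact px_cyc hM1 hMm hMV hE1 hE2 hPc
      hClp hC0 hG0 hI1 hRk hFD hWW hRF hMug hMco hCu hSf hTr hTsa hI3 hMfc hCa hGlc hFou hDti
      hNbr hF1 hF2 hKm hFsp hVco hRy hVf hVv hT hNd hNr hB hAll h h' (i := 0) (i' := 0) hM hR t00
  · intro R r hR t00
    obtain ⟨Z', mu', h', rfl⟩ := h4 R t00.ray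
    exact px_cyc hM1 hMm hMV hE1 hE2 hPc
      hClp hC0 hG0 hI1 hRk hFD hWW hRF hMug hMco hCu hSf hTr hTsa hI3 hMfc hCa hGlc hFou hDti
      hNbr hF1 hF2 hKm hFsp hVco hRy hVf hVv hT hNd hNr hB hAll h h' (i := 1) (i' := 0)
      ⟨hM.r1, hM.r0, hM.m1, hM.m0⟩ hR t00

end

end Pool.Agent.B5.KO.H40
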