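import Pool.Agent.Lib.MP_b5021c_nt.B.H17.Vco
import Pool.Agent.Lib.MP_b5021c_nt.B.H71.Com
import Pool.Agent.Lib.MP_b5021c_nt.IfaceE4

/-!
# MP_b5021c_nt, all `θ`, K odd: functionals which kill a closing also kill the closing of a closing
-/

set_option linter.unusedSectionVars false

namespace Pool.Agent.B5.KO.H40

open scoped LaurentPolynomial
open Pool.Agent.B5.H17 (wt vco_eq wt_of wt_zero)

variable {L : Type} [AddCommGroup L] [Module.Free ℤ L] [Module.Finite ℤ L]

theorem vco_add (e : (RO ℤ)ˣ) (S a : L) (F G : AO ℤ L) :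
    vco e S (F + G) a = vco e S F a + vco e S G a := by
  rw [vco_eq, vco_eq, vco_eq]
  exact Finsupp.sum_add_index' (fun b => by rw [zero_mul]) (fun b p q => by rw [add_mul])

theorem vco_zero (e : (RO ℤ)ˣ) (S a : L) : vco e S (0 : AO ℤ L) a = 0 := by
  rw [vco_eq]
  exact Finsupp.sum_zero_index

theorem vco_single (e : (RO ℤ)ˣ) (S a b : L) (q : RO ℤ) :
    vco e S (AddMonoidAlgebra.single b q : AO ℤ L) a = q * wt e S a b := by
  rw [vco_eq, AddMonoidAlgebra.coeff_single]
  exact Finsupp.sum_single_index (by rw [zero_mul])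

theorem vco_sum (e : (RO ℤ)ˣ) (S a : L) {ι : Type} (s : Finset ι) (F : ι → AO ℤ L) :
    vco e S (∑ i ∈ s, F i) a = ∑ i ∈ s, vco e S (F i) a := by
  classical
  induction s using Finset.induction_on with
  | empty => rw [Finset.sum_empty, Finset.sum_empty, vco_zero]
  | insert i s hi ih => rw [Finset.sum_insert hi, Finset.sum_insert hi, vco_add, ih]

/-- `vco` is linear over the coefficients. -/
theorem vco_cst (c : RO ℤ) (e : (RO ℤ)ˣ) (S a : L) (G : AO ℤ L) :
    vco e S (cst c * G) a = c * vco e S G a := by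
  classical
  have h1 : G = ∑ b ∈ G.coeff.support, AddMonoidAlgebra.single b (G.coeff b) := by
    conv_lhs => rw [← AddMonoidAlgebra.sum_coeff_single G]
    rfl
  have h2 : cst c * G = ∑ b ∈ G.coeff.support, AddMonoidAlgebra.single b (c * G.coeff b) := by
    conv_lhs => rw [h1]
    rw [Finset.mul_sum]
    refine Finset.sum_congr rfl fun b _ => ?_
    rw [cst, AddMonoidAlgebra.single_mul_single, zero_add]
  conv_rhs => rw [h1]
  rw [h2, vco_sum, vco_sum, Finset.mul_sum]
  refine Finset.sum_congr rfl fun b _ => ?_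
  rw [vco_single, vco_single, mul_assoc]

/-- The class sums of a closing. -/
theorem vco_cl_ne (k : L →+ ℤ) (T : L) (h : k T = 1) (u e : (RO ℤ)ˣ) (G : AO ℤ L) {x : Ker k}
    (hx : x ≠ 0) (a : Ker k) (hne : vco e x (cl k T h u G) a ≠ 0) :
    ∃ l : ℤ, vco e (x : L) G ((a : L) + l • T) ≠ 0 := by
  classical
  by_contra hcon
  push Not at hcon
  apply hne
  have hx' : (x : L) ≠ 0 := fun h0 => hx (Subtype.ext h0)
  have kx : k (x : L) = 0 := x.2
  have ka : k (a : L) = 0 := a.2
  have hcl : cl k T h u G = ∑ b ∈ G.coeff.support,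
      AddMonoidAlgebra.single (prj k T h b) (G.coeff b * ((u ^ (k b) : (RO ℤ)ˣ) : RO ℤ)) := by
    conv_lhs => rw [← AddMonoidAlgebra.sum_coeff_single G]
    rw [Finsupp.sum, map_sum]
    refine Finset.sum_congr rfl fun b _ => ?_
    rw [cl_single]
  have hwt : ∀ b : L, wt e x a (prj k T h b) = wt e (x : L) ((a : L) + k b • T) b := by
    intro b
    by_cases hb : ∃ m : ℤ, prj k T h b = a + m • x
    · obtain ⟨m, hm⟩ := hb
      have hb' : b = (a : L) + k b • T + m • (x : L) := by
        have h1 := congrArg (fun y : Ker k => (y : L)) hm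
        simp only [prj_coe] at h1
        have h2 : b = ((a + m • x : Ker k) : L) + k b • T := by rw [← h1, sub_add_cancel]
        rw [h2]
        have h3 : k (((a + m • x : Ker k) : L) + k b • T) = k b := by rw [← h2]
        rw [h3]
        push_cast
        abel
      have h4 := wt_of e hx' ((a : L) + k b • T) m
      rw [← hb'] at h4
      have h5 := wt_of e hx a m
      rw [← hm] at h5
      rw [h4, h5]
    · rw [wt_zero e hb, wt_zero e]
      rintro ⟨m, hm⟩
      apply hb
      refine ⟨m, Subtype.ext ?_⟩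
      rw [prj_coe]
      have h6 : b - k b • T = (a : L) + m • (x : L) := by
        rw [sub_eq_iff_eq_add]
        conv_lhs => rw [hm]
        abel
      rw [h6]
      push_cast
      rfl
  rw [hcl, vco_sum]
  have h1 : ∀ b ∈ G.coeff.support, vco e x (AddMonoidAlgebra.single (prj k T h b)
      (G.coeff b * ((u ^ (k b) : (RO ℤ)ˣ) : RO ℤ)) : AO ℤ (Ker k)) a =
      G.coeff b * ((u ^ (k b) : (RO ℤ)ˣ) : RO ℤ) * wt e (x : L) ((a : L) + k b • T) b := by
    intro b _
    rw [vco_single, hwt]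
  rw [Finset.sum_congr rfl h1,
    ← Finset.sum_fiberwise_of_maps_to (t := G.coeff.support.image k) (g := k)
      (fun b hb => Finset.mem_image_of_mem _ hb)]
  apply Finset.sum_eq_zero
  intro l _
  have h2 : ∑ b ∈ G.coeff.support with k b = l, G.coeff b * ((u ^ (k b) : (RO ℤ)ˣ) : RO ℤ) *
      wt e (x : L) ((a : L) + k b • T) b =
      ((u ^ l : (RO ℤ)ˣ) : RO ℤ) * vco e (x : L) G ((a : L) + l • T) := by
    rw [vco_eq, Finsupp.sum, Finset.mul_sum, Finset.sum_filter]
    refine Finset.sum_congr rfl fun b _ => ?_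
    split_ifs with hb
    · rw [hb]
      ring
    · rw [wt_zero e, mul_zero, mul_zero]
      rintro ⟨m, hm⟩
      apply hb
      rw [hm, map_add, map_add, map_zsmul, map_zsmul, ka, kx, h]
      simp
  rw [h2, hcon, mul_zero]

variable {P : Type} [Fintype P] [DecidableEq P] {phi : L →+ (P → ℤ)} {D : AO ℤ L}

/-- A functional which kills the closing `w^R = e` of `D` kills the closing `w^R = e` of a double
closing of `D`, with a content removed. -/
theorem ker_dbl {S S1 R : L} (Y : Dp phi S S1) {u0 u1 e : (RO ℤ)ˣ} {nu : L →+ ℤ}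
    (hk : ∀ a ∈ US e R D, nu a = 0) (n0 : nu S = 0) (n1 : nu S1 = 0) {x : Ker Y.k1}
    (hx : ((x : Ker (co phi Y.i0)) : L) = R) (hR0 : R ≠ 0) {c : RO ℤ} {H : AO ℤ (Ker Y.k1)}
    (hH : dc Y u0 u1 D = cst c * H) (hc : c ≠ 0) :
    ∀ a ∈ US e x H, nu ((a : Ker (co phi Y.i0)) : L) = 0 := by
  have hRU : nu R = 0 := by
    apply hk
    refine ⟨1, one_ne_zero, ?_⟩
    rw [one_smul]
    exact Submodule.subset_span (Set.mem_insert _ _)
  have hx0 : x ≠ 0 := by
    rintro rfl
    exact hR0 hx.symm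
  have hx1 : (x : Ker (co phi Y.i0)) ≠ 0 := fun h => hx0 (Subtype.ext h)
  have key : ∀ a : Ker Y.k1, vco e x H a ≠ 0 → nu ((a : Ker (co phi Y.i0)) : L) = 0 := by
    intro a ha
    have h1 : vco e x (dc Y u0 u1 D) a ≠ 0 := by
      rw [hH, vco_cst]
      exact mul_ne_zero hc ha
    obtain ⟨l, hl⟩ := vco_cl_ne Y.k1 Y.T Y.h1 u1 e _ hx0 a h1
    obtain ⟨m, hm⟩ := vco_cl_ne (co phi Y.i0) S Y.h0 u0 e D hx1 _ hl
    rw [hx] at hm
    have h2 : nu ((((a : Ker (co phi Y.i0)) + l • Y.T : Ker (co phi Y.i0)) : L) + m • S) = 0 := by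
      apply hk
      refine ⟨1, one_ne_zero, ?_⟩
      rw [one_smul]
      exact Submodule.subset_span (Or.inr hm)
    have h3 : (((a : Ker (co phi Y.i0)) + l • Y.T : Ker (co phi Y.i0)) : L) =
        ((a : Ker (co phi Y.i0)) : L) + l • S1 :=
      congrArg (fun v : L => ((a : Ker (co phi Y.i0)) : L) + l • v) Y.eT
    rw [h3, map_add, map_add, map_zsmul, map_zsmul, n0, n1, smul_zero, smul_zero, add_zero,
      add_zero] at h2
    exact h2
  intro a ha
  obtain ⟨n, hn, hm⟩ := ha
  have h1 : Submodule.span ℤ (insert x {a : Ker Y.k1 | vco e x H a ≠ 0}) ≤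
      LinearMap.ker ((nu.comp (incl (Ker (co phi Y.i0)))).comp (incl (Ker Y.k1))).toIntLinearMap := by
    rw [Submodule.span_le]
    rintro y (rfl | hy)
    · change nu ((y : Ker (co phi Y.i0)) : L) = 0
      rw [hx, hRU]
    · exact key y hy
  have h2 : nu (((n • a : Ker Y.k1) : Ker (co phi Y.i0)) : L) = 0 := h1 hm
  have h3 : (((n • a : Ker Y.k1) : Ker (co phi Y.i0)) : L) = n • ((a : Ker (co phi Y.i0)) : L) := rfl
  rw [h3, map_zsmul, smul_eq_mul] at h2
  exact (mul_eq_zero.mp h2).resolve_left hn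

end Pool.Agent.B5.KO.H40
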