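import Pool.Agent.Lib.MP_b5021c_nt.KO.H67.O3b
import Pool.Agent.Lib.MP_b5021c_nt.KO.H29.Ray4
import Pool.Agent.Lib.MP_b5021c_nt.KO.H13.L4p
import Pool.Agent.Lib.MP_b5021c_nt.KO.H40.Cnt4
import Pool.Agent.Lib.MP_b5021c_nt.KO.H40.Vcl
import Pool.Agent.Lib.MP_b5021c_nt.KO.H40.Df4

/-!
# MP_b5021c_nt, all `θ`, K odd, (O4), row G4: one overlapping ray of `V''`
-/

set_option linter.unusedSectionVars false

namespace Pool.Agent.B5.KO.H40

open scoped LaurentPolynomial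
open Polynomial
open Pool.Agent.B5.KE
open Pool.Agent.B5.Nr.Sch
open Pool.Agent.B5.Nr (TrezS)
open Pool.Agent.B5.H61 (CuspS)
open Pool.Agent.B5.H40 (uT)
open Pool.Agent.B5.KV67 (TT1 tA_val)
open Pool.Agent.B5.KO67 (upper aset ko_num double loadB_j)
open Pool.Agent.B5.O4X

/-- (BPD) THEOREM B' for a unit ray with a functional which kills the closing at the unit load. -/
def BpdqS : Prop := ∀ (P L : Type) [Fintype P] [DecidableEq P] [AddCommGroup L]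
  [Module.Free ℤ L] [Module.Finite ℤ L] (phi : L →+ (P → ℤ)) (G : AO ℤ L) (N : ℕ) (S : L)
  (w e : (RO ℤ)ˣ) (p g : ℤ[X]) (nu : L →+ ℤ), 2 ≤ N → DD phi G → ClassV N (G.coeff 0) →
    Module.finrank ℤ L + 1 = 2 * N → (∀ K < 2 * N, Bnk K) → Ray G S →
    (w : RO ℤ) * G.coeff 0 = toLaurent p → p.coeff 0 = N →
    (w : RO ℤ) * ((e : RO ℤ) * G.coeff S) = -toLaurent g → g.coeff 0 = 1 → g ≠ 1 →
    nu ≠ 0 → (∀ a ∈ US e S G, nu a = 0) →
      (∃ (k : ℕ) (t r : ℤ), 1 ≤ k ∧ p = C (N : ℤ) + C t * X ^ k ∧ g = 1 + C r * X ^ k) ∨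
        Bpx (N - 1) (p - g) g

section

variable {P L : Type} [Fintype P] [DecidableEq P] [AddCommGroup L] [Module.Free ℤ L]
  [Module.Finite ℤ L] {phi : L →+ (P → ℤ)} {D : AO ℤ L}

/-- Ports of a mutual pair outside a third ray. -/
theorem dp_of (hI : Inj1S) (fp : FP phi D) {S S1 R : L} (rS : Ray D S) (rS1 : Ray D S1)
    (rR : Ray D R) (dis : ∀ i, phi S i = 0 ∨ phi S1 i = 0) (h0 : S ≠ R) (h1 : S1 ≠ R) :
    ∃ (Y : Dp phi S S1) (x : Ker Y.k1), ((x : Ker (co phi Y.i0)) : L) = R := by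
  have key : ∀ {T : L}, Ray D T → T ≠ R → ∃ i, phi T i = 1 ∧ phi R i = 0 := by
    intro T rT hne
    by_contra hcon
    push Not at hcon
    apply hne
    apply KO.nst hI fp rT rR
    intro i hi
    by_contra h2
    exact hcon i ((fp.dd.bin T rT.1 i).resolve_left h2) hi
  obtain ⟨i0, a0, b0⟩ := key rS h0
  obtain ⟨i1, a1, b1⟩ := key rS1 h1
  have c0 : phi S1 i0 = 0 := (dis i0).resolve_left (by rw [a0]; exact one_ne_zero)
  refine ⟨⟨i0, a0, ⟨S1, c0⟩, rfl, i1, (co phi i1).comp (incl (Ker (co phi i0))), fun a => rfl,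
    a1⟩, ⟨⟨R, b0⟩, b1⟩, rfl⟩

/-- The ray `R` of another component overlaps `Z i` or `Z (i + 1)`: the data of `V''`. -/
theorem side (hU : UnitRS) (hM1 : M1S) (hMm : MmulS) (hMV : MVS) (hE1 : E1S) (hE2 : E2S)
    (hPc : PCZS) (hClp : ClpS) (hC0 : Coeff0S) (hG0 : G0S) (hI1 : Inj1S) (hRk : RkS)
    (hFD : FDS) (hWW : WWfS) (hRF : RayFacS) (hMug : MugS) (hMco : McoS) (hCu : CuspS)
    (hSf : SfzS) (hTr : TrezS) (hTsa : TsaS) (hI3 : Io3S) (hMfc : MfcS) (hCa : Ca5S)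
    (hGlc : GlcS) (hFou : FouS) (hDti : DtiS) (hF1 : F1S) (hRy : RaySpanS) (hRn : RnkS)
    (hO5 : H67.O5aS) (hBx : BpxS) (hBd : BpdqS) {q f f' : ℤ[X]} {a : ℝ} {j : ℕ}
    {eta : L → (RO ℤ)ˣ} {C : Set L} (W : KcB phi D q f a j eta 1 C) (hu : f.coeff 0 = 1)
    (hn : f.coeff 1 - q.coeff 1 = j + 1) {k : ℕ} {Z : ZMod (k + 3) → L}
    {mu : ZMod (k + 3) → L →+ ℤ} (h : Cyc phi D eta k Z mu) (i : ZMod (k + 3)) (hZ : Z i ∈ C)
    (hdf : ∀ nu, Kil phi D (Z i) (Z (i + 1)) (eta (Z i) * tA) (eta (Z (i + 1)) * tC) nu →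
      nu = 0) {R : L} (hR : Ray D R) (hne : ∀ n, Z n ≠ R)
    (hov : ∃ p, phi R p = 1 ∧ (phi (Z i) p = 1 ∨ phi (Z (i + 1)) p = 1))
    (hRf : (eta R : RO ℤ) * D.coeff R = toLaurent (X * f')) (hu' : f'.coeff 0 = 1)
    {nuR : L →+ ℤ} (n0 : nuR (Z i) = 0) (n1 : nuR (Z (i + 1)) = 0)
    (hnR : ∀ x ∈ US (eta R) R D, nuR x = 0) (hn0 : nuR ≠ 0) :
    ∃ p c P' g : ℤ[X], L4p j q f f' p c P' g := by
  have fp := W.ko.min.fp
  have hD := fp.dd
  have hj := W.ko.j2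
  have hrk := W.ko.rk
  have h2 : 2 ≤ Module.finrank ℤ L := by omega
  obtain ⟨e, he, hRN⟩ := W.rn (Z i) hZ
  have hM : Mut D (Z i) (Z (i + 1)) (eta (Z i)) (eta (Z (i + 1))) := h.mtl i
  have hM' : Mut D (Z i) (Z (i + 1)) (ld e 1) (eta (Z (i + 1))) := by
    rw [← he]
    exact hM
  obtain ⟨dis, -, -, -⟩ := hMco ℤ P L phi D _ _ _ _ hD.inj hD.bin hM
  obtain ⟨-, hzero, -⟩ := upper hMV hMm hE1 hPc hClp hFD hSf hI3 hMfc hCa hGlc hFou hDti W hu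
    hZ he hRN
  have hcusp : ∀ z : ℂ, ‖z‖ = 1 → (aeval z (q + X * f) : ℂ) ≠ 0 := fun z hz =>
    cusp_m1 hCu hD h2 hRN hM' hzero hz
  obtain ⟨E, hE, hE0, hEpos, hEz⟩ := typa hRN.loc hu hRN.ne
  rw [hn] at hE0
  have hEm : (aeval (-1 : ℂ) E : ℂ) ≠ 0 := by
    intro h3
    apply hcusp (-1) (by simp)
    have h5 := congrArg (fun p : ℤ[X] => (aeval (-1 : ℂ) p : ℂ)) hE
    simp only [map_sub, map_mul, aeval_X, h3, mul_zero] at h5
    rw [map_add, map_mul, aeval_X]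
    linear_combination -h5
  obtain ⟨Y, x, hx⟩ := dp_of hI1 fp hM.r0 hM.r1 hR dis (hne i) (hne (i + 1))
  have hfull : rk (supp (dc Y (ld e 1 * kap) (eta (Z (i + 1)) * uT (1 : ℤˣ) 1) D)) + 2 =
      Module.finrank ℤ L := by
    refine (hRn ℤ P L phi D _ _ _ _ hD.inj hD.bin hM' Y _ _).mpr fun nu hk => hdf nu ?_
    rw [he]
    exact hk
  have hov' := KO29.ovl hF1 hD.inj hD.bin h i Y (ld e 1 * kap) (eta (Z (i + 1)) * uT (1 : ℤˣ) 1)
    hR hne hov x hx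
  obtain ⟨-, hthin, -⟩ := hE2 ℤ P L phi D hD h2
  obtain ⟨lam0, hlam0, -⟩ := hD.st.2
  have hray : Ray (dc Y (ld e 1 * kap) (eta (Z (i + 1)) * uT (1 : ℤˣ) 1) D) x :=
    KO29.ray4 hRy hD.inj hD.bin ⟨lam0, hlam0⟩ hthin h i Y _ _ hR hne x hx (by
      rw [hov']
      exact hR.1)
  have hxp : ((eta R * uT (1 : ℤˣ) (-1) : (RO ℤ)ˣ) : RO ℤ) *
      (dc Y (ld e 1 * kap) (eta (Z (i + 1)) * uT (1 : ℤˣ) 1) D).coeff x = toLaurent f' := by
    rw [hov', Units.val_mul, H40.uT_val, Units.val_one, map_one, one_mul]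
    rw [map_mul, toLaurent_X] at hRf
    linear_combination (LaurentPolynomial.T (-1) : RO ℤ) * hRf + (toLaurent f' : RO ℤ) * TT1
  obtain ⟨c, H, psi, hc, hdc, hDH, hVH, hrH, hH0, hHx, hfr⟩ := double hMm hMV hE1 hE2 hPc hClp hC0
    hG0 hI1 hRk hFD hWW hRF hMug hMco hTr hTsa hO5 W hu hn hZ he hRN hM' hE hEz hEm Y hfull x
    hray hu' hxp
  obtain ⟨V, hVd⟩ : ∃ V : ℤ[X], V = E - (1 + X) * f := ⟨_, rfl⟩
  rw [← hVd] at hH0
  have hXV : X * V = (1 - X - X ^ 2) * f - q := by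
    rw [hVd]
    linear_combination -hE
  have hV0 : V.coeff 0 = j := by
    rw [hVd, coeff_sub, hE0, mul_coeff_zero, hu]
    simp
  have hj0 : (j : ℤ) ≠ 0 := by exact_mod_cast (by omega : j ≠ 0)
  have hjV : V.coeff 0 ≠ 0 := by rw [hV0]; exact hj0
  obtain ⟨c', g', hc', hg', hcg, ⟨u, huc⟩, ⟨v, hvg⟩⟩ :=
    split_one hU hu' (eta R * uT (1 : ℤˣ) (-1)).isUnit hHx
  have hH00 : H.coeff 0 ≠ 0 := ((hMV ℤ).1 _ _ hVH).1
  obtain ⟨m, p', hp', hp'0⟩ := H40.exists_normal (H.coeff 0) hH00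
  obtain ⟨n, s, hs, hus⟩ := (hU ℤ _).mp u.isUnit
  obtain ⟨s', rfl⟩ := hs
  obtain ⟨p, hpd⟩ : ∃ p : ℤ[X], p = -(Polynomial.C (s' : ℤ) * p') := ⟨_, rfl⟩
  have hVp : V = c' * p := by
    have h3 : (LaurentPolynomial.T (n + m) : RO ℤ) * toLaurent (Polynomial.C (s' : ℤ) * (c' * p')) =
        LaurentPolynomial.T 1 * toLaurent (-V) := by
      rw [huc, hp', hus] at hH0
      rw [LaurentPolynomial.T_add, map_mul toLaurent (Polynomial.C _), map_mul, toLaurent_C, map_neg]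
      rw [map_mul, toLaurent_X] at hH0
      linear_combination hH0
    obtain ⟨-, h4⟩ := H56.nf_unique (n + m) 1 _ _ (by
      rw [mul_coeff_zero, coeff_C_zero, mul_coeff_zero, hc', one_mul]
      exact mul_ne_zero (Units.ne_zero s') hp'0) (by
      rw [coeff_neg]
      exact neg_ne_zero.mpr hjV) h3
    rw [hpd]
    linear_combination h4
  have hp0 : p.coeff 0 = j := by
    have h3 : V.coeff 0 = p.coeff 0 := by rw [hVp, mul_coeff_zero, hc', one_mul]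
    rw [← h3, hV0]
  have hc'ne : (toLaurent c' : RO ℤ) ≠ 0 := by
    rw [toLaurent_ne_zero]
    intro h4
    rw [h4, coeff_zero] at hc'
    exact zero_ne_one hc'
  have hMc : M (toLaurent c' : RO ℤ) = 1 := by
    have h3 := ((hMV ℤ).1 _ _ hc).2
    rw [huc, (hMm ℤ).1 _ _ u.ne_zero hc'ne, (hMm ℤ).2.2 _ u.isUnit, one_mul] at h3
    exact h3
  -- the unit `w`
  obtain ⟨w, hw⟩ : ∃ w : (RO ℤ)ˣ, w = -(u * uT (1 : ℤˣ) (-1)) := ⟨_, rfl⟩
  have hwv : (w : RO ℤ) = -((u : RO ℤ) * LaurentPolynomial.T (-1)) := by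
    rw [hw, Units.val_neg, Units.val_mul, H40.uT_val, Units.val_one, map_one, one_mul]
  have hwp : (w : RO ℤ) * H.coeff 0 = toLaurent p := by
    apply mul_left_cancel₀ hc'ne
    rw [huc, hVp, map_mul, map_mul, toLaurent_X] at hH0
    rw [hwv]
    linear_combination (-(LaurentPolynomial.T (-1)) : RO ℤ) * hH0 +
      ((toLaurent c' : RO ℤ) * toLaurent p) * TT1
  have hwg : (w : RO ℤ) * ((eta R : RO ℤ) * H.coeff x) = -toLaurent g' := by
    apply mul_left_cancel₀ hc'ne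
    rw [huc, hcg, map_mul, Units.val_mul, H40.uT_val, Units.val_one, map_one, one_mul] at hHx
    rw [hwv]
    linear_combination -hHx
  have hcne : c ≠ 0 := ((hMV ℤ).1 _ _ hc).1
  have hker := ker_dbl Y (x := x) hnR n0 n1 hx hR.2.1 hdc hcne
  -- the restriction of the functional
  obtain ⟨nu, hnu⟩ : ∃ nu : Ker Y.k1 →+ ℤ, nu = (nuR.comp (incl (Ker (co phi Y.i0)))).comp
    (incl (Ker Y.k1)) := ⟨_, rfl⟩
  have hnu0 : nu ≠ 0 := by
    intro h0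
    apply hn0
    apply AddMonoidHom.ext
    intro y
    have h3 : nu (prj Y.k1 Y.T Y.h1 (prj (co phi Y.i0) (Z i) Y.h0 y)) = 0 := by
      rw [h0]
      rfl
    rw [hnu] at h3
    change nuR ((((prj Y.k1 Y.T Y.h1 (prj (co phi Y.i0) (Z i) Y.h0 y) : Ker Y.k1) :
      Ker (co phi Y.i0)) : L)) = 0 at h3
    rw [prj_coe] at h3
    have h4 : ((prj (co phi Y.i0) (Z i) Y.h0 y -
        Y.k1 (prj (co phi Y.i0) (Z i) Y.h0 y) • Y.T : Ker (co phi Y.i0)) : L) =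
        (y - co phi Y.i0 y • Z i) - Y.k1 (prj (co phi Y.i0) (Z i) Y.h0 y) • Z (i + 1) :=
      congrArg (fun v : L => (y - co phi Y.i0 y • Z i) -
        Y.k1 (prj (co phi Y.i0) (Z i) Y.h0 y) • v) Y.eT
    rw [h4, map_sub, map_sub, map_zsmul, map_zsmul, n0, n1, smul_zero, smul_zero, sub_zero,
      sub_zero] at h3
    exact h3
  have hnuk : ∀ b ∈ US (eta R) x H, nu b = 0 := by
    intro b hb
    rw [hnu]
    exact hker b hb
  have hIH : ∀ K < 2 * j, Bnk K := fun K hK => W.ko.ih K (by omega)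
  obtain ⟨hx1, hx2⟩ := hBx P (Ker Y.k1) psi H j x w v p g' hj hDH hVH hfr hIH hrH hwp hp0 hvg hg'
  -- evaluation at the circle
  have hpz : ∀ z : ℂ, ‖z‖ ≤ 1 → (aeval z p : ℂ) ≠ 0 := by
    intro z hz hpz
    have hp'z : (aeval z p' : ℂ) = 0 := by
      rw [hpd, map_neg, map_mul, aeval_C, neg_eq_zero] at hpz
      rcases mul_eq_zero.mp hpz with h5 | h5
      · exfalso
        have h6 : ((s' : ℤ) : ℂ) = 0 := h5
        exact Units.ne_zero s' (by exact_mod_cast h6)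
      · exact h5
    rcases lt_or_eq_of_le hz with h4 | h4
    · obtain ⟨-, n0, g0, hg0, hg0', hz0⟩ := id hVH
      have h5 : (g0.coeff 0) ≠ 0 := by
        intro h6
        rw [h6, map_zero, norm_zero] at hg0'
        have : (j : ℝ) ≠ 0 := by exact_mod_cast (by omega : j ≠ 0)
        exact this hg0'.symm
      obtain ⟨-, h8⟩ := H56.nf_unique n0 m g0 p' h5 hp'0 (by rw [← hg0, hp'])
      have h9 := hz0 z h4
      rw [ev_map, h8] at h9
      exact h9 hp'z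
    · obtain ⟨zc, rfl⟩ := circle_of z h4
      have h5 := (hE2 ℤ (P) (Ker Y.k1) psi H hDH (by omega)).1 zc
      rw [hp', map_mul, evR_poly, hp'z, mul_zero] at h5
      exact h5 rfl
  have hle : ∀ z : ℂ, ‖z‖ = 1 → ‖(aeval z g' : ℂ)‖ ≤ ‖(aeval z p : ℂ)‖ := by
    intro z hz
    obtain ⟨zc, rfl⟩ := circle_of z hz
    have h5 := ((hE2 ℤ P (Ker Y.k1) psi H hDH (by omega)).2.2.2.2.2 x hrH).1 zc
    rw [← evR_poly, ← evR_poly, ← hvg, ← hwp, map_mul, map_mul, norm_mul, norm_mul,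
      H36.norm_evR_unit zc _ v.isUnit, H36.norm_evR_unit zc _ w.isUnit, one_mul, one_mul]
    exact h5
  obtain ⟨d, hd⟩ := content hU hM1 hMm hMfc hD h2 hRN hM' hcusp hXV hc' hMc ⟨p, hVp⟩
  refine ⟨V, c', p, g', hXV, hVp, hcg, hc', hp0, hg', ?_, hx2, hpz, hle, ?_⟩
  · intro hg1
    exact hBd P (Ker Y.k1) psi H j x w (eta R) p g' nu hj hDH hVH hfr hIH hrH hwp hp0 hwg hg' hg1
      hnu0 hnuk
  · intro z hz
    rw [hd, map_pow] at hz
    have h6 : (aeval z (1 + X ^ 2 : ℤ[X]) : ℂ) = 0 := by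
      by_contra h7
      exact pow_ne_zero d h7 hz
    rw [map_add, map_one, map_pow, aeval_X] at h6
    linear_combination h6

end

end Pool.Agent.B5.KO.H40
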