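import Pool.Agent.Lib.MP_b5021c_nt.E.H42.Irr
import Pool.Agent.Lib.MP_b5021c_nt.E.H07.Mxu
import Pool.Agent.Lib.MP_b5021c_nt.B.H56.Gen

/-!
# MP_b5021c_nt, all `θ`, K odd, row KIL: a ray that kills a cycle

`T` is a ray and `e` a load with `mu 0 = mu 1 = 0` on `US e T D`, where `mu 0`, `mu 1` are the
functionals of two neighbours of a cycle of length at least four.  The restriction of `D` to the
exponents `a` with `mu 0 a + mu 1 a` even is irreducible, so its exponents are not of full rank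
(minimal support).
-/

set_option linter.unusedSectionVars false

namespace Pool.Agent.B5.KO.H40

open scoped LaurentPolynomial
open AddMonoidAlgebra
open Pool.Agent.B5.H71 (em em_single em_coeff em_coeff_not em_res)
open Pool.Agent.B5.H42.Irr

section

variable {O : Type} [CommRing O] {L : Type} [AddCommGroup L]

/-- The part of `F` with exponents in `Q`. -/
noncomputable def flt (Q : Set L) (F : AO O L) : AO O L := by
  classical exact AddMonoidAlgebra.ofCoeff (F.coeff.filter fun a => a ∈ Q)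

theorem flt_in {Q : Set L} {a : L} (F : AO O L) (h : a ∈ Q) : (flt Q F).coeff a = F.coeff a := by
  classical
  unfold flt
  rw [coeff_ofCoeff, Finsupp.filter_apply, if_pos h]

theorem flt_out {Q : Set L} {a : L} (F : AO O L) (h : a ∉ Q) : (flt Q F).coeff a = 0 := by
  classical
  unfold flt
  rw [coeff_ofCoeff, Finsupp.filter_apply, if_neg h]

theorem two_mul_coeff (b : L) (c d : RO O) (F : AO O L) (a : L) :
    ((single 0 c + single b d) * F).coeff a = c * F.coeff a + d * F.coeff (a - b) := by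
  rw [add_mul, coeff_add, Finsupp.add_apply, coeff_single_mul_apply, coeff_single_mul_apply,
    neg_zero, zero_add, neg_add_eq_sub]

/-- The restriction to a set invariant under the shift by `b`. -/
theorem flt_two_mul {Q : Set L} (b : L) (hQ : ∀ a, a - b ∈ Q ↔ a ∈ Q) (c d : RO O) (F : AO O L) :
    flt Q ((single 0 c + single b d) * F) = (single 0 c + single b d) * flt Q F := by
  apply AddMonoidAlgebra.ext
  apply Finsupp.ext
  intro a
  rw [two_mul_coeff]
  by_cases ha : a ∈ Q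
  · rw [flt_in _ ha, flt_in _ ha, flt_in _ ((hQ a).2 ha), two_mul_coeff]
  · rw [flt_out _ ha, flt_out _ ha, flt_out _ (fun h => ha ((hQ a).1 h)), mul_zero, mul_zero,
      add_zero]

theorem mon_mul_coeff (s : L) (c : RO O) (F : AO O L) (a : L) :
    (single s c * F).coeff a = c * F.coeff (a - s) := by
  rw [coeff_single_mul_apply, neg_add_eq_sub]

end

section

variable {O : Type} [CommRing O] [IsDomain O] [IsPrincipalIdealRing O] [Coef O] {L : Type}
  [AddCommGroup L] [Module.Free ℤ L] [Module.Finite ℤ L]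

/-- The factors of an element of `f`-width zero have `f`-width zero. -/
theorem width_zero (hMin : MinS) {G H : AO O L} (f : L →+ ℤ) (h0 : G * H ≠ 0)
    (h : ∀ a ∈ supp (G * H), f a = 0) : ∀ a ∈ supp G, ∀ b ∈ supp G, f a = f b := by
  have hG : G ≠ 0 := left_ne_zero_of_mul h0
  have hH : H ≠ 0 := right_ne_zero_of_mul h0
  obtain ⟨h1, hh1⟩ : ∃ x, H.coeff x ≠ 0 := by
    by_contra hne
    push Not at hne
    apply hH
    apply AddMonoidAlgebra.ext
    apply Finsupp.ext
    intro a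
    rw [hne a]
    rfl
  have key : ∀ k : L →+ ℤ, (∀ a ∈ supp (G * H), k a = 0) → ∀ a ∈ supp G, -k h1 ≤ k a := by
    intro k hk
    have e1 : (single (-h1) (1 : RO O) * H : AO O L).coeff 0 ≠ 0 := by
      rw [mon_mul_coeff, one_mul, zero_sub, neg_neg]
      exact hh1
    refine hMin O L G (single (-h1) (1 : RO O) * H) hG e1 k (-k h1) ?_
    intro a ha
    have e2 : G * (single (-h1) (1 : RO O) * H) = single (-h1) (1 : RO O) * (G * H) := by ring
    have e3 : (G * H).coeff (a + h1) ≠ 0 := by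
      have e4 : (G * (single (-h1) (1 : RO O) * H)).coeff a ≠ 0 := ha
      rw [e2, mon_mul_coeff, one_mul, sub_neg_eq_add] at e4
      exact e4
    have e5 := hk _ e3
    rw [map_add] at e5
    omega
  intro a ha b hb
  have k1 := key f h
  have k2 := key (-f) (fun x hx => by rw [AddMonoidHom.neg_apply, h x hx, neg_zero])
  have a1 := k1 a ha
  have a2 := k2 a ha
  have b1 := k1 b hb
  have b2 := k2 b hb
  simp only [AddMonoidHom.neg_apply] at a2 b2
  omega

end

section

variable {O : Type} [CommRing O] [IsDomain O] [IsPrincipalIdealRing O] [Coef O] {P : Type}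
  [Fintype P] [DecidableEq P] {L : Type} [AddCommGroup L] [Module.Free ℤ L] [Module.Finite ℤ L]

/-- The flip at a port. -/
theorem flip_lo (hF1 : F1S) {phi : L →+ (P → ℤ)} {D : AO O L} (hD : DD phi D) {Z : L}
    (hZ : Ray D Z) {e : (RO O)ˣ} {a : L} (ha : a ∉ US e Z D) {p : P} (hp : phi Z p = 1)
    (h0 : phi a p = 0) : D.coeff a + (e : RO O) * D.coeff (a + Z) = 0 := by
  have hZB : Bin phi Z := hD.bin Z hZ.1
  have hF := hF1 O P L phi D Z e hD.inj hD.bin hZB hZ.2.1
  by_cases hd : ∀ i, phi a i = 0 ∨ phi Z i = 0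
  · exact (hF a ha).2 hd
  · push Not at hd
    obtain ⟨q, hq1, hq2⟩ := hd
    have hq3 : phi Z q = 1 := (hZB q).resolve_left hq2
    have h1 : D.coeff a = 0 := by
      by_contra hne
      have hb := hD.bin a hne
      exact hne ((hF a ha).1 ⟨q, (hb q).resolve_left hq1, hq3⟩ ⟨p, h0, hp⟩)
    have h2 : D.coeff (a + Z) = 0 := by
      by_contra hne
      have hb := hD.bin (a + Z) hne
      have hq4 : phi (a + Z) q = phi a q + 1 := by rw [map_add, Pi.add_apply, hq3]
      have hp4 : phi (a + Z) p = 1 := by rw [map_add, Pi.add_apply, hp, h0, zero_add]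
      have hq5 : phi (a + Z) q = 0 := by
        rcases hb q with h | h
        · exact h
        · omega
      have hU : a + Z ∉ US e Z D := by
        intro h
        apply ha
        have h5 := Submodule.sub_mem _ h (show Z ∈ US e Z D from
          ⟨1, one_ne_zero, by rw [one_smul]; exact Submodule.subset_span (Set.mem_insert _ _)⟩)
        rwa [add_sub_cancel_right] at h5
      exact hne ((hF (a + Z) hU).1 ⟨p, hp4, hp⟩ ⟨q, hq5, hq3⟩)
    rw [h1, h2, mul_zero, add_zero]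

/-- The exponents with `m0 + m1` even. -/
def chiK (m0 m1 : L →+ ℤ) : Submodule ℤ L where
  carrier := {a | Even (m0 a + m1 a)}
  zero_mem' := by simp
  add_mem' := by
    intro a b ha hb
    have h : m0 (a + b) + m1 (a + b) = (m0 a + m1 a) + (m0 b + m1 b) := by
      rw [map_add, map_add]; ring
    change Even (m0 (a + b) + m1 (a + b))
    rw [h]
    exact Even.add ha hb
  smul_mem' := by
    intro c a ha
    have h : m0 (c • a) + m1 (c • a) = c * (m0 a + m1 a) := by
      rw [map_zsmul, map_zsmul, smul_eq_mul, smul_eq_mul]; ring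
    change Even (m0 (c • a) + m1 (c • a))
    rw [h]
    exact Even.mul_left ha c

theorem mem_chiK {m0 m1 : L →+ ℤ} {a : L} : a ∈ chiK m0 m1 ↔ Even (m0 a + m1 a) := Iff.rfl

/-- Two mutual rays `Z0`, `Z1` with neighbours `Zm` of `Z0` and `Z2` of `Z1`. -/
structure Kd (phi : L →+ (P → ℤ)) (D : AO O L) (e0 e1 : (RO O)ˣ) (Z0 Z1 Z2 Zm : L)
    (m0 m1 : L →+ ℤ) : Prop where
  r0 : Ray D Z0
  r1 : Ray D Z1
  u0 : ∀ a, a ∈ US e0 Z0 D ↔ m0 a = 0
  u1 : ∀ a, a ∈ US e1 Z1 D ↔ m1 a = 0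
  m00 : m0 Z0 = 0
  m01 : m0 Z1 = 1
  m10 : m1 Z0 = -1
  m11 : m1 Z1 = 0
  ne : Z0 ≠ Z1
  d01 : ∀ p, phi Z0 p = 0 ∨ phi Z1 p = 0
  d1m : ∀ p, phi Z1 p = 0 ∨ phi Zm p = 0
  d0m : ∀ p, phi Z0 p = 0 ∨ phi Zm p = 0
  d02 : ∀ p, phi Z0 p = 0 ∨ phi Z2 p = 0
  d12 : ∀ p, phi Z1 p = 0 ∨ phi Z2 p = 0
  s01 : D.coeff (Z0 + Z1) ≠ 0
  s0m : D.coeff (Z0 + Zm) ≠ 0
  s12 : D.coeff (Z1 + Z2) ≠ 0
  c0m : Even (m0 (Z0 + Zm) + m1 (Z0 + Zm))
  c12 : Even (m0 (Z1 + Z2) + m1 (Z1 + Z2))

/-- `D` from its restriction. -/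
theorem Kd.dec (hF1 : F1S) {phi : L →+ (P → ℤ)} {D : AO O L} (hD : DD phi D) {e0 e1 : (RO O)ˣ}
    {Z0 Z1 Z2 Zm : L} {m0 m1 : L →+ ℤ} (h : Kd phi D e0 e1 Z0 Z1 Z2 Zm m0 m1) {p0 p1 : P}
    (hp0 : phi Z0 p0 = 1) (hp1 : phi Z1 p1 = 1) :
    D = em (chiK m0 m1) (res (chiK m0 m1) D) +
      single (-Z0) (-(e0 : RO O)) * flt {a | (Odd (m0 a) ∧ Odd (m1 a)) ∧ phi a p0 = 1}
        (em (chiK m0 m1) (res (chiK m0 m1) D)) +
      single Z0 (-((e0⁻¹ : (RO O)ˣ) : RO O)) * flt {a | (Odd (m0 a) ∧ Odd (m1 a)) ∧ phi a p0 = 0}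
        (em (chiK m0 m1) (res (chiK m0 m1) D)) +
      single (-Z1) (-(e1 : RO O)) * flt {a | (Odd (m0 a) ∧ Odd (m1 a)) ∧ phi a p1 = 1}
        (em (chiK m0 m1) (res (chiK m0 m1) D)) +
      single Z1 (-((e1⁻¹ : (RO O)ˣ) : RO O)) * flt {a | (Odd (m0 a) ∧ Odd (m1 a)) ∧ phi a p1 = 0}
        (em (chiK m0 m1) (res (chiK m0 m1) D)) := by
  set K := chiK m0 m1 with hK
  set F := em K (res K D) with hF
  have hin : ∀ a, a ∈ K → F.coeff a = D.coeff a := fun a ha =>
    (em_coeff K (res K D) ⟨a, ha⟩).trans rfl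
  have hout : ∀ a, a ∉ K → F.coeff a = 0 := fun a ha => em_coeff_not K _ a ha
  have hoo : ∀ a, Odd (m0 a) ∧ Odd (m1 a) → a ∈ K := fun a ha => ha.1.add_odd ha.2
  have a0 : ∀ a, m0 (a - Z0) = m0 a := fun a => by rw [map_sub, h.m00, sub_zero]
  have a1 : ∀ a, m1 (a - Z0) = m1 a + 1 := fun a => by rw [map_sub, h.m10]; ring
  have b0 : ∀ a, m0 (a - Z1) = m0 a - 1 := fun a => by rw [map_sub, h.m01]
  have b1 : ∀ a, m1 (a - Z1) = m1 a := fun a => by rw [map_sub, h.m11, sub_zero]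
  have a0' : ∀ a, m0 (a - -Z0) = m0 a := fun a => by rw [sub_neg_eq_add, map_add, h.m00, add_zero]
  have a1' : ∀ a, m1 (a - -Z0) = m1 a - 1 := fun a => by
    rw [sub_neg_eq_add, map_add, h.m10]; ring
  have b0' : ∀ a, m0 (a - -Z1) = m0 a + 1 := fun a => by rw [sub_neg_eq_add, map_add, h.m01]
  have b1' : ∀ a, m1 (a - -Z1) = m1 a := fun a => by
    rw [sub_neg_eq_add, map_add, h.m11, add_zero]
  apply AddMonoidAlgebra.ext
  apply Finsupp.ext
  intro a
  simp only [coeff_add, Finsupp.add_apply, mon_mul_coeff]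
  by_cases ha : a ∈ K
  · have he : Even (m0 a + m1 a) := ha
    rw [hin a ha, flt_out, flt_out, flt_out, flt_out]
    · ring
    · rintro ⟨⟨h1, h2⟩, -⟩
      rw [b0, Int.odd_iff] at h1
      rw [b1, Int.odd_iff] at h2
      rw [Int.even_iff] at he
      omega
    · rintro ⟨⟨h1, h2⟩, -⟩
      rw [b0', Int.odd_iff] at h1
      rw [b1', Int.odd_iff] at h2
      rw [Int.even_iff] at he
      omega
    · rintro ⟨⟨h1, h2⟩, -⟩
      rw [a0, Int.odd_iff] at h1
      rw [a1, Int.odd_iff] at h2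
      rw [Int.even_iff] at he
      omega
    · rintro ⟨⟨h1, h2⟩, -⟩
      rw [a0', Int.odd_iff] at h1
      rw [a1', Int.odd_iff] at h2
      rw [Int.even_iff] at he
      omega
  · have hne : ¬ Even (m0 a + m1 a) := ha
    rw [hout a ha]
    -- the flip with general data
    have key : ∀ (Z : L) (e : (RO O)ˣ) (p : P), Ray D Z → phi Z p = 1 → a ∉ US e Z D →
        (Odd (m0 (a - -Z)) ∧ Odd (m1 (a - -Z))) → (Odd (m0 (a - Z)) ∧ Odd (m1 (a - Z))) →
        D.coeff a = -(e : RO O) * (flt {a | (Odd (m0 a) ∧ Odd (m1 a)) ∧ phi a p = 1} F).coeff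
          (a - -Z) + -((e⁻¹ : (RO O)ˣ) : RO O) *
          (flt {a | (Odd (m0 a) ∧ Odd (m1 a)) ∧ phi a p = 0} F).coeff (a - Z) := by
      intro Z e p hZ hp hU ho1 ho2
      by_cases h0 : phi a p = 0
      · have h3 := flip_lo hF1 hD hZ hU hp h0
        rw [flt_in, flt_out, hin _ (hoo _ ho1), sub_neg_eq_add]
        · linear_combination h3
        · rintro ⟨-, h4⟩
          rw [map_sub, Pi.sub_apply, hp, h0] at h4
          omega
        · refine ⟨ho1, ?_⟩
          rw [sub_neg_eq_add, map_add, Pi.add_apply, hp, h0]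
          norm_num
      · by_cases h1 : phi a p = 1
        · have hU' : a - Z ∉ US e Z D := by
            intro h
            apply hU
            have h5 := Submodule.add_mem _ h (show Z ∈ US e Z D from
              ⟨1, one_ne_zero, by rw [one_smul]; exact Submodule.subset_span (Set.mem_insert _ _)⟩)
            rwa [sub_add_cancel] at h5
          have h3 := flip_lo hF1 hD hZ hU' hp (by rw [map_sub, Pi.sub_apply, hp, h1, sub_self])
          rw [sub_add_cancel] at h3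
          rw [flt_out, flt_in, hin _ (hoo _ ho2)]
          · have h4 : ((e⁻¹ : (RO O)ˣ) : RO O) * (e : RO O) = 1 := e.inv_mul
            linear_combination (-(D.coeff a)) * h4 + ((e⁻¹ : (RO O)ˣ) : RO O) * h3
          · refine ⟨ho2, ?_⟩
            rw [map_sub, Pi.sub_apply, hp, h1, sub_self]
          · rintro ⟨-, h4⟩
            rw [sub_neg_eq_add, map_add, Pi.add_apply, hp, h1] at h4
            omega
        · have h3 : D.coeff a = 0 := by
            by_contra hc
            rcases hD.bin a hc p with h4 | h4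
            · exact h0 h4
            · exact h1 h4
          rw [h3, flt_out, flt_out]
          · ring
          · rintro ⟨-, h4⟩
            rw [map_sub, Pi.sub_apply, hp] at h4
            omega
          · rintro ⟨-, h4⟩
            rw [sub_neg_eq_add, map_add, Pi.add_apply, hp] at h4
            omega
    rcases Int.even_or_odd (m0 a) with g0 | g0
    · have g1 : Odd (m1 a) := by
        rw [← Int.not_even_iff_odd]
        exact fun h => hne (g0.add h)
      have hU : a ∉ US e1 Z1 D := by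
        rw [h.u1]
        rintro h
        rw [h] at g1
        exact absurd g1 (by decide)
      rw [Int.even_iff] at g0
      rw [Int.odd_iff] at g1
      rw [key Z1 e1 p1 h.r1 hp1 hU
        ⟨by rw [b0', Int.odd_iff]; omega, by rw [b1', Int.odd_iff]; omega⟩
        ⟨by rw [b0, Int.odd_iff]; omega, by rw [b1, Int.odd_iff]; omega⟩,
        flt_out (Q := {a | (Odd (m0 a) ∧ Odd (m1 a)) ∧ phi a p0 = 1}),
        flt_out (Q := {a | (Odd (m0 a) ∧ Odd (m1 a)) ∧ phi a p0 = 0})]
      · ring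
      · rintro ⟨⟨h1, -⟩, -⟩
        rw [a0, Int.odd_iff] at h1
        omega
      · rintro ⟨⟨h1, -⟩, -⟩
        rw [a0', Int.odd_iff] at h1
        omega
    · have g1 : Even (m1 a) := by
        rw [← Int.not_odd_iff_even]
        exact fun h => hne (g0.add_odd h)
      have hU : a ∉ US e0 Z0 D := by
        rw [h.u0]
        rintro h
        rw [h] at g0
        exact absurd g0 (by decide)
      rw [Int.odd_iff] at g0
      rw [Int.even_iff] at g1
      rw [key Z0 e0 p0 h.r0 hp0 hU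
        ⟨by rw [a0', Int.odd_iff]; omega, by rw [a1', Int.odd_iff]; omega⟩
        ⟨by rw [a0, Int.odd_iff]; omega, by rw [a1, Int.odd_iff]; omega⟩,
        flt_out (Q := {a | (Odd (m0 a) ∧ Odd (m1 a)) ∧ phi a p1 = 1}),
        flt_out (Q := {a | (Odd (m0 a) ∧ Odd (m1 a)) ∧ phi a p1 = 0})]
      · ring
      · rintro ⟨⟨-, h1⟩, -⟩
        rw [b1, Int.odd_iff] at h1
        omega
      · rintro ⟨⟨-, h1⟩, -⟩
        rw [b1', Int.odd_iff] at h1
        omega

/-- The factor divides `D`. -/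
theorem Kd.dvd (hF1 : F1S) {phi : L →+ (P → ℤ)} {D : AO O L} (hD : DD phi D) {e0 e1 : (RO O)ˣ}
    {Z0 Z1 Z2 Zm : L} {m0 m1 : L →+ ℤ} (h : Kd phi D e0 e1 Z0 Z1 Z2 Zm m0 m1)
    (g H : AO O (chiK m0 m1)) (hgH : res (chiK m0 m1) D = g * H) (b : chiK m0 m1) (hb : b ≠ 0)
    (hs : supp g = {0, b}) (hb0 : m0 (b : L) = 0) (hb1 : m1 (b : L) = 0)
    (hd0 : ∀ p, phi (b : L) p = 0 ∨ phi Z0 p = 0) (hd1 : ∀ p, phi (b : L) p = 0 ∨ phi Z1 p = 0) :
    em (chiK m0 m1) g ∣ D := by
  obtain ⟨p0, hp0⟩ := exists_port phi hD.inj h.r0.2.1 (hD.bin Z0 h.r0.1)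
  obtain ⟨p1, hp1⟩ := exists_port phi hD.inj h.r1.2.1 (hD.bin Z1 h.r1.1)
  have hbp0 : phi (b : L) p0 = 0 := (hd0 p0).resolve_right (by rw [hp0]; exact one_ne_zero)
  have hbp1 : phi (b : L) p1 = 0 := (hd1 p1).resolve_right (by rw [hp1]; exact one_ne_zero)
  have hg : em (chiK m0 m1) g = single 0 (g.coeff 0) + single (b : L) (g.coeff b) := by
    conv_lhs => rw [binom g b hb hs]
    rw [map_add, em_single, em_single]
    rfl
  have hF : em (chiK m0 m1) (res (chiK m0 m1) D) =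
      em (chiK m0 m1) g * em (chiK m0 m1) H := by rw [hgH, map_mul]
  have hdec := h.dec hF1 hD hp0 hp1
  have key : ∀ Q : Set L, (∀ a, a - (b : L) ∈ Q ↔ a ∈ Q) →
      em (chiK m0 m1) g ∣ flt Q (em (chiK m0 m1) (res (chiK m0 m1) D)) := by
    intro Q hQ
    rw [hF, hg, flt_two_mul (b : L) hQ]
    exact dvd_mul_right _ _
  have hQ : ∀ (p : P) (c : ℤ), phi (b : L) p = 0 → ∀ a : L,
      a - (b : L) ∈ {a | (Odd (m0 a) ∧ Odd (m1 a)) ∧ phi a p = c} ↔
        a ∈ {a | (Odd (m0 a) ∧ Odd (m1 a)) ∧ phi a p = c} := by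
    intro p c hp a
    simp only [Set.mem_ofPred_eq, map_sub, hb0, hb1, sub_zero, Pi.sub_apply, hp]
  rw [hdec]
  refine dvd_add (dvd_add (dvd_add (dvd_add ?_ ?_) ?_) ?_) ?_
  · rw [hF]
    exact dvd_mul_right _ _
  · exact Dvd.dvd.mul_left (key _ (hQ p0 1 hbp0)) _
  · exact Dvd.dvd.mul_left (key _ (hQ p0 0 hbp0)) _
  · exact Dvd.dvd.mul_left (key _ (hQ p1 1 hbp1)) _
  · exact Dvd.dvd.mul_left (key _ (hQ p1 0 hbp1)) _

/-- THE MAIN STEP: the restriction has no factor with two exponents. -/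
theorem Kd.no_small (hF1 : F1S) (hMin : MinS) (hB5a : B5aS) (hVco : VcoS) (hWWf : WWfS)
    (hU : UnitAS) (hI : Inj1S) {phi : L →+ (P → ℤ)} {D : AO O L} (fp : FP phi D)
    {e0 e1 : (RO O)ˣ} {Z0 Z1 Z2 Zm : L} {m0 m1 : L →+ ℤ}
    (h : Kd phi D e0 e1 Z0 Z1 Z2 Zm m0 m1) {T : L} (hT : Ray D T) {e : (RO O)ˣ}
    (hV0 : D.coeff 0 + (e : RO O) * D.coeff T ≠ 0) (hk : ∀ a ∈ US e T D, m0 a = 0 ∧ m1 a = 0)
    (g H : AO O (chiK m0 m1)) (hgH : res (chiK m0 m1) D = g * H) (hH0 : H.coeff 0 ≠ 0)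
    (b : chiK m0 m1) (hb : b ≠ 0) (hs : supp g = {0, b}) : False := by
  classical
  have hD := fp.dd
  have hTB : Bin phi T := hD.bin T hT.1
  obtain ⟨i0, hi0⟩ := exists_port phi hD.inj hT.2.1 hTB
  have hi : co phi i0 T = 1 := hi0
  have hTU : T ∈ US e T D :=
    ⟨1, one_ne_zero, by rw [one_smul]; exact Submodule.subset_span (Set.mem_insert _ _)⟩
  have hTm := hk T hTU
  have hTK : T ∈ chiK m0 m1 := by rw [mem_chiK, hTm.1, hTm.2]; exact ⟨0, rfl⟩
  have hg0 : g.coeff 0 ≠ 0 := by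
    have : (0 : chiK m0 m1) ∈ supp g := by rw [hs]; exact Or.inl rfl
    exact this
  have hgb : g.coeff b ≠ 0 := by
    have : b ∈ supp g := by rw [hs]; exact Or.inr rfl
    exact this
  have hbL : (b : L) ≠ 0 := fun hh => hb (Subtype.ext hh)
  -- (i) the functionals vanish at `b`
  have hVU : ∀ a : Ker (co phi i0), (cl (co phi i0) T hi e D).coeff a ≠ 0 → (a : L) ∈ US e T D := by
    intro a ha
    rw [(hVco O P L phi D T e hD.inj hD.bin hTB hT.2.1).2.2.2.2 i0 hi a] at ha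
    exact ⟨1, one_ne_zero, by
      rw [one_smul]; exact Submodule.subset_span (Set.mem_insert_of_mem _ ha)⟩
  have hKc : ∀ a : Ker (co phi i0), (cl (co phi i0) T hi e D).coeff a ≠ 0 →
      (a : L) ∈ chiK m0 m1 := by
    intro a ha
    have h1 := hk _ (hVU a ha)
    rw [mem_chiK, h1.1, h1.2]
    exact ⟨0, rfl⟩
  have hcl := cl_em_res (co phi i0) T hi e (chiK m0 m1) hTK D hKc
  rw [hgH, map_mul, map_mul] at hcl
  have hVne : cl (co phi i0) T hi e D ≠ 0 := by
    obtain ⟨lam, hl0, hl⟩ := hT.2.2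
    intro h0
    have h1 := (hB5a O L D (co phi i0) T hi e lam hl0 hl).1
    rw [h0] at h1
    exact hV0 h1.symm
  have hmb : ∀ f : L →+ ℤ, (∀ a ∈ US e T D, f a = 0) → f (b : L) = 0 := by
    intro f hf
    have hw := width_zero hMin (f.comp (incl (Ker (co phi i0))))
      (by rw [hcl]; exact hVne) (by
        intro a ha
        rw [hcl] at ha
        exact hf _ (hVU a ha))
    have hg := cl_binom (co phi i0) T hi e (chiK m0 m1) g b hb hs
    have hfp : ∀ x : L, f ((prj (co phi i0) T hi x : Ker (co phi i0)) : L) = f x := by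
      intro x
      rw [prj_coe, map_sub, map_zsmul, hf T hTU, smul_zero, sub_zero]
    by_cases hp : prj (co phi i0) T hi (b : L) = 0
    · have h1 := hfp (b : L)
      rw [hp] at h1
      rw [← h1]
      exact map_zero f
    · have h0 : (0 : Ker (co phi i0)) ∈ supp (cl (co phi i0) T hi e (em (chiK m0 m1) g)) := by
        change (cl (co phi i0) T hi e (em (chiK m0 m1) g)).coeff 0 ≠ 0
        rw [hg, coeff_add, Finsupp.add_apply, coeff_single, coeff_single, Finsupp.single_eq_same,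
          Finsupp.single_apply, if_neg hp, add_zero]
        exact hg0
      have h1 : prj (co phi i0) T hi (b : L) ∈
          supp (cl (co phi i0) T hi e (em (chiK m0 m1) g)) := by
        change (cl (co phi i0) T hi e (em (chiK m0 m1) g)).coeff _ ≠ 0
        rw [hg, coeff_add, Finsupp.add_apply, coeff_single, coeff_single, Finsupp.single_eq_same,
          Finsupp.single_apply, if_neg (Ne.symm hp), zero_add]
        exact mul_ne_zero hgb (Units.ne_zero _)
      have h2 := hw _ h0 _ h1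
      have h3 : f ((prj (co phi i0) T hi (b : L) : Ker (co phi i0)) : L) =
          f ((0 : Ker (co phi i0)) : L) := h2.symm
      rw [hfp] at h3
      rw [h3]
      exact map_zero f
  have hb0 : m0 (b : L) = 0 := hmb m0 fun a ha => (hk a ha).1
  have hb1 : m1 (b : L) = 0 := hmb m1 fun a ha => (hk a ha).2
  -- ports of the factors
  have hbin : ∀ a ∈ supp (g * H), WW (phi.comp (incl (chiK m0 m1))) ∅ Finset.univ a := by
    intro a ha
    rw [← hgH] at ha
    refine ⟨fun j _ => hD.bin (a : L) ha j, Or.inl (fun j hj => absurd hj (Finset.notMem_empty j)),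
      fun j _ hj => absurd (Finset.mem_univ j) hj⟩
  obtain ⟨hGW, hsep⟩ := hWWf O P (chiK m0 m1) (phi.comp (incl (chiK m0 m1))) ∅ Finset.univ g H
    hbin hg0 hH0
  have hbs : b ∈ supp g := by rw [hs]; exact Or.inr rfl
  have hbB : Bin phi (b : L) := fun j => (hGW b hbs).1 j (Finset.mem_univ j)
  have hHp : ∀ j, phi (b : L) j ≠ 0 → ∀ a ∈ supp H, phi (a : L) j = 0 := by
    intro j hj a ha
    rcases hsep j (Finset.mem_univ j) with h1 | h1
    · exact absurd (h1 b hbs) hj
    · exact h1 a ha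
  have hle : ∀ a : L, a ∈ chiK m0 m1 → D.coeff a ≠ 0 → ∀ p, phi (b : L) p = 1 → phi a p = 1 →
      ∀ j, phi (b : L) j = 1 → phi a j = 1 := by
    intro a haK ha p hp1 hp2 j hj
    have h1 : (g * H).coeff ⟨a, haK⟩ ≠ 0 := by
      rw [← hgH]
      exact ha
    rw [binom g b hb hs, two_mul_coeff] at h1
    have h2 : H.coeff ⟨a, haK⟩ = 0 := by
      by_contra hne
      have := hHp p (by rw [hp1]; exact one_ne_zero) _ hne
      change phi a p = 0 at this
      omega
    rw [h2, mul_zero, zero_add] at h1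
    have h3 : H.coeff (⟨a, haK⟩ - b) ≠ 0 := right_ne_zero_of_mul h1
    have h4 := hHp j (by rw [hj]; exact one_ne_zero) _ h3
    have h5 : phi (((⟨a, haK⟩ - b : chiK m0 m1)) : L) j = phi a j - phi (b : L) j := by
      change phi (a - (b : L)) j = _
      rw [map_sub]
      rfl
    omega
  have k01 : Z0 + Z1 ∈ chiK m0 m1 := by
    rw [mem_chiK, map_add, map_add, h.m00, h.m01, h.m10, h.m11]
    exact ⟨0, by norm_num⟩
  -- (ii) `b` is disjoint from `Z0`
  have hd0 : ∀ p, phi (b : L) p = 0 ∨ phi Z0 p = 0 := by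
    by_contra hc
    push Not at hc
    obtain ⟨p, hp1, hp2⟩ := hc
    have hbp : phi (b : L) p = 1 := (hbB p).resolve_left hp1
    have hzp : phi Z0 p = 1 := (hD.bin Z0 h.r0.1 p).resolve_left hp2
    have hle0 : ∀ j, phi Z0 j = 0 → phi (b : L) j = 0 := by
      intro j hj
      by_contra hne
      have hbj : phi (b : L) j = 1 := (hbB j).resolve_left hne
      have q1 := hle (Z0 + Z1) k01 h.s01 p hbp (by
        rw [map_add, Pi.add_apply, hzp, (h.d01 p).resolve_left hp2, add_zero]) j hbj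
      have q2 := hle (Z0 + Zm) h.c0m h.s0m p hbp (by
        rw [map_add, Pi.add_apply, hzp, (h.d0m p).resolve_left hp2, add_zero]) j hbj
      rw [map_add, Pi.add_apply, hj, zero_add] at q1 q2
      rcases h.d1m j with h3 | h3
      · omega
      · omega
    obtain ⟨c, hc⟩ := (hI O P L phi D fp Z0 h.r0).1 (b : L) hle0
    rw [hc, map_zsmul, h.m10, smul_eq_mul] at hb1
    have hc0 : c = 0 := by omega
    rw [hc0, zero_smul] at hc
    exact hbL hc
  have hd1 : ∀ p, phi (b : L) p = 0 ∨ phi Z1 p = 0 := by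
    by_contra hc
    push Not at hc
    obtain ⟨p, hp1, hp2⟩ := hc
    have hbp : phi (b : L) p = 1 := (hbB p).resolve_left hp1
    have hzp : phi Z1 p = 1 := (hD.bin Z1 h.r1.1 p).resolve_left hp2
    have hle0 : ∀ j, phi Z1 j = 0 → phi (b : L) j = 0 := by
      intro j hj
      by_contra hne
      have hbj : phi (b : L) j = 1 := (hbB j).resolve_left hne
      have q1 := hle (Z0 + Z1) k01 h.s01 p hbp (by
        rw [map_add, Pi.add_apply, hzp, (h.d01 p).resolve_right hp2, zero_add]) j hbj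
      have q2 := hle (Z1 + Z2) h.c12 h.s12 p hbp (by
        rw [map_add, Pi.add_apply, hzp, (h.d12 p).resolve_left hp2, add_zero]) j hbj
      rw [map_add, Pi.add_apply, hj, add_zero] at q1
      rw [map_add, Pi.add_apply, hj, zero_add] at q2
      rcases h.d02 j with h3 | h3
      · omega
      · omega
    obtain ⟨c, hc⟩ := (hI O P L phi D fp Z1 h.r1).1 (b : L) hle0
    rw [hc, map_zsmul, h.m01, smul_eq_mul] at hb0
    have hc0 : c = 0 := by omega
    rw [hc0, zero_smul] at hc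
    exact hbL hc
  -- (iii) the factor divides `D`
  obtain ⟨X, hX⟩ := h.dvd hF1 hD g H hgH b hb hs hb0 hb1 hd0 hd1
  have hg : em (chiK m0 m1) g = single 0 (g.coeff 0) + single (b : L) (g.coeff b) := by
    conv_lhs => rw [binom g b hb hs]
    rw [map_add, em_single, em_single]
    rfl
  rcases hD.irr.isUnit_or_isUnit hX with h3 | h3
  · obtain ⟨a, c, -, h4⟩ := (hU O L _).1 h3
    have h5 : (em (chiK m0 m1) g).coeff 0 ≠ 0 := by
      rw [hg, coeff_add, Finsupp.add_apply, coeff_single, coeff_single, Finsupp.single_eq_same,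
        Finsupp.single_apply, if_neg hbL, add_zero]
      exact hg0
    have h6 : (em (chiK m0 m1) g).coeff (b : L) ≠ 0 := by
      rw [hg, coeff_add, Finsupp.add_apply, coeff_single, coeff_single, Finsupp.single_eq_same,
        Finsupp.single_apply, if_neg (Ne.symm hbL), zero_add]
      exact hgb
    rw [h4, coeff_single, Finsupp.single_apply] at h5 h6
    by_cases ha : a = 0
    · rw [if_neg (by rw [ha]; exact Ne.symm hbL)] at h6
      exact h6 rfl
    · rw [if_neg ha] at h5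
      exact h5 rfl
  · obtain ⟨a, c, -, h4⟩ := (hU O L _).1 h3
    have h5 : ∀ x, D.coeff x ≠ 0 → x = a ∨ x = a + (b : L) := by
      intro x hx
      rw [hX, hg, h4, two_mul_coeff, coeff_single, Finsupp.single_apply, Finsupp.single_apply] at hx
      by_cases h6 : a = x
      · exact Or.inl h6.symm
      · rw [if_neg h6, mul_zero, zero_add] at hx
        by_cases h7 : a = x - (b : L)
        · right
          rw [h7, sub_add_cancel]
        · rw [if_neg h7, mul_zero] at hx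
          exact absurd rfl hx
    have e1 := h5 0 hD.st.1
    have e2 := h5 Z0 h.r0.1
    have e3 := h5 Z1 h.r1.1
    have n1 := h.r0.2.1
    have n2 := h.r1.2.1
    have n3 := h.ne
    rcases e1 with e1 | e1 <;> rcases e2 with e2 | e2 <;> rcases e3 with e3 | e3
    · exact n1 (e2.trans e1.symm)
    · exact n1 (e2.trans e1.symm)
    · exact n2 (e3.trans e1.symm)
    · exact n3 (e2.trans e3.symm)
    · exact n3 (e2.trans e3.symm)
    · exact n2 (e3.trans e1.symm)
    · exact n1 (e2.trans e1.symm)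
    · exact n1 (e2.trans e1.symm)

/-- Irreducibility of the restriction. -/
theorem Kd.irr (hRes : ResKS) (hFact : FactS) (hC0 : Coeff0S) (hE1 : E1S) (hMV : MVS)
    (hM1 : M1S) (hC4 : C4S) (hE2 : E2S) (hThin : ThinS) (hF1 : F1S) (hMin : MinS) (hB5a : B5aS)
    (hVco : VcoS) (hWWf : WWfS) (hU : UnitAS) (hI : Inj1S) {phi : L →+ (P → ℤ)} {D : AO O L}
    (fp : FP phi D) (h2 : 2 ≤ Module.finrank ℤ L) {θ : ℝ} (hP : ClassP θ (D.coeff 0))
    {e0 e1 : (RO O)ˣ} {Z0 Z1 Z2 Zm : L} {m0 m1 : L →+ ℤ}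
    (h : Kd phi D e0 e1 Z0 Z1 Z2 Zm m0 m1) {T : L} (hT : Ray D T) {e : (RO O)ˣ}
    (hV0 : D.coeff 0 + (e : RO O) * D.coeff T ≠ 0) (hk : ∀ a ∈ US e T D, m0 a = 0 ∧ m1 a = 0)
    (hspn : rk (supp (res (chiK m0 m1) D)) = Module.finrank ℤ (chiK m0 m1)) :
    DD (phi.comp (incl (chiK m0 m1))) (res (chiK m0 m1) D) := by
  classical
  have hD := fp.dd
  set K := chiK m0 m1 with hK
  have hLU : LamS e T D ≤ US e T D := fun a ha => ⟨1, one_ne_zero, by rw [one_smul]; exact ha⟩
  have hLK : LamS e T D ≤ K := by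
    intro a ha
    have h1 := hk a (hLU ha)
    rw [hK, mem_chiK, h1.1, h1.2]
    exact ⟨0, rfl⟩
  have hTK : T ∈ K := hLK (Submodule.subset_span (Set.mem_insert _ _))
  have hidx : ∀ a : L, ∃ n : ℤ, n ≠ 0 ∧ n • a ∈ K := by
    intro a
    refine ⟨2, two_ne_zero, ?_⟩
    rw [hK, mem_chiK, map_zsmul, map_zsmul, smul_eq_mul, smul_eq_mul, ← mul_add]
    exact even_two_mul _
  obtain ⟨hst, hun⟩ := hRes O P L phi D T e K hD h2 hT hV0 hLK hidx
  have hinj : Function.Injective (phi.comp (incl K)) := by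
    intro a b hab
    exact Subtype.ext (hD.inj hab)
  have hbin : ∀ a ∈ supp (res K D), Bin (phi.comp (incl K)) a := fun a ha => hD.bin (a : L) ha
  refine ⟨hinj, hbin, hst, hun, ?_, hspn⟩
  -- irreducibility
  obtain ⟨c, n, G, hc0, heq, hG⟩ := hFact O K (res K D) hst hun
  obtain ⟨hW0, lam, hpos, -⟩ := id hst
  have hfull : ∀ i, FullAt lam (G i) := fun i => ((hG i).2.2.2.2 lam).2 hpos
  have hGpos : ∀ i, Pos lam (G i) := fun i => (hfull i).2.1
  have hG0 : ∀ i, (G i).coeff 0 ≠ 0 := fun i => (hfull i).1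
  have key : ∀ s : Finset (Fin n),
      (cst c * ∏ i ∈ s, G i).coeff 0 = c * ∏ i ∈ s, (G i).coeff 0 := by
    intro s
    obtain ⟨e1, p1⟩ := H29.prod_coeff_zero hC0 G lam hGpos s
    rw [(hC0 O _ (cst c) (∏ i ∈ s, G i) lam (H29.pos_cst lam c) p1).1, H29.cst_coeff_zero, e1]
  have hD0 : D.coeff 0 = c * ∏ i, (G i).coeff 0 := by
    rw [← key, ← heq]
    rfl
  have hsplit : ∀ i, res K D = G i * (cst c * ∏ j ∈ Finset.univ.erase i, G j) := by
    intro i
    rw [heq, ← Finset.mul_prod_erase Finset.univ G (Finset.mem_univ i)]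
    ring
  have hnot : ∀ i, M ((G i).coeff 0) ≠ 1 := by
    intro i hM
    have hH0 : (cst c * ∏ j ∈ Finset.univ.erase i, G j).coeff 0 ≠ 0 := by
      rw [key]
      exact mul_ne_zero hc0 (Finset.prod_ne_zero_iff.mpr fun j _ => hG0 j)
    have hWW : ∀ a ∈ supp (G i * (cst c * ∏ j ∈ Finset.univ.erase i, G j)),
        WW (phi.comp (incl K)) ∅ Finset.univ a := by
      intro a ha
      rw [← hsplit i] at ha
      refine ⟨fun j _ => hbin a ha j, Or.inl (fun j hj => absurd hj (Finset.notMem_empty j)),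
        fun j _ hj => absurd (Finset.mem_univ j) hj⟩
    have hGW := (hWWf O P K (phi.comp (incl K)) ∅ Finset.univ (G i) _ hWW (hG0 i) hH0).1
    have hth := hThin P K (phi.comp (incl K)) ∅ Finset.univ (supp (G i)) hinj hGW
    obtain ⟨hu0, b, hb0, hub, hsb⟩ :=
      hC4 O K (G i) (hG i).1 (hG i).2.2.1 (hG i).2.1 hth hM
    exact h.no_small hF1 hMin hB5a hVco hWWf hU hI fp hT hV0 hk (G i) _ (hsplit i) hH0 b hb0 hsb
  rw [hD0] at hP
  rcases count hE1 hMV c (fun i => (G i).coeff 0) hP hnot with hn | ⟨hn, hMc⟩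
  · exfalso
    subst hn
    have h3 : (res K D).coeff ⟨T, hTK⟩ ≠ 0 := hT.1
    apply h3
    rw [heq, Finset.univ_eq_empty, Finset.prod_empty, mul_one, cst, coeff_single,
      Finsupp.single_apply, if_neg]
    intro h4
    exact hT.2.1 (congrArg (fun x : K => (x : L)) h4).symm
  · subst hn
    have hcu : IsUnit c := by
      refine hM1 O c hc0 hMc (fun z hz => ?_)
      apply (hE2 O P L phi D hD h2).1 z
      rw [hD0, map_mul, hz, zero_mul]
    have hcu2 : IsUnit (cst c : AO O K) :=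
      hcu.map (AddMonoidAlgebra.singleZeroRingHom : RO O →+* AO O K)
    rw [heq, Fin.prod_univ_one]
    obtain ⟨w, hw⟩ := hcu2
    rw [← hw]
    exact (irreducible_units_mul w).2 (hG 0).1

/-- (KIL) the exponents `a` with `m0 a + m1 a` even are not of full rank. -/
theorem Kd.kil (hRes : ResKS) (hFact : FactS) (hC0 : Coeff0S) (hE1 : E1S) (hMV : MVS)
    (hM1 : M1S) (hC4 : C4S) (hE2 : E2S) (hThin : ThinS) (hF1 : F1S) (hMin : MinS) (hB5a : B5aS)
    (hVco : VcoS) (hWWf : WWfS) (hU : UnitAS) (hI : Inj1S) {phi : L →+ (P → ℤ)} {D : AO O L}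
    {θ : ℝ} (hM : MinD θ phi D) (h2 : 2 ≤ Module.finrank ℤ L) {e0 e1 : (RO O)ˣ}
    {Z0 Z1 Z2 Zm : L} {m0 m1 : L →+ ℤ} (h : Kd phi D e0 e1 Z0 Z1 Z2 Zm m0 m1) {T : L}
    (hT : Ray D T) {e : (RO O)ˣ} (hV0 : D.coeff 0 + (e : RO O) * D.coeff T ≠ 0)
    (hk : ∀ a ∈ US e T D, m0 a = 0 ∧ m1 a = 0) :
    ∃ nu : L →+ ℤ, nu ≠ 0 ∧ ∀ a ∈ supp D, Even (m0 a + m1 a) → nu a = 0 := by
  classical
  set W : Submodule ℤ L := satur (Submodule.span ℤ {a | a ∈ supp D ∧ a ∈ chiK m0 m1}) with hW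
  by_cases htop : W = ⊤
  · exfalso
    set K := chiK m0 m1 with hK
    -- the rank of the support of the restriction
    have hsat : satur (Submodule.span ℤ (supp (res K D))) = ⊤ := by
      rw [eq_top_iff]
      intro x _
      have hx : (x : L) ∈ W := by rw [htop]; trivial
      obtain ⟨n, hn, hnx⟩ := hx
      refine ⟨n, hn, ?_⟩
      have h3 : Submodule.span ℤ {a | a ∈ supp D ∧ a ∈ K} ≤
          (Submodule.span ℤ (supp (res K D))).map K.subtype := by
        rw [Submodule.span_le]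
        rintro a ⟨ha, haK⟩
        exact ⟨⟨a, haK⟩, Submodule.subset_span ha, rfl⟩
      obtain ⟨y, hy, hxy⟩ := h3 hnx
      have : y = n • x := Subtype.ext hxy
      rw [← this]
      exact hy
    have hspn : rk (supp (res K D)) = Module.finrank ℤ K := by
      unfold rk
      rw [← H07.finrank_satur, hsat]
      exact finrank_top ℤ K
    have hfin : Module.finrank ℤ K = Module.finrank ℤ L := by
      rw [← H07.finrank_satur, show satur K = ⊤ from ?_]
      · exact finrank_top ℤ L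
      · rw [eq_top_iff]
        intro a _
        refine ⟨2, two_ne_zero, ?_⟩
        rw [hK, mem_chiK, map_zsmul, map_zsmul, smul_eq_mul, smul_eq_mul, ← mul_add]
        exact even_two_mul _
    have hDD := h.irr hRes hFact hC0 hE1 hMV hM1 hC4 hE2 hThin hF1 hMin hB5a hVco hWWf hU hI hM.fp
      h2 hM.cls hT hV0 hk hspn
    have h4 := hM.min P K (phi.comp (incl K)) (res K D) hDD hfin hM.cls
    have h5 : (supp (res K D)).ncard < (supp D).ncard := by
      rw [← Set.ncard_image_of_injective (supp (res K D)) (Subtype.coe_injective : Function.Injective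
        (fun x : K => (x : L)))]
      apply Set.ncard_lt_ncard
      · refine ⟨?_, ?_⟩
        · rintro _ ⟨x, hx, rfl⟩
          exact hx
        · intro hsub
          obtain ⟨x, -, hx⟩ := hsub h.r0.1
          have h6 := x.2
          change (x : L) = Z0 at hx
          rw [hx, hK, mem_chiK, h.m00, h.m10] at h6
          exact absurd h6 (by decide)
      · exact (D.coeff.support.finite_toSet).subset (by
          intro a ha
          exact Finsupp.mem_support_iff.mpr ha)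
    omega
  · obtain ⟨d, hd⟩ : ∃ d, d ∉ W := by
      by_contra hne
      push Not at hne
      exact htop (eq_top_iff.mpr fun x _ => hne x)
    obtain ⟨nu, h3, h4⟩ := H56.exists_sep L W (H63.satur_sat _) d hd
    refine ⟨nu, ?_, fun a ha hev => h3 a ⟨1, one_ne_zero, ?_⟩⟩
    · rintro rfl
      exact h4 rfl
    · rw [one_smul]
      exact Submodule.subset_span ⟨ha, hev⟩

/-! ## Cycles -/

section

variable {phi : L →+ (P → ℤ)} {D : AO O L} {eta : L → (RO O)ˣ} {k : ℕ} {Z : ZMod (k + 3) → L}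
  {mu : ZMod (k + 3) → L →+ ℤ}

theorem one_ne (k : ℕ) : (1 : ZMod (k + 3)) ≠ 0 := by
  intro h
  have h1 : ((1 : ℕ) : ZMod (k + 3)) = 0 := by exact_mod_cast h
  rw [ZMod.natCast_eq_zero_iff] at h1
  exact absurd (Nat.le_of_dvd one_pos h1) (by omega)

theorem two_ne (k : ℕ) : (2 : ZMod (k + 3)) ≠ 0 := by
  intro h
  have h1 : ((2 : ℕ) : ZMod (k + 3)) = 0 := by exact_mod_cast h
  rw [ZMod.natCast_eq_zero_iff] at h1
  exact absurd (Nat.le_of_dvd two_pos h1) (by omega)

theorem three_ne {k : ℕ} (hk : 1 ≤ k) : (3 : ZMod (k + 3)) ≠ 0 := by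
  intro h
  have h1 : ((3 : ℕ) : ZMod (k + 3)) = 0 := by exact_mod_cast h
  rw [ZMod.natCast_eq_zero_iff] at h1
  exact absurd (Nat.le_of_dvd three_pos h1) (by omega)

theorem idx (k : ℕ) (i : ZMod (k + 3)) : i ≠ i + 1 ∧ i ≠ i - 1 ∧ i + 1 ≠ i - 1 ∧ i ≠ i + 2 ∧
    i + 1 ≠ i + 2 := by
  refine ⟨?_, ?_, ?_, ?_, ?_⟩ <;> intro h
  · exact one_ne k (by linear_combination -h)
  · exact one_ne k (by linear_combination h)
  · exact two_ne k (by linear_combination h)
  · exact two_ne k (by linear_combination -h)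
  · exact one_ne k (by linear_combination -h)

theorem idx3 {k : ℕ} (hk : 1 ≤ k) (i : ZMod (k + 3)) : i - 1 ≠ i + 2 :=
  fun h => three_ne hk (by linear_combination -h)

theorem cyc_ray (h : Cyc phi D eta k Z mu) (i : ZMod (k + 3)) : Ray D (Z i) := (h.mtl i).r0

theorem cyc_mu (h : Cyc phi D eta k Z mu) {i j : ZMod (k + 3)} (h1 : j ≠ i + 1) (h2 : j ≠ i - 1) :
    mu i (Z j) = 0 :=
  h.oth i (Z j) (cyc_ray h j) (fun e => h1 (h.inj e)) (fun e => h2 (h.inj e))

theorem cyc_s (hMco : McoS) (hD : DD phi D) (h : Cyc phi D eta k Z mu) (i : ZMod (k + 3)) :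
    D.coeff (Z i + Z (i + 1)) ≠ 0 := by
  intro h0
  have h1 := (hMco O P L phi D (Z i) (Z (i + 1)) _ _ hD.inj hD.bin (h.mtl i)).2.2.1
  rw [h0, mul_zero] at h1
  exact (mul_ne_zero (Units.ne_zero (eta (Z i))) (cyc_ray h i).1) (neg_eq_zero.mp h1.symm)

/-- The data at `i`. -/
theorem Kd.of_cyc (hMco : McoS) (hD : DD phi D) (hk : 1 ≤ k) (h : Cyc phi D eta k Z mu)
    (i : ZMod (k + 3)) : Kd phi D (eta (Z i)) (eta (Z (i + 1))) (Z i) (Z (i + 1)) (Z (i + 2))
      (Z (i - 1)) (mu i) (mu (i + 1)) := by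
  obtain ⟨n1, n2, n3, n4, n5⟩ := idx k i
  have n6 := idx3 hk i
  have e1 : i + 1 - 1 = i := by ring
  have e2 : i + 1 + 1 = i + 2 := by ring
  have e3 : i - 1 + 1 = i := by ring
  have q1 : mu i (Z (i + 2)) = 0 := cyc_mu h (Ne.symm n5) (Ne.symm n6)
  have q2 : mu (i + 1) (Z (i - 1)) = 0 := cyc_mu h (by rw [e2]; exact n6) (by
    rw [e1]; exact Ne.symm n2)
  have q3 : mu i (Z i) = 0 := cyc_mu h n1 n2
  have q4 : mu (i + 1) (Z (i + 1)) = 0 := cyc_mu h (by rw [e2]; exact n5) (by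
    rw [e1]; exact Ne.symm n1)
  have q5 : mu i (Z (i + 1)) = 1 := h.nxt i
  have q6 : mu i (Z (i - 1)) = -1 := h.prv i
  have q7 : mu (i + 1) (Z (i + 2)) = 1 := by rw [← e2]; exact h.nxt (i + 1)
  have q8 : mu (i + 1) (Z i) = -1 := by
    have := h.prv (i + 1)
    rwa [e1] at this
  exact
    { r0 := cyc_ray h i
      r1 := cyc_ray h (i + 1)
      u0 := h.ker i
      u1 := h.ker (i + 1)
      m00 := q3
      m01 := q5
      m10 := q8
      m11 := q4
      ne := fun e => n1 (h.inj e)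
      d01 := h.dis i (i + 1) n1
      d1m := h.dis (i + 1) (i - 1) n3
      d0m := h.dis i (i - 1) n2
      d02 := h.dis i (i + 2) n4
      d12 := h.dis (i + 1) (i + 2) n5
      s01 := cyc_s hMco hD h i
      s0m := by
        have := cyc_s hMco hD h (i - 1)
        rwa [e3, add_comm] at this
      s12 := by
        have := cyc_s hMco hD h (i + 1)
        rwa [e2] at this
      c0m := by
        rw [map_add, map_add, q3, q6, q8, q2]
        exact ⟨-1, by norm_num⟩
      c12 := by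
        rw [map_add, map_add, q5, q1, q4, q7]
        exact ⟨1, by norm_num⟩ }

/-- A killer of `Z i` kills the functionals of `i` and of `i + 1`. -/
theorem cyc_killer (hF3 : F3S) (hD : DD phi D) (h : Cyc phi D eta k Z mu) {T : L} (hT : Ray D T)
    (hTZ : ∀ j, T ≠ Z j) {e : (RO O)ˣ} {i : ZMod (k + 3)} (hi : Z i ∉ US e T D) :
    ∀ a ∈ US e T D, mu i a = 0 ∧ mu (i + 1) a = 0 := by
  have hle : ∀ j, Z j ∉ US e T D → ∀ a ∈ US e T D, mu j a = 0 := by
    intro j hj a ha
    have hA := hF3 O P L phi D T (Z j) e (eta (Z j)) hD.inj hD.bin hT (cyc_ray h j) hj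
    have hTj : T ∈ US (eta (Z j)) (Z j) D := by
      rw [h.ker]
      exact h.oth j T hT (hTZ _) (hTZ _)
    rw [← h.ker]
    have h6 : US e T D ≤ US (eta (Z j)) (Z j) D := by
      refine hA.trans (H63.satur_le ?_)
      rw [sup_le_iff]
      refine ⟨le_rfl, ?_⟩
      rw [Submodule.span_singleton_le_iff_mem]
      exact hTj
    exact h6 ha
  have hi1 : Z (i + 1) ∉ US e T D := by
    intro hin
    have h1 := hle i hi _ hin
    rw [h.nxt] at h1
    omega
  exact fun a ha => ⟨hle i hi a ha, hle (i + 1) hi1 a ha⟩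

/-- (KIL) A RAY WHICH KILLS A CYCLE OF LENGTH AT LEAST FOUR. -/
theorem cyc_kil (hRes : ResKS) (hFact : FactS) (hC0 : Coeff0S) (hE1 : E1S) (hMV : MVS)
    (hM1 : M1S) (hC4 : C4S) (hE2 : E2S) (hThin : ThinS) (hF1 : F1S) (hF3 : F3S) (hMin : MinS)
    (hB5a : B5aS) (hVco : VcoS) (hWWf : WWfS) (hU : UnitAS) (hI : Inj1S) (hMco : McoS) {θ : ℝ}
    (hM : MinD θ phi D) (h2 : 2 ≤ Module.finrank ℤ L) (hk : 1 ≤ k) (h : Cyc phi D eta k Z mu)
    {T : L} (hT : Ray D T) (hTZ : ∀ j, T ≠ Z j) {e : (RO O)ˣ}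
    (hV0 : D.coeff 0 + (e : RO O) * D.coeff T ≠ 0) {i : ZMod (k + 3)} (hi : Z i ∉ US e T D) :
    D.coeff (Z i + Z (i + 2)) = 0 ∧ D.coeff (Z (i - 1) + Z (i + 1)) = 0 ∧
    ∃ nu : L →+ ℤ, nu (Z i) ≠ 0 ∧ nu (Z (i + 1)) = -nu (Z i) ∧ nu (Z (i - 1)) = -nu (Z i) ∧
      nu (Z (i + 2)) = nu (Z i) ∧
      (∀ R, Ray D R → R ≠ Z (i - 1) → R ≠ Z i → R ≠ Z (i + 1) → R ≠ Z (i + 2) → nu R = 0) ∧
      ∀ a ∈ supp D, Even (mu i a + mu (i + 1) a) → nu a = 0 := by
  have hD := hM.fp.dd
  have hkd := Kd.of_cyc hMco hD hk h i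
  obtain ⟨nu, hnu, hn⟩ := hkd.kil hRes hFact hC0 hE1 hMV hM1 hC4 hE2 hThin hF1 hMin hB5a hVco hWWf
    hU hI hM h2 hT hV0 (cyc_killer hF3 hD h hT hTZ hi)
  obtain ⟨n1, n2, n3, n4, n5⟩ := idx k i
  have n6 := idx3 hk i
  have e1 : i + 1 - 1 = i := by ring
  have e2 : i + 1 + 1 = i + 2 := by ring
  have hR : ∀ R, Ray D R → R ≠ Z (i - 1) → R ≠ Z i → R ≠ Z (i + 1) → R ≠ Z (i + 2) →
      nu R = 0 := by
    intro R hR r1 r2 r3 r4
    refine hn R hR.1 ?_
    rw [h.oth i R hR r3 r1, h.oth (i + 1) R hR (by rw [e2]; exact r4) (by rw [e1]; exact r2)]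
    exact ⟨0, rfl⟩
  have a1 : nu (Z (i + 1)) = -nu (Z i) := by
    have h3 := hn _ hkd.s01 (by
      rw [map_add, map_add, hkd.m00, hkd.m01, hkd.m10, hkd.m11]
      exact ⟨0, by norm_num⟩)
    rw [map_add] at h3
    omega
  have a2 : nu (Z (i - 1)) = -nu (Z i) := by
    have h3 := hn _ hkd.s0m hkd.c0m
    rw [map_add] at h3
    omega
  have a3 : nu (Z (i + 2)) = nu (Z i) := by
    have h3 := hn _ hkd.s12 hkd.c12
    rw [map_add] at h3
    omega
  have a0 : nu (Z i) ≠ 0 := by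
    intro h0
    apply hnu
    obtain ⟨-, -, -, -, hrk, -⟩ := hE2 O P L phi D hD h2
    have h3 : {b | Ray D b} ⊆ (Ker nu : Submodule ℤ L) := by
      intro R hRR
      change nu R = 0
      by_cases r1 : R = Z (i - 1)
      · rw [r1, a2, h0, neg_zero]
      by_cases r2 : R = Z i
      · rw [r2, h0]
      by_cases r3 : R = Z (i + 1)
      · rw [r3, a1, h0, neg_zero]
      by_cases r4 : R = Z (i + 2)
      · rw [r4, a3, h0]
      exact hR R hRR r1 r2 r3 r4
    have h4 : satur (Submodule.span ℤ {b | Ray D b}) ≤ Ker nu := by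
      rintro a ⟨n, hn0, ha⟩
      have h5 : n • a ∈ Ker nu := (Submodule.span_le.mpr h3) ha
      rw [mem_Ker, map_zsmul, smul_eq_mul] at h5
      exact (mul_eq_zero.mp h5).resolve_left hn0
    by_contra hne
    obtain ⟨x, hx⟩ : ∃ x, nu x ≠ 0 := by
      by_contra hc
      push Not at hc
      exact hne (AddMonoidHom.ext hc)
    have h5 := H63.finrank_lt_of_sat (le_top : satur (Submodule.span ℤ {b | Ray D b}) ≤ ⊤)
      (H63.satur_sat _) (Submodule.mem_top : x ∈ (⊤ : Submodule ℤ L)) (fun hx' => hx (h4 hx'))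
    rw [H07.finrank_satur, finrank_top] at h5
    unfold rk at hrk
    omega
  refine ⟨?_, ?_, nu, a0, a1, a2, a3, hR, hn⟩
  · by_contra hc
    have h3 := hn _ hc (by
      rw [map_add, map_add, hkd.m00, cyc_mu h (Ne.symm n5) (Ne.symm n6), hkd.m10,
        show mu (i + 1) (Z (i + 2)) = 1 by rw [← e2]; exact h.nxt (i + 1)]
      exact ⟨0, by norm_num⟩)
    rw [map_add, a3] at h3
    omega
  · by_contra hc
    have h3 := hn _ hc (by
      rw [map_add, map_add, hkd.m01, h.prv i, hkd.m11,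
        cyc_mu h (i := i + 1) (j := i - 1) (by rw [e2]; exact n6) (by rw [e1]; exact Ne.symm n2)]
      exact ⟨0, by norm_num⟩)
    rw [map_add, a1, a2] at h3
    omega

end

end

end Pool.Agent.B5.KO.H40
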