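import Pool.Agent.Lib.MP_b5021c_nt.KO.H40.Alm
import Pool.Agent.Lib.MP_b5021c_nt.KO.H29.Dbl

/-!
# MP_b5021c_nt, all `θ`, K odd, (O4), ALPHA: `alG`, `alU` and helper29's `gR`
-/

set_option linter.unusedSectionVars false

namespace Pool.Agent.B5.KO.H40

open scoped LaurentPolynomial
open Polynomial
open Pool.Agent.B5.KE
open Pool.Agent.B5.Nr.Sch
open Pool.Agent.B5.Nr (TrezS)
open Pool.Agent.B5.H61 (CuspS)
open Pool.Agent.B5.KV67 (TT1 tA_val)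
open Pool.Agent.B5.O4X
open Pool.Agent.B5.KO.H96 (Alp)
open Pool.Agent.B5.KO29 (gR)

section

variable {P L : Type} [Fintype P] [DecidableEq P] [AddCommGroup L] [Module.Free ℤ L]
  [Module.Finite ℤ L] {phi : L →+ (P → ℤ)} {D : AO ℤ L} {eta : L → (RO ℤ)ˣ}
  {q f f' : ℤ[X]} {a : ℝ} {j k k' : ℕ} {Z : ZMod (k + 3) → L}
  {mu : ZMod (k + 3) → L →+ ℤ} {Z' : ZMod (k' + 3) → L} {mu' : ZMod (k' + 3) → L →+ ℤ}

theorem alG_gR (f' : ℤ[X]) (S R : L) :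
    alG f' (alH D eta S R) = LaurentPolynomial.T 1 * gR D eta f' S R := by
  have e1 : (LaurentPolynomial.T (-1) : RO ℤ) = LaurentPolynomial.T 1 * LaurentPolynomial.T (-2) := by
    rw [← LaurentPolynomial.T_add]
    norm_num
  unfold alG alH gR
  rw [map_mul, toLaurent_X, e1]
  ring

/-- The coefficient of `Z' l` in `V''`, in the form with `gR`. -/
theorem alU_gR (f' : ℤ[X]) (S R : L) : alU f' (alH D eta S R) =
    LaurentPolynomial.T 1 * (toLaurent (X * (1 + X) * f') +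
      toLaurent (1 - X - X ^ 2) * gR D eta f' S R) := by
  have e1 : (LaurentPolynomial.T (-2) : RO ℤ) * LaurentPolynomial.T 2 = 1 := by
    rw [← LaurentPolynomial.T_add]
    norm_num
  have e2 : (LaurentPolynomial.T 2 : RO ℤ) = LaurentPolynomial.T 1 * LaurentPolynomial.T 1 := by
    rw [← LaurentPolynomial.T_add]
    norm_num
  rw [alU, alG_gR]
  unfold gR alH
  simp only [map_add, map_sub, map_mul, map_one, map_pow, toLaurent_X]
  rw [e2] at e1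
  linear_combination (-(1 + LaurentPolynomial.T 1 : RO ℤ) *
    ((eta S : RO ℤ) * ((eta R : RO ℤ) * D.coeff (S + R)))) * e1

/-- (R7) `gR` of order one: order of `V''` at `Z' l`, and the other cycle. -/
theorem alp_m1g (hM1 : M1S) (hMm : MmulS) (hMV : MVS) (hE1 : E1S) (hE2 : E2S) (hPc : PCZS)
    (hClp : ClpS) (hC0 : Coeff0S) (hG0 : G0S) (hI1 : Inj1S) (hRk : RkS) (hFD : FDS)
    (hWW : WWfS) (hRF : RayFacS) (hMug : MugS) (hMco : McoS) (hCu : CuspS) (hSf : SfzS)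
    (hTr : TrezS) (hTsa : TsaS) (hI3 : Io3S) (hMfc : MfcS) (hCa : Ca5S) (hGlc : GlcS)
    (hFou : FouS) (hDti : DtiS) (hNbr : NbrS) (hF1 : F1S) (hF2 : F2S) (hKm : KmuS)
    (hFsp : FspS) (hVco : VcoS) (hRy : RaySpanS) (hVf : KvfS) (hVv : KvvS) (hT : TsgS)
    (hNd : Nd3vS) (hNr : Nr3S) (hB : BpS) (A : Alp phi D q f f' a j eta k k' Z mu Z' mu')
    (hdis : ∀ i l p, phi (Z i) p = 0 ∨ phi (Z' l) p = 0) {i : ZMod (k + 3)}
    {l : ZMod (k' + 3)} {p : ℤ[X]}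
    (hg : gR D eta f' (Z i) (Z' l) = LaurentPolynomial.T 1 * toLaurent p) :
    (∃ (m : ℕ) (g : ℤ[X]), (∀ {t0 t1 : (RO ℤ)ˣ}, Lds t0 t1 → ∀ (i' : ZMod (k + 3))
        (l' : ZMod (k' + 3)) (Y : Dp phi (Z i') (Z (i' + 1))) (x : Ker Y.k1),
        ((x : Ker (co phi Y.i0)) : L) = Z' l' →
        (eta (Z' l') : RO ℤ) * (dc Y (eta (Z i') * t0) (eta (Z (i' + 1)) * t1) D).coeff x =
          LaurentPolynomial.T (m + 2) * toLaurent g) ∧
      (∀ {t0 t1 : (RO ℤ)ˣ}, Lds t0 t1 → ∀ (i' : ZMod (k + 3))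
        (l' : ZMod (k' + 3)) (Y : Dp phi (Z (i' + 1)) (Z i')) (x : Ker Y.k1),
        ((x : Ker (co phi Y.i0)) : L) = Z' l' →
        (eta (Z' l') : RO ℤ) * (dc Y (eta (Z (i' + 1)) * t0) (eta (Z i') * t1) D).coeff x =
          LaurentPolynomial.T (m + 2) * toLaurent g) ∧ g.coeff 0 ≠ 0) ∧
    ∃ p' : ℤ[X], gR D eta f (Z' l) (Z i) = LaurentPolynomial.T 1 * toLaurent p' ∧
      p'.coeff 0 = p.coeff 0 := by
  have e2 : (LaurentPolynomial.T 2 : RO ℤ) = LaurentPolynomial.T 1 * LaurentPolynomial.T 1 := by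
    rw [← LaurentPolynomial.T_add]
    norm_num
  obtain ⟨⟨m, g, h1, h2⟩, p', h3, h4⟩ := alp_m1 hM1 hMm hMV hE1 hE2 hPc hClp hC0 hG0 hI1 hRk hFD
    hWW hRF hMug hMco hCu hSf hTr hTsa hI3 hMfc hCa hGlc hFou hDti hNbr hF1 hF2 hKm hFsp hVco hRy
    hVf hVv hT hNd hNr hB A hdis (i := i) (l := l) (p := p) (by
      rw [alG_gR, hg, e2, mul_assoc])
  refine ⟨⟨m, g, ?_, ?_, h2⟩, p', ?_, h4⟩
  · intro t0 t1 ht i' l' Y x hx
    rw [alp_dc hF1 A hdis i' i l' l ht Y hx, h1]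
  · intro t0 t1 ht i' l' Y x hx
    rw [alp_dc' hF1 A hdis i' i l' l ht Y hx, h1]
  · rw [alG_gR, e2, mul_assoc] at h3
    exact mul_left_cancel₀ (LaurentPolynomial.isUnit_T 1).ne_zero h3

end

end Pool.Agent.B5.KO.H40
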