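import Pool.Agent.Lib.MP_b5021c_nt.IfaceBP
import Pool.Agent.Lib.MP_b5021c_nt.KO.H07.Ubr

/-!
# MP_b5021c_nt, all `θ`, K odd: the row PX, one variable (finding 3630, (I))

`c g = (1 + z)² rho`, `z c g' = (1 + z) (rho - f)`, `E - (1 + z) rho = c p`, both `(p, g)`, `(p, g')`
of the form of BpS: contradiction to `q (1 / (j + 1)) > 0`.
-/

namespace Pool.Agent.B5.KO.H40

open Polynomial

theorem root_of {g : ℤ[X]} (h : (1 + X) ^ 2 ∣ g) :
    g.eval (-1) = 0 ∧ (derivative g).eval (-1) = 0 := by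
  obtain ⟨u, rfl⟩ := h
  constructor
  · simp
  · rw [derivative_mul, derivative_pow]
    simp

theorem sq_dvd {c g rho : ℤ[X]} (h1 : c * g = (1 + X) ^ 2 * rho) (hc : c.eval (-1) ≠ 0) :
    (1 + X) ^ 2 ∣ g := by
  have hp : Prime (1 + X : ℤ[X]) := by
    have : (1 + X : ℤ[X]) = X - C (-1) := by rw [map_neg, map_one]; ring
    rw [this]
    exact prime_X_sub_C (-1)
  refine hp.pow_dvd_of_dvd_mul_left 2 ?_ ⟨rho, h1⟩
  rintro ⟨u, hu⟩
  apply hc
  rw [hu]
  simp

theorem px_poly {f rho c g g' p : ℤ[X]} {j : ℕ} (h1 : c * g = (1 + X) ^ 2 * rho)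
    (h2 : X * (c * g') = (1 + X) * (rho - f)) (hc : c.eval (-1) ≠ 0)
    (hp : Bpf j p g) (hp' : Bpf j p g') :
    ∃ (s : ℕ) (F : ℤ[X]), s + 3 ≤ j ∧ p = C (j : ℤ) + C ((s : ℤ) + 1) * F ∧ g = 1 + F ∧
      F.coeff 0 = 0 ∧ (∀ k, |F.coeff k| ≤ 1) ∧ f = rho * (1 - X - X ^ 2) := by
  obtain ⟨r1, r2⟩ := root_of (sq_dvd h1 hc)
  have r3 : g'.eval (-1) = 0 := by
    have h3 := congrArg (Polynomial.eval (-1)) h2
    simp only [eval_mul, eval_X, eval_add, eval_one, add_neg_cancel, zero_mul] at h3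
    have h4 := (mul_eq_zero.mp h3).resolve_left (by norm_num)
    exact (mul_eq_zero.mp h4).resolve_left hc
  rcases hp with ⟨k, t, r, hk, -, hg⟩ | ⟨s, F, x, hs, hpF, hg, F0, Fk, -, -, -⟩
  · exfalso
    rw [hg] at r1 r2
    simp only [eval_add, eval_one, eval_mul, eval_C, eval_pow, eval_X, derivative_add,
      derivative_one, derivative_mul, derivative_C, zero_mul, zero_add, derivative_X_pow] at r1 r2
    have h3 : ((-1 : ℤ)) ^ (k - 1) ≠ 0 := pow_ne_zero _ (by norm_num)
    have h4 : (k : ℤ) ≠ 0 := by exact_mod_cast (by omega : k ≠ 0)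
    have h5 : r = 0 := by
      rcases mul_eq_zero.mp r2 with h | h
      · exact h
      · exfalso
        rcases mul_eq_zero.mp h with h | h
        · exact h4 (by exact_mod_cast h)
        · exact h3 h
    rw [h5] at r1
    norm_num at r1
  · have q1 : F.eval (-1) = -1 := by
      rw [hg] at r1
      simp only [eval_add, eval_one] at r1
      linarith
    have q2 : (derivative F).eval (-1) = 0 := by
      rw [hg] at r2
      simpa using r2
    rcases hp' with ⟨k, t, r, hk, hp2, hg2⟩ | ⟨s', F', x', hs', hpF', hg', F0', Fk', -, -, -⟩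
    · exfalso
      have h3 : C ((s : ℤ) + 1) * F = C t * X ^ k := by
        have := hpF.symm.trans hp2
        exact add_left_cancel this
      have h4 := congrArg (Polynomial.eval (-1)) h3
      have h5 := congrArg (fun P => (derivative P).eval (-1)) h3
      simp only [eval_mul, eval_C, eval_pow, eval_X, derivative_mul, derivative_C, zero_mul,
        zero_add, derivative_X_pow, q1, q2, mul_zero] at h4 h5
      have h6 : ((-1 : ℤ)) ^ (k - 1) ≠ 0 := pow_ne_zero _ (by norm_num)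
      have h7 : (k : ℤ) ≠ 0 := by exact_mod_cast (by omega : k ≠ 0)
      have h8 : t = 0 := by
        rcases mul_eq_zero.mp h5.symm with h | h
        · exact h
        · exfalso
          rcases mul_eq_zero.mp h with h | h
          · exact h7 (by exact_mod_cast h)
          · exact h6 h
      rw [h8] at h4
      omega
    · have q3 : F'.eval (-1) = -1 := by
        rw [hg'] at r3
        simp only [eval_add, eval_one] at r3
        linarith
      have h3 : C ((s : ℤ) + 1) * F = C ((s' : ℤ) + 1) * F' := by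
        have := hpF.symm.trans hpF'
        exact add_left_cancel this
      have h4 := congrArg (Polynomial.eval (-1)) h3
      simp only [eval_mul, eval_C, q1, q3] at h4
      have h5 : (s : ℤ) = s' := by linarith
      rw [h5] at h3
      have h6 : F = F' := by
        refine mul_left_cancel₀ ?_ h3
        rw [Ne, C_eq_zero]
        omega
      have hgg : g = g' := by rw [hg, hg', h6]
      have h7 : (1 + X : ℤ[X]) * (X * (1 + X) * rho) = (1 + X) * (rho - f) := by
        rw [← h2, ← hgg, h1]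
        ring
      have h8 : (1 + X : ℤ[X]) ≠ 0 := by
        intro h0
        have := congrArg (Polynomial.eval 0) h0
        simp at this
      have h9 := mul_left_cancel₀ h8 h7
      exact ⟨s, F, hs, hpF, hg, F0, Fk, by linear_combination h9⟩

/-- (PX) one variable. -/
theorem px_num {q f rho E c g g' p : ℤ[X]} {j : ℕ} (hj : 2 ≤ j) (hE : f - q = X * E)
    (h1 : c * g = (1 + X) ^ 2 * rho) (h2 : X * (c * g') = (1 + X) * (rho - f))
    (h3 : E - (1 + X) * rho = c * p) (hc : c.eval (-1) ≠ 0) (hp : Bpf j p g) (hp' : Bpf j p g')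
    {x : ℝ} (hx : x * ((j : ℝ) + 1) = 1) (hcx : 0 < (aeval x c : ℝ))
    (hq : 0 < (aeval x q : ℝ)) : False := by
  obtain ⟨s, F, hs, hpF, hg, F0, Fk, hf⟩ := px_poly h1 h2 hc hp hp'
  have hj2 : (3 : ℝ) ≤ j := by exact_mod_cast (by omega : 3 ≤ j)
  have hx0 : 0 < x := by
    by_contra h
    push Not at h
    nlinarith
  have hx4 : x ≤ 1 / 4 := by nlinarith
  have hsj : ((s : ℝ) + 1) + 2 ≤ j := by exact_mod_cast hs
  set R : ℝ := aeval x rho with hR
  set c' : ℝ := aeval x c with hc'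
  set A : ℝ := aeval x F with hA
  have e1 : c' * (1 + A) = (1 + x) ^ 2 * R := by
    have := congrArg (fun P : ℤ[X] => (aeval x P : ℝ)) h1
    rw [hg] at this
    simpa [← hR, ← hc', ← hA] using this
  have e2 : (aeval x q : ℝ) = R * (1 - x - x ^ 2) - x * ((1 + x) * R + c' * (j + (s + 1) * A)) := by
    have : q = rho * (1 - X - X ^ 2) - X * ((1 + X) * rho + c * (C (j : ℤ) + C ((s : ℤ) + 1) * F)) := by
      rw [← hpF, ← h3, ← hf]
      linear_combination -hE
    rw [this]
    simp [← hR, ← hc', ← hA]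
  -- the bound for `A`
  have hF1 : ((F.coeff 1 : ℤ) : ℝ) ≤ 1 := by exact_mod_cast (abs_le.mp (Fk 1)).2
  have hF1' : (-1 : ℝ) ≤ ((F.coeff 1 : ℤ) : ℝ) := by exact_mod_cast (abs_le.mp (Fk 1)).1
  have t1 := abs_le.mp (O4U.tail_one F0 Fk hx0 (by linarith))
  have hA1 : (1 - x) * A ≤ x := by
    have h4 := t1.2
    nlinarith [mul_nonneg hx0.le (by linarith : (0 : ℝ) ≤ 1 - x)]
  have hA2 : -x ≤ (1 - x) * A := by
    have h4 := t1.1
    nlinarith [mul_nonneg hx0.le (by linarith : (0 : ℝ) ≤ 1 - x)]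
  have hG : 0 < 1 + A := by nlinarith
  -- the inequality, multiplied by `(1 + x)²`
  set sg : ℝ := (s : ℝ) + 1 with hsg
  have hsg0 : 1 ≤ sg := by rw [hsg]; linarith [(Nat.cast_nonneg s : (0 : ℝ) ≤ s)]
  have hxs : x * sg ≤ 1 - 3 * x := by nlinarith
  have k1 : 0 < c' * ((1 + A) * (1 - 2 * x - 2 * x ^ 2 - sg * x * (1 + x) ^ 2) -
      (1 - x - sg * x) * (1 + x) ^ 2) := by
    have h4 : 0 < (1 + x) ^ 2 * (aeval x q : ℝ) := by positivity
    rw [e2] at h4
    have h5 : (1 + x) ^ 2 * (R * (1 - x - x ^ 2) - x * ((1 + x) * R + c' * (j + sg * A))) =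
        c' * ((1 + A) * (1 - 2 * x - 2 * x ^ 2 - sg * x * (1 + x) ^ 2) -
          (1 - x - sg * x) * (1 + x) ^ 2) := by
      have h6 : x * j = 1 - x := by linarith
      linear_combination (-(1 - 2 * x - 2 * x ^ 2)) * e1 - c' * (1 + x) ^ 2 * h6
    rw [h5] at h4
    exact h4
  have k2 := (pos_iff_pos_of_mul_pos k1).mp hcx
  set B : ℝ := 1 - 2 * x - 2 * x ^ 2 - sg * x * (1 + x) ^ 2 with hB
  have k3 : (1 - x - sg * x) * (1 + x) ^ 2 = B + 3 * x + x ^ 2 - x ^ 3 := by rw [hB]; ring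
  have k4 : 0 < (1 - x - sg * x) * (1 + x) ^ 2 := by
    apply mul_pos
    · nlinarith
    · positivity
  have k5 : 0 < (1 + A) * B := by linarith
  have k6 : 0 < B := (pos_iff_pos_of_mul_pos k5).mp hG
  have k7 : (1 - x) * (1 + A) ≤ 1 := by nlinarith
  have k8 : (1 - x) * ((1 + A) * B) ≤ B := by nlinarith
  have k9 : (1 - x) * (B + 3 * x + x ^ 2 - x ^ 3) < B := by
    have h4 : (1 - x) * ((1 - x - sg * x) * (1 + x) ^ 2) < (1 - x) * ((1 + A) * B) :=
      mul_lt_mul_of_pos_left (by linarith) (by linarith)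
    rw [k3] at h4
    linarith
  have k10 : B ≤ 1 - 2 * x := by
    rw [hB]
    have : 0 ≤ sg * x * (1 + x) ^ 2 := by positivity
    nlinarith
  -- `(1 - x) (3 + x - x²) < B`
  have k11 : x * ((1 - x) * (3 + x - x ^ 2)) < x * B := by nlinarith
  have k12 : (1 - x) * (3 + x - x ^ 2) < B := lt_of_mul_lt_mul_left k11 hx0.le
  nlinarith [mul_pos hx0 hx0]

end Pool.Agent.B5.KO.H40
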