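import Pool.Agent.Lib.MP_b5021c_nt.KV.H03.Vse
import Pool.Agent.Lib.MP_b5021c_nt.KO.H40.PxN

/-!
# MP_b5021c_nt, all `θ`, K odd: the row PX, the core (finding 3630, (I))

`G` is the closing A of a ray `S` of a component C (`u = 1`, `n = j + 1`): class `V(j + 1)`, rank
`2 j`; `R` is a ray outside C of type (0,0) with a mutual partner, at the load `er` (`y_R = -1/z`).
The closing is drop free, of class `V(j)`: BpS for the rays `S1` and `R1` of it.
-/

set_option linter.unusedSectionVars false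

namespace Pool.Agent.B5.KO.H40

open scoped LaurentPolynomial
open Polynomial
open Pool.Agent.B5.KE
open Pool.Agent.B5.Nr.Sch
open Pool.Agent.B5.H66 (classV_of)
open Pool.Agent.B5.KV.H03 (TT tA_val tA_inv V_facts t_end)

/-- The closing A as an element `G` of class `V(j + 1)`, rank `2 j`, with the ray `R` (of type (0,0)
with a mutual partner) at the load `er` (`y_R = -1/z`): drop free; `y_R = 1` has a drop. -/
structure Ph {P L : Type} [Fintype P] [DecidableEq P] [AddCommGroup L] [Module.Free ℤ L]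
    [Module.Finite ℤ L] (phi : L →+ (P → ℤ)) (G : AO ℤ L) (R : L) (er u : (RO ℤ)ˣ)
    (q f E rho : ℤ[X]) (j : ℕ) : Prop where
  dd : DD phi G
  ray : Ray G R
  im : ImS phi R
  fr : Module.finrank ℤ L = 2 * j
  j2 : 2 ≤ j
  f0 : f.coeff 0 = 1
  eE : f - q = X * E
  E0 : E.coeff 0 = (j : ℤ) + 1
  Ez : ∀ z : ℂ, ‖z‖ ≤ 1 → aeval z E ≠ 0
  qx : ∀ x : ℝ, x * ((j : ℝ) + 1) = 1 → 0 < (aeval x q : ℝ)
  rho0 : rho.coeff 0 = 1
  rho1 : rho.coeff 1 = f.coeff 1 + 1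
  g0 : (u : RO ℤ) * G.coeff 0 = toLaurent E
  gR : (u : RO ℤ) * ((er : RO ℤ) * G.coeff R) = -toLaurent ((1 + X) * rho)
  dr : ∀ (i1 : P) (h1 : co phi i1 R = 1),
    Module.finrank ℤ L = rk (supp (cl (co phi i1) R h1 er G)) + 1
  bad : ∀ (i1 : P) (h1 : co phi i1 R = 1),
    Module.finrank ℤ L ≠ rk (supp (cl (co phi i1) R h1 (er * tA⁻¹) G)) + 1
  x : ∀ (i1 : P) (h1 : co phi i1 R = 1), ∃ (x : Ker (co phi i1)) (w : (RO ℤ)ˣ),
    Ray (cl (co phi i1) R h1 er G) x ∧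
    (w : RO ℤ) * (cl (co phi i1) R h1 er G).coeff x = toLaurent ((1 + X) * (rho - f))
  t : ∀ (i1 : P) (h1 : co phi i1 R = 1), ∃ (t : Ker (co phi i1)) (w : (RO ℤ)ˣ),
    Ray (cl (co phi i1) R h1 er G) t ∧
    (w : RO ℤ) * (cl (co phi i1) R h1 er G).coeff t = toLaurent ((1 + X) ^ 2 * rho)
  ih : ∀ K < 2 * j, Bnk K

/-- A factor with constant term one. -/
theorem lsplit {c y : RO ℤ} {U : (RO ℤ)ˣ} {n m : ℤ} {c' s : ℤ[X]}
    (hc : c = LaurentPolynomial.T n * toLaurent c') (hc0 : c'.coeff 0 = 1)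
    (hs : s.coeff 0 ≠ 0) (h : (U : RO ℤ) * (c * y) = LaurentPolynomial.T m * toLaurent s) :
    ∃ (w : (RO ℤ)ˣ) (y' : ℤ[X]), (w : RO ℤ) * y = toLaurent y' ∧ c' * y' = s ∧
      y'.coeff 0 = s.coeff 0 := by
  have hy : y ≠ 0 := by
    rintro rfl
    rw [mul_zero, mul_zero] at h
    rcases mul_eq_zero.1 h.symm with h3 | h3
    · exact absurd h3 (LaurentPolynomial.isUnit_T m).ne_zero
    · rw [toLaurent_injective (h3.trans (map_zero _).symm), coeff_zero] at hs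
      exact hs rfl
  have hUy : (U : RO ℤ) * y ≠ 0 := mul_ne_zero (Units.ne_zero U) hy
  obtain ⟨k, g, hg0, hg⟩ := H67.nf_exists hUy
  have h1 : (LaurentPolynomial.T (n + k) * toLaurent (c' * g) : RO ℤ) =
      LaurentPolynomial.T m * toLaurent s := by
    rw [← h, hc, map_mul, LaurentPolynomial.T_add]
    linear_combination (-(LaurentPolynomial.T n * toLaurent c') : RO ℤ) * hg
  obtain ⟨-, h2⟩ := H78.T_eq (by rw [mul_coeff_zero, hc0, one_mul]; exact hg0) hs h1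
  obtain ⟨v, hv⟩ := LaurentPolynomial.isUnit_T (R := ℤ) (-k)
  refine ⟨v * U, g, ?_, h2, by rw [← h2, mul_coeff_zero, hc0, one_mul]⟩
  rw [Units.val_mul, hv, mul_assoc, hg, ← mul_assoc, ← LaurentPolynomial.T_add, neg_add_cancel,
    LaurentPolynomial.T_zero, one_mul]

/-- Normal form of an element of class `V(1)`. -/
theorem v1_nf {c : RO ℤ} (h : ClassV 1 c) : ∃ (s : (RO ℤ)ˣ) (n : ℤ) (c' : ℤ[X]),
    (s : RO ℤ) * c = LaurentPolynomial.T n * toLaurent c' ∧ c'.coeff 0 = 1 ∧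
      ∀ z : ℂ, ‖z‖ < 1 → (aeval z c' : ℂ) ≠ 0 := by
  obtain ⟨n, p, hp, h1, -, hz⟩ := H78.classV_nf h
  have hz' : ∀ z : ℂ, ‖z‖ < 1 → (aeval z p : ℂ) ≠ 0 := by
    intro z hz1
    have := hz z hz1
    rwa [show (p.map (Int.castRingHom ℂ)).eval z = aeval z p from ev_map _ z] at this
  have h2 : p.coeff 0 = 1 ∨ p.coeff 0 = -1 := by
    have : |p.coeff 0| = 1 := by exact_mod_cast h1
    rcases abs_eq (by norm_num : (0 : ℤ) ≤ 1) |>.mp this with h | h
    · exact Or.inl h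
    · exact Or.inr h
  rcases h2 with h2 | h2
  · exact ⟨1, n, p, by rw [Units.val_one, one_mul, hp], h2, hz'⟩
  · refine ⟨-1, n, -p, ?_, by rw [coeff_neg, h2]; norm_num, ?_⟩
    · rw [Units.val_neg, Units.val_one, hp, map_neg]
      ring
    · intro z hz1
      rw [map_neg]
      exact neg_ne_zero.mpr (hz' z hz1)

theorem pos_zf {P : ℤ[X]} (h0 : 0 < P.coeff 0) (h : ∀ z : ℂ, ‖z‖ < 1 → (aeval z P : ℂ) ≠ 0)
    {x : ℝ} (hx0 : 0 ≤ x) (hx1 : x < 1) : 0 < (aeval x P : ℝ) := by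
  by_contra hn
  push Not at hn
  have hc : ContinuousOn (fun y : ℝ => (aeval y P : ℝ)) (Set.Icc 0 x) :=
    (Polynomial.continuous_aeval P).continuousOn
  have h1 : (0 : ℝ) ∈ Set.Icc (aeval x P : ℝ) (aeval (0 : ℝ) P : ℝ) := by
    refine ⟨hn, ?_⟩
    have h2 : (aeval (0 : ℝ) P : ℝ) = (P.coeff 0 : ℝ) := by
      rw [aeval_def, ← eval_map, ← coeff_zero_eq_eval_zero, coeff_map]
      simp
    rw [h2]
    exact_mod_cast h0.le
  obtain ⟨y, hy, hy0⟩ := intermediate_value_Icc' hx0 hc h1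
  refine h (y : ℂ) ?_ ?_
  · rw [Complex.norm_real, Real.norm_of_nonneg hy.1]
    linarith [hy.2]
  · have h3 : (aeval ((y : ℝ) : ℂ) P : ℂ) = ((aeval y P : ℝ) : ℂ) := by
      have := aeval_algebraMap_apply (A := ℝ) ℂ y P
      exact this
    simp only at hy0
    rw [h3, hy0]
    simp

/-- (PX) THE CORE. -/
theorem ph_false (hT : TsgS) (hNd : Nd3vS) (hNr : Nr3S) (hFD : FDS) (hG0 : G0S) (hC0 : Coeff0S)
    (hE1 : E1S) (hE2 : E2S) (hMV : MVS) (hMm : MmulS) (hRk : RkS) (hWW : WWfS) (hRF : RayFacS)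
    (hB : BpS) {P L : Type} [Fintype P] [DecidableEq P] [AddCommGroup L] [Module.Free ℤ L]
    [Module.Finite ℤ L] {phi : L →+ (P → ℤ)} {G : AO ℤ L} {R : L} {er u : (RO ℤ)ˣ}
    {q f E rho : ℤ[X]} {j : ℕ} (K : Ph phi G R er u q f E rho j) : False := by
  classical
  have hj := K.j2
  have hr2 : 2 ≤ Module.finrank ℤ L := by have := K.fr; omega
  obtain ⟨i1, h1⟩ := exists_port K.dd K.ray
  obtain ⟨n0, s0, hs0, hu0⟩ :=
    MP_b5021c_nt.Unr.unit_R ((u⁻¹ : (RO ℤ)ˣ) : RO ℤ) (u⁻¹).isUnit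
  rw [LaurentPolynomial.single_eq_C_mul_T] at hu0
  have huu : ((u⁻¹ : (RO ℤ)ˣ) : RO ℤ) * (u : RO ℤ) = 1 := u.inv_mul
  obtain ⟨V, hV⟩ : ∃ V : ℤ[X], V = E - (1 + X) * rho := ⟨_, rfl⟩
  have g0 := K.g0
  have gR := K.gR
  have hsum : (u : RO ℤ) * (G.coeff 0 + (er : RO ℤ) * G.coeff R) = toLaurent V := by
    rw [hV, map_sub]
    linear_combination g0 + gR
  have hsum' : G.coeff 0 + (er : RO ℤ) * G.coeff R =
      ((u⁻¹ : (RO ℤ)ˣ) : RO ℤ) * toLaurent V := by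
    linear_combination ((u⁻¹ : (RO ℤ)ˣ) : RO ℤ) * hsum -
      (G.coeff 0 + (er : RO ℤ) * G.coeff R) * huu
  have hsumT : G.coeff 0 + (er : RO ℤ) * G.coeff R =
      LaurentPolynomial.T n0 * toLaurent (C s0 * V) := by
    rw [hsum', hu0, map_mul, toLaurent_C]
    ring
  -- the circle
  obtain ⟨ez, -, -, -, -, eray⟩ := hE2 ℤ P L phi G K.dd hr2
  have hle : ∀ z : ℂ, ‖z‖ = 1 → ‖(aeval z ((1 + X) * rho) : ℂ)‖ ≤ ‖(aeval z E : ℂ)‖ := by
    intro z hz
    obtain ⟨zc, rfl⟩ := circle_of z hz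
    have h2 := (eray R K.ray).1 zc
    have e1 : ‖evR zc (u : RO ℤ)‖ = 1 := C4C.norm_evR_unit zc u.isUnit
    have e2 : ‖evR zc (er : RO ℤ)‖ = 1 := C4C.norm_evR_unit zc er.isUnit
    have h3 : ‖evR zc (G.coeff R)‖ = ‖(aeval (zc : ℂ) ((1 + X) * rho) : ℂ)‖ := by
      have h4 := congrArg (fun p => ‖evR zc p‖) gR
      simp only [map_mul, map_neg, norm_mul, norm_neg, e1, e2, one_mul] at h4
      rw [h4, ← norm_mul, ← map_mul (evR zc), ← map_mul toLaurent, evR_poly]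
    have h4 : ‖evR zc (G.coeff 0)‖ = ‖(aeval (zc : ℂ) E : ℂ)‖ := by
      rw [← evR_poly, ← g0, map_mul, norm_mul, e1, one_mul]
    rw [h3, h4] at h2
    exact h2
  have hE0 : E.coeff 0 = ((j + 1 : ℕ) : ℤ) := by rw [K.E0]; push_cast; ring
  obtain ⟨V0', Vz⟩ := V_facts (by omega : 2 ≤ j + 1) hV hE0 K.rho0 K.Ez hle
  have V0 : V.coeff 0 = (j : ℤ) := by rw [V0']; push_cast; ring
  have hs1 : |(s0 : ℝ)| = 1 := by rcases hs0 with h | h <;> rw [h] <;> simp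
  have hcV : ClassV j (G.coeff 0 + (er : RO ℤ) * G.coeff R) := by
    refine classV_of (by exact_mod_cast (by omega : 1 ≤ j)) hsumT ?_ ?_
    · rw [mul_coeff_zero, coeff_C_zero, V0, Int.cast_mul, abs_mul, hs1, one_mul,
        Int.cast_natCast, Nat.abs_cast]
    · intro z hz
      rw [show ((C s0 * V).map (Int.castRingHom ℂ)).eval z = aeval z (C s0 * V) from ev_map _ z,
        map_mul, aeval_C]
      refine mul_ne_zero ?_ (Vz z hz)
      rcases hs0 with h | h <;> rw [h] <;> simp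
  -- no double zeros
  have nod : ∀ z0 : ℂ, ‖z0‖ = 1 → ¬ (X - C z0) ^ 2 ∣ (C s0 * V).map (Coef.emb : ℤ →+* ℂ) := by
    intro z0 hz0 hd
    refine hNd (E.map (Coef.emb : ℤ →+* ℂ)) (V.map (Coef.emb : ℤ →+* ℂ)) z0 ?_ ?_ ?_ hz0 ?_
    · intro z hz
      rw [ev_map]
      exact K.Ez z hz
    · intro z hz
      rw [ev_map, ev_map, hV, map_sub, sub_mul, Complex.sub_re, Complex.mul_conj,
        Complex.normSq_eq_norm_sq, Complex.ofReal_re]
      have h2 := hle z hz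
      have h3 := Complex.re_le_norm ((aeval z ((1 + X) * rho) : ℂ) *
        (starRingEnd ℂ) (aeval z E : ℂ))
      rw [norm_mul, Complex.norm_conj] at h3
      have h4 := norm_nonneg (aeval z E : ℂ)
      nlinarith
    · rw [Ne, Polynomial.map_eq_zero_iff emb_inj]
      intro h0
      rw [h0, coeff_zero] at V0
      omega
    · obtain ⟨d, hd⟩ := hd
      have hss : s0 * s0 = 1 := by rcases hs0 with h | h <;> rw [h] <;> norm_num
      refine ⟨(C s0 : ℤ[X]).map (Coef.emb : ℤ →+* ℂ) * d, ?_⟩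
      have h2 : V = C s0 * (C s0 * V) := by
        rw [← mul_assoc, ← C_mul, hss, C_1, one_mul]
      conv_lhs => rw [h2]
      rw [Polynomial.map_mul, hd]
      ring
  -- no small factors
  have hsn : ∀ (c : RO ℤ) (n : ℕ) (H : Fin n → AO ℤ (Ker (co phi i1))),
      FD phi G R i1 er h1 c n H → M c = 1 → ¬ (snp phi R i1 H).Nonempty := by
    intro c n H fd hMc hsn
    have hne : er * tA⁻¹ ≠ er := by
      intro h
      have h2 : tA⁻¹ = 1 := mul_eq_left.mp h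
      have h3 : ((tA⁻¹ : (RO ℤ)ˣ) : RO ℤ) = 1 := by rw [h2, Units.val_one]
      rw [tA_inv] at h3
      have h4 := congrArg (fun p : RO ℤ => p.coeff 0) h3
      simp only [AddMonoidAlgebra.coeff_neg, Finsupp.neg_apply] at h4
      rw [← LaurentPolynomial.T_zero, LaurentPolynomial.T_apply, LaurentPolynomial.T_apply,
        if_neg (by norm_num), if_pos rfl] at h4
      norm_num at h4
    obtain ⟨t, ht0, htn, hte⟩ := hT P L phi G R i1 er (er * tA⁻¹) h1 c n H n0 (C s0 * V) fd hMc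
      hsn (K.dr i1 h1) hne (K.bad i1 h1) hsumT nod
    refine t_end (by omega : 2 ≤ j + 1) hV hE0 V0' K.Ez hNr ht0 htn ?_
    have e3 : ((er * tA⁻¹ : (RO ℤ)ˣ) : RO ℤ) * ((er⁻¹ : (RO ℤ)ˣ) : RO ℤ) =
        -LaurentPolynomial.T 1 := by
      rw [← tA_inv, ← Units.val_mul]
      congr 1
      rw [mul_comm er, mul_assoc, mul_inv_cancel, mul_one]
    have e4 : ((er * tA⁻¹ : (RO ℤ)ˣ) : RO ℤ) = -LaurentPolynomial.T 1 * (er : RO ℤ) := by
      rw [Units.val_mul, tA_inv, mul_comm]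
    rw [e3, e4, hsum'] at hte
    have huu' : (u : RO ℤ) * ((u⁻¹ : (RO ℤ)ˣ) : RO ℤ) = 1 := u.mul_inv
    rw [map_add, map_mul toLaurent X, toLaurent_X]
    linear_combination (u : RO ℤ) * hte - g0 + LaurentPolynomial.T 1 * gR +
      (1 + LaurentPolynomial.T 1) * (t * toLaurent V) * huu'
  -- one factor
  obtain ⟨x, w, hxr, hxc⟩ := K.x i1 h1
  obtain ⟨t, w', htr, htc⟩ := K.t i1 h1
  obtain ⟨r, hr⟩ : (X : ℤ[X]) ∣ rho - f := by
    rw [X_dvd_iff, coeff_sub, K.rho0, K.f0, sub_self]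
  have hr0 : r.coeff 0 = 1 := by
    rw [← coeff_X_mul r 0, ← hr, coeff_sub]
    have := K.rho1
    linarith
  have hxT : (w : RO ℤ) * (cl (co phi i1) R h1 er G).coeff x =
      LaurentPolynomial.T 1 * toLaurent ((1 + X) * r) := by
    rw [hxc, hr, ← toLaurent_X, ← map_mul]
    congr 1
    ring
  have hr1 : ((1 + X) * r : ℤ[X]).coeff 0 = 1 := by
    rw [mul_coeff_zero, hr0]
    simp
  obtain ⟨c, H, hcc, hcl, hdd, hHV⟩ := H67.one_fac hFD hG0 hC0 hE1 hMV hMm hRk hWW hRF phi G R i1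
    h1 er (j : ℝ) K.dd hr2 K.ray K.im hcV (K.dr i1 h1) hsn x hxr (w : RO ℤ) 1 ((1 + X) * r)
    (by rw [hr1]; norm_num) hxT
  have hc0 : c ≠ 0 := ((hMV ℤ).1 _ _ hcc).1
  have hsup : supp (cl (co phi i1) R h1 er G) = supp H := by
    rw [hcl, H56.supp_cst_mul hc0]
  have hxH : Ray H x := ray_congr hsup hxr
  have htH : Ray H t := ray_congr hsup htr
  have hcoef : ∀ y : Ker (co phi i1), (cl (co phi i1) R h1 er G).coeff y = c * H.coeff y := by
    intro y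
    rw [hcl, H56.cstm]
  -- the content
  obtain ⟨s, n, c', hsc, hc'0, hc'z⟩ := v1_nf hcc
  have hsc' : c = LaurentPolynomial.T n * toLaurent c' * ((s⁻¹ : (RO ℤ)ˣ) : RO ℤ) := by
    rw [← hsc, mul_comm (s : RO ℤ) c, mul_assoc, ← Units.val_mul, mul_inv_cancel, Units.val_one,
      mul_one]
  have hspl : ∀ (U : (RO ℤ)ˣ) (y : RO ℤ) (m : ℤ) (v : ℤ[X]), v.coeff 0 ≠ 0 →
      (U : RO ℤ) * (c * y) = LaurentPolynomial.T m * toLaurent v →
      ∃ (w : (RO ℤ)ˣ) (y' : ℤ[X]), (w : RO ℤ) * y = toLaurent y' ∧ c' * y' = v ∧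
        y'.coeff 0 = v.coeff 0 := by
    intro U y m v hv h
    refine lsplit (c := (s : RO ℤ) * c) (U := U * s⁻¹) (m := m) hsc hc'0 hv ?_
    rw [← h, Units.val_mul]
    have : ((s⁻¹ : (RO ℤ)ˣ) : RO ℤ) * (s : RO ℤ) = 1 := s.inv_mul
    linear_combination (U : RO ℤ) * (c * y) * this
  -- the pairs
  have h00 : (cl (co phi i1) R h1 er G).coeff 0 = G.coeff 0 + (er : RO ℤ) * G.coeff R := by
    have cc : CC phi G R i1 er := ⟨K.dd, hr2, K.ray, h1, ((hMV ℤ).1 _ _ hcV).1⟩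
    exact (hG0 ℤ P L phi G R i1 er h1 cc).2.2.1
  obtain ⟨w0, p, hp, hcp, hp0⟩ := hspl u (H.coeff 0) 0 V (by rw [V0]; omega) (by
    rw [← hcoef, h00, hsum, LaurentPolynomial.T_zero, one_mul])
  obtain ⟨w1, g', hg', hcg', hg'0⟩ := hspl w (H.coeff x) 1 ((1 + X) * r) (by rw [hr1]; norm_num)
    (by rw [← hcoef, hxT])
  have hrr : ((1 + X) ^ 2 * rho : ℤ[X]).coeff 0 = 1 := by
    rw [mul_coeff_zero, K.rho0, mul_one, pow_two, mul_coeff_zero]
    simp
  obtain ⟨w2, g, hg, hcg, hg0⟩ := hspl w' (H.coeff t) 0 ((1 + X) ^ 2 * rho) (by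
    rw [hrr]; norm_num) (by rw [← hcoef, htc, LaurentPolynomial.T_zero, one_mul])
  have hcm : c'.eval (-1) ≠ 0 := by
    intro h0
    have h2 : (aeval (-1 : ℂ) V : ℂ) = 0 := by
      rw [← hcp, map_mul]
      have : (aeval (-1 : ℂ) c' : ℂ) = ((c'.eval (-1) : ℤ) : ℂ) := by
        have h3 := aeval_algebraMap_apply (A := ℤ) ℂ (-1) c'
        simpa using h3
      rw [this, h0]
      simp
    apply K.Ez (-1) (by simp)
    rw [hV, map_sub, map_mul, map_add, map_one, aeval_X, add_neg_cancel, zero_mul, sub_zero] at h2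
    exact h2
  have hev : ∀ y v : ℤ[X], c' * y = v → v.eval (-1) = 0 → y ≠ 1 := by
    rintro y v h2 h3 rfl
    rw [mul_one] at h2
    rw [h2] at hcm
    exact hcm h3
  have hker : Module.finrank ℤ (Ker (co phi i1)) + 1 = 2 * j := by
    have := finrank_ker hRk h1
    rw [K.fr] at this
    exact this
  have b1 := hB P (Ker (co phi i1)) (phO phi R i1) H j t w0 w2 p g hj hdd hHV hker K.ih htH hp
    (by rw [hp0, V0]) hg (by rw [hg0, hrr]) (hev g _ hcg (by simp))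
  have b2 := hB P (Ker (co phi i1)) (phO phi R i1) H j x w0 w1 p g' hj hdd hHV hker K.ih hxH hp
    (by rw [hp0, V0]) hg' (by rw [hg'0, hr1]) (hev g' _ hcg' (by simp))
  have hj1 : (0 : ℝ) < (j : ℝ) + 1 := by positivity
  have hx0 : (1 / ((j : ℝ) + 1)) * ((j : ℝ) + 1) = 1 := by
    field_simp
  refine px_num hj K.eE hcg ?_ (by rw [hcp, hV]) hcm b1 b2 (x := 1 / ((j : ℝ) + 1)) hx0 ?_
    (K.qx _ hx0)
  · rw [hcg', hr]
    ring
  · apply pos_zf (by rw [hc'0]; norm_num) hc'z (by positivity)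
    rw [div_lt_one hj1]
    have : (2 : ℝ) ≤ j := by exact_mod_cast hj
    linarith

end Pool.Agent.B5.KO.H40
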