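import Pool.Agent.Lib.MP_b5021c_nt.KO.H40.PxF
import Pool.Agent.Lib.MP_b5021c_nt.KO.H40.Px
import Pool.Agent.Lib.MP_b5021c_nt.W.H1.Oi

/-!
# MP_b5021c_nt, all `θ`, K odd: the row PX, the data (finding 3630, (I))
-/

set_option linter.unusedSectionVars false

namespace Pool.Agent.B5.KO.H40

open scoped LaurentPolynomial
open Polynomial
open Pool.Agent.B5.KE
open Pool.Agent.B5.Nr.Sch
open Pool.Agent.B5.Nr (TrezS)
open Pool.Agent.B5.H61 (CuspS)
open Pool.Agent.B5.H40 (uT)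
open Pool.Agent.B5.KO67 (upper first aset ko_num)
open Pool.Agent.B5.KV67 (TT1 tA_val rho_of csm_coeff dr_of bad_of Ez_of c_unit)

section

variable {P L : Type} [Fintype P] [DecidableEq P] [AddCommGroup L] [Module.Free ℤ L]
  [Module.Finite ℤ L] {phi : L →+ (P → ℤ)} {D : AO ℤ L}

/-- The functional of a ray of `C`, negative at one given neighbour only. -/
theorem nb_fun (hNbr : NbrS) (hSf : SfzS) (hClp : ClpS) {q f : ℤ[X]} {a : ℝ} {j : ℕ}
    {eta : L → (RO ℤ)ˣ} {C : Set L} (W : KcB phi D q f a j eta 1 C) (hu : f.coeff 0 = 1)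
    {S S1 : L} (hS : S ∈ C) (r1 : Ray D S1) (m0 : S1 ∉ US (eta S) S D) :
    ∃ nu : L →+ ℤ, (∀ a ∈ US (eta S) S D, nu a = 0) ∧ nu S1 = -1 ∧
      ∀ T, Ray D T → T ≠ S1 → 0 ≤ nu T := by
  have h2 : 2 ≤ Module.finrank ℤ L := by have := W.ko.rk; have := W.ko.j2; omega
  obtain ⟨mu, R, T, hU, -, -, hR, hT, ho, -⟩ := hNbr ℤ P L phi D eta a⁻¹ C W.ko.min h2
    (aset hSf hClp W hu) S hS
  have hne : mu S1 ≠ 0 := fun h => m0 ((hU S1).2 h)
  have hRT : R ≠ T := by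
    rintro rfl
    omega
  by_cases h1 : S1 = R
  · subst h1
    refine ⟨-mu, fun a ha => by rw [AddMonoidHom.neg_apply, (hU a).1 ha, neg_zero], by
      rw [AddMonoidHom.neg_apply, hR], fun T' hT' hne' => ?_⟩
    rw [AddMonoidHom.neg_apply]
    by_cases h3 : T' = T
    · rw [h3, hT]
      norm_num
    · rw [ho T' hT' hne' h3]
      norm_num
  · by_cases h3 : S1 = T
    · subst h3
      refine ⟨mu, fun a ha => (hU a).1 ha, hT, fun T' hT' hne' => ?_⟩
      by_cases h4 : T' = R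
      · rw [h4, hR]
        norm_num
      · rw [ho T' hT' h4 hne']
    · exact absurd (ho S1 r1 h1 h3) hne

theorem ray_tr {M : Type} [AddCommGroup M] {G H : AO ℤ M} (h : supp G = supp H) {b : M}
    (hb : Ray G b) : Ray H b := by
  obtain ⟨h1, h2, lam, h3, h4⟩ := hb
  rw [h] at h1 h4
  exact ⟨h1, h2, lam, h3, h4⟩

/-- The functional of a face spanned by three rays. -/
theorem fun3 {X Y Q : L} (rX : Ray D X) (rY : Ray D Y) (rQ : Ray D Q) (hXQ : X ≠ Q)
    (hYQ : Y ≠ Q) {nuA nuB : L →+ ℤ} (aX : nuA X = -1) (aY : nuA Y = 0) (aQ : nuA Q = 0)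
    (a0 : ∀ T, Ray D T → T ≠ X → 0 ≤ nuA T) (bY : nuB Y = -1) (bX : nuB X = 0)
    (bQ : nuB Q = 0) (b0 : ∀ T, Ray D T → T ≠ Y → 0 ≤ nuB T) :
    ∃ lam : L →+ ℤ, lam X = 0 ∧ lam Y = 0 ∧ lam Q = 0 ∧
      ∀ T, Ray D T → T ≠ X → T ≠ Y → T ≠ Q → 0 < lam T := by
  obtain ⟨-, -, lQ, lQ0, hlQ⟩ := rQ
  have qX : 0 < lQ X := hlQ X rX.1 rX.2.1 hXQ
  have qY : 0 < lQ Y := hlQ Y rY.1 rY.2.1 hYQ
  refine ⟨lQ + lQ X • nuA + lQ Y • nuB, ?_, ?_, ?_, ?_⟩
  · simp only [AddMonoidHom.add_apply, AddMonoidHom.smul_apply, smul_eq_mul, aX, bX]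
    ring
  · simp only [AddMonoidHom.add_apply, AddMonoidHom.smul_apply, smul_eq_mul, aY, bY]
    ring
  · simp only [AddMonoidHom.add_apply, AddMonoidHom.smul_apply, smul_eq_mul, aQ, bQ, lQ0]
    ring
  · intro T hT h1 h2 h3
    simp only [AddMonoidHom.add_apply, AddMonoidHom.smul_apply, smul_eq_mul]
    have e1 := hlQ T hT.1 hT.2.1 h3
    have e2 := mul_nonneg qX.le (a0 T hT h1)
    have e3 := mul_nonneg qY.le (b0 T hT h2)
    omega

theorem kpr_of (hNbr : NbrS) (hSf : SfzS) (hClp : ClpS) {q f : ℤ[X]} {a : ℝ} {j : ℕ}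
    {eta : L → (RO ℤ)ˣ} {C : Set L} (W : KcB phi D q f a j eta 1 C) (hu : f.coeff 0 = 1)
    {S S1 : L} (hS : S ∈ C) (hS1 : S1 ∈ C) (m : Mut D S S1 (eta S) (eta S1)) :
    Kpr D eta S S1 :=
  ⟨m, fun T hT hU => (W.kc.mtl S hS T hT hU).2, fun T hT hU => (W.kc.mtl S1 hS1 T hT hU).2,
    nb_fun hNbr hSf hClp W hu hS m.r1 m.m0, nb_fun hNbr hSf hClp W hu hS1 m.r0 m.m1⟩

/-- The mutual partner `R1` of `R`: its class in the double closing `(S, R)`. -/
theorem csm_R1 (hF1 : F1S) (hF2 : F2S) (hI : Inj1S) (fp : FP phi D) {S R R1 : L}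
    {eR eR1 : (RO ℤ)ˣ} {u0 : (RO ℤ)ˣ} (rS : Ray D S) (mR : Mut D R R1 eR eR1)
    (dSR : ∀ i, phi S i = 0 ∨ phi R i = 0) (hSR : S ∈ US eR R D) (hSR1 : S ∈ US eR1 R1 D)
    (hSne : S ≠ R1) (hRS : D.coeff (R + S) ≠ 0) :
    (∀ i, phi R i = 0 ∨ phi R1 i = 0) ∧ (∀ i, phi S i = 0 ∨ phi R1 i = 0) ∧
    (eR1 : RO ℤ) * csm D S R u0 (eR * tA) R1 =
      (1 + LaurentPolynomial.T (-1)) * ((eR : RO ℤ) * (D.coeff R + (u0 : RO ℤ) *
        D.coeff (R + S))) := by
  have hD := fp.dd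
  have dR : ∀ i, phi R i = 0 ∨ phi R1 i = 0 :=
    hF2 ℤ P L phi D R R1 eR1 hD.inj hD.bin mR.r0 mR.r1 mR.m1
  have hRB : Bin phi R := hD.bin R mR.r0.1
  have hR1B : Bin phi R1 := hD.bin R1 mR.r1.1
  have hSB : Bin phi S := hD.bin S rS.1
  have hsub : ∀ {e : (RO ℤ)ˣ} {T x : L}, x ∉ US e T D → S ∈ US e T D → x + S ∉ US e T D := by
    intro e T x h1 h2 h3
    apply h1
    have := Submodule.sub_mem _ h3 h2
    rwa [add_sub_cancel_right] at this
  have fR := hF1 ℤ P L phi D R eR hD.inj hD.bin hRB mR.r0.2.1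
  have fR1 := hF1 ℤ P L phi D R1 eR1 hD.inj hD.bin hR1B mR.r1.2.1
  -- `S` is disjoint from `R1`
  have dS1 : ∀ i, phi S i = 0 ∨ phi R1 i = 0 := by
    by_contra hcon
    push Not at hcon
    obtain ⟨i, hi1, hi2⟩ := hcon
    have hSi : phi S i = 1 := (hSB i).resolve_left hi1
    have hR1i : phi R1 i = 1 := (hR1B i).resolve_left hi2
    -- a port of `R1` outside `S`
    obtain ⟨k, hk1, hk2⟩ : ∃ k, phi S k = 0 ∧ phi R1 k = 1 := by
      by_contra hc
      push Not at hc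
      apply hSne
      symm
      obtain ⟨c, hc1⟩ := (hI ℤ P L phi D fp S rS).1 R1 (fun k hk => by
        rcases hR1B k with h | h
        · exact h
        · exact absurd h (hc k hk))
      have h3 : phi R1 i = c * phi S i := by
        rw [hc1, map_zsmul, Pi.smul_apply, smul_eq_mul]
      rw [hR1i, hSi, mul_one] at h3
      rw [hc1, ← h3, one_smul]
    have hRi : phi R i = 0 := (dR i).resolve_right hi2
    have hRk : phi R k = 0 := (dR k).resolve_right (by rw [hk2]; exact one_ne_zero)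
    exact hRS ((fR1 (R + S) (hsub mR.m1 hSR1)).1
      ⟨i, by rw [map_add, Pi.add_apply, hRi, hSi, zero_add], hR1i⟩
      ⟨k, by rw [map_add, Pi.add_apply, hRk, hk1, add_zero], hk2⟩)
  refine ⟨dR, dS1, ?_⟩
  have a1 := (fR R1 mR.m0).2 (fun i => (dR i).symm)
  have a2 := (fR (R1 + S) (hsub mR.m0 hSR)).2 (fun i => by
    by_cases h : phi R i = 0
    · exact Or.inr h
    · left
      rw [map_add, Pi.add_apply, (dR i).resolve_left h, (dSR i).resolve_right h, add_zero])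
  have b1 := (fR1 R mR.m1).2 dR
  have b2 := (fR1 (R + S) (hsub mR.m1 hSR1)).2 (fun i => by
    by_cases h : phi R1 i = 0
    · exact Or.inr h
    · left
      rw [map_add, Pi.add_apply, (dR i).resolve_right h, (dS1 i).resolve_right h, add_zero])
  rw [add_comm R1 R] at a1
  rw [show R1 + S + R = R + S + R1 by abel] at a2
  unfold csm
  rw [Units.val_mul, tA_val, add_comm R1 R, show R1 + S + R = R + S + R1 by abel]
  linear_combination (eR1 : RO ℤ) * a1 + (eR1 : RO ℤ) * (u0 : RO ℤ) * a2 -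
    (1 + LaurentPolynomial.T (-1)) * (eR : RO ℤ) * b1 -
    (1 + LaurentPolynomial.T (-1)) * (eR : RO ℤ) * (u0 : RO ℤ) * b2

/-- (PX) THE DATA. -/
theorem ph_of (hM1 : M1S) (hMm : MmulS) (hMV : MVS) (hE1 : E1S) (hE2 : E2S) (hPc : PCZS)
    (hClp : ClpS) (hC0 : Coeff0S) (hG0 : G0S) (hI1 : Inj1S) (hRk : RkS) (hFD : FDS)
    (hWW : WWfS) (hRF : RayFacS) (hMug : MugS) (hMco : McoS) (hCu : CuspS) (hSf : SfzS)
    (hTr : TrezS) (hTsa : TsaS) (hI3 : Io3S) (hMfc : MfcS) (hCa : Ca5S) (hGlc : GlcS)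
    (hFou : FouS) (hDti : DtiS) (hNbr : NbrS) (hF1 : F1S) (hF2 : F2S) (hKm : KmuS)
    (hFsp : FspS) (hVco : VcoS) (hRy : RaySpanS) (hVf : KvfS) (hVv : KvvS) {q f f' : ℤ[X]}
    {a : ℝ} {j : ℕ} {eta : L → (RO ℤ)ˣ} {C C' : Set L} (W : KcB phi D q f a j eta 1 C)
    (hu : f.coeff 0 = 1) (hn : f.coeff 1 - q.coeff 1 = j + 1)
    (W' : KcB phi D q f' a j eta 1 C') (hu' : f'.coeff 0 = 1)
    (hn' : f'.coeff 1 - q.coeff 1 = j + 1) {S S1 R R1 : L} {r : RO ℤ} (hS : S ∈ C)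
    (hS1 : S1 ∈ C) (hM : Mut D S S1 (eta S) (eta S1)) (hR : R ∈ C') (hR1 : R1 ∈ C')
    (mR : Mut D R R1 (eta R) (eta R1)) (t00 : T00 phi D eta S S1 R r)
    (hSU1 : S ∈ US (eta R1) R1 D) :
    ∃ (Q K : Type) (_ : Fintype Q) (_ : DecidableEq Q) (_ : AddCommGroup K)
      (_ : Module.Free ℤ K) (_ : Module.Finite ℤ K) (psi : K →+ (Q → ℤ)) (G : AO ℤ K) (R' : K)
      (er u : (RO ℤ)ˣ) (E rho : ℤ[X]), Ph psi G R' er u q f E rho j := by
  obtain ⟨e, he, hRn⟩ := W.rn S hS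
  obtain ⟨e', he', hRR⟩ := W'.rn R hR
  have fp := W.ko.min.fp
  have hD := fp.dd
  have hj := W.ko.j2
  have hrk := W.ko.rk
  have h2 : 2 ≤ Module.finrank ℤ L := by omega
  obtain ⟨ha0, ha2, hθ2, hθ⟩ := ko_num W.ko
  have rS : Ray D S := hM.r0
  have rS1 : Ray D S1 := hM.r1
  have pr := kpr_of hNbr hSf hClp W hu hS hS1 hM
  have hM' : Mut D S S1 (ld e 1) (eta S1) := by rw [← he]; exact hM
  obtain ⟨hdis, hA1, hA11, ⟨Y⟩⟩ := hMco ℤ P L phi D S S1 (eta S) (eta S1) hD.inj hD.bin hM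
  obtain ⟨nu, hnu2, hnu, c, G, hc1, hcl, hdd, hVG, hrayG, hc0, -, -, -⟩ := first hMm hMV hE1
    hClp hC0 hG0 hI1 hRk hFD hWW hRF hMug hMco hTr hTsa W hu hS he hRn hM' Y
  obtain ⟨-, hzero, -⟩ := upper hMV hMm hE1 hPc hClp hFD hSf hI3 hMfc hCa hGlc hFou hDti W hu
    hS he hRn
  obtain ⟨E, hE, hE0, -, hop⟩ := typa hRn.loc hu hRn.ne
  have hcusp : ∀ z : ℂ, ‖z‖ = 1 → (aeval z (q + X * f) : ℂ) ≠ 0 := fun z hz =>
    cusp_m1 hCu hD h2 hRn hM' hzero hz
  have hEz := Ez_of hMfc hD h2 hRn hM' hE hop hcusp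
  have hcu := c_unit hM1 hMV hc1 hc0 hE hEz
  have hAS : (eta S : RO ℤ) * D.coeff S = toLaurent (X * f) := by
    have h5 := ld_S hRn 1
    rw [pow_one] at h5
    rw [he]
    exact h5
  have hAR : (eta R : RO ℤ) * D.coeff R = toLaurent (X * f') := by
    have h5 := ld_S hRR 1
    rw [pow_one] at h5
    rw [he']
    exact h5
  obtain ⟨rho, hrho, hrho0, hrho1⟩ := rho_of (g := f') (s := (eta R : RO ℤ) * r) hu' (by
    rw [← hAR, t00.c00]
    ring)
  -- `S`, `R` are disjoint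
  have hSi0 : phi S Y.i0 = 1 := Y.h0
  have hdR : ∀ i, phi R i = 0 ∨ phi S i = 0 := fun i => (t00.out i).imp id And.left
  have dSR : ∀ i, phi S i = 0 ∨ phi R i = 0 := fun i => (hdR i).symm
  have hRi0 : phi R Y.i0 = 0 := by
    rcases hdR Y.i0 with h | h
    · exact h
    · rw [hSi0] at h
      exact absurd h one_ne_zero
  have hRneS : R ≠ S := by
    rintro rfl
    rw [hSi0] at hRi0
    exact one_ne_zero hRi0
  set R' : Ker (co phi Y.i0) := ⟨R, hRi0⟩ with hR'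
  have hR'c : (R' : L) = R := rfl
  obtain ⟨lam, l0, l1, hlam⟩ := hVf P L phi D eta S S1 R hD h2 pr t00.ray hRneS t00.out t00.us1
  -- the closing along `S`
  have hTS : eta S * tA = -e := by
    rw [he, mul_comm]
    exact kap_ld e
  have hclR : D.coeff R + ((-e : (RO ℤ)ˣ) : RO ℤ) * D.coeff (R + S) =
      (1 + LaurentPolynomial.T 1) * r := by
    rw [← hTS, Units.val_mul, tA_val, t00.c00]
    linear_combination (-(LaurentPolynomial.T (-1)) : RO ℤ) * t00.c10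
  have h1T : (1 + LaurentPolynomial.T 1 : RO ℤ) ≠ 0 := by
    have h5 : (1 + LaurentPolynomial.T 1 : RO ℤ) = toLaurent (1 + X) := by
      rw [map_add, map_one, toLaurent_X]
    rw [h5, toLaurent_ne_zero]
    intro h6
    have h7 := congrArg (fun p : ℤ[X] => p.coeff 0) h6
    simp at h7
  obtain ⟨hray, him⟩ := KV.H76.ray_im hFsp fp Y.h0 hR'c rS t00.ray hdR l0 l1 hlam hcl hcu.ne_zero
    (by
      rw [hclR]
      exact mul_ne_zero h1T t00.r0)
  have hcG : ∀ b : Ker (co phi Y.i0), c * G.coeff b =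
      D.coeff (b : L) + ((-e : (RO ℤ)ˣ) : RO ℤ) * D.coeff ((b : L) + S) := by
    intro b
    rw [← H47.cl_coeff_bin (co phi Y.i0) S Y.h0 (-e) D (fun b hb' => hD.bin b hb' Y.i0), hcl,
      H75.T2C.cst_mul_coeff]
  obtain ⟨cu, rfl⟩ := hcu
  -- double closings
  have hclG : ∀ (i1 : P) (h1 : co (phO phi S Y.i0) i1 R' = 1) (er : (RO ℤ)ˣ),
      cl (co (phO phi S Y.i0) i1) R' h1 er (cl (co phi Y.i0) S Y.h0 (-e) D) =
        cst (cu : RO ℤ) * cl (co (phO phi S Y.i0) i1) R' h1 er G := by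
    intro i1 h1 er
    rw [hcl, map_mul, H75.T2C.cl_cst]
  have hphS : ∀ i1, co (phO phi S Y.i0) i1 R' = 1 → phi S i1 = 0 ∧ phi R i1 = 1 := by
    intro i1 h1
    have h3 : (if phi S i1 = 0 then phi R i1 else 0) = 1 := h1
    by_cases hne : phi S i1 = 0
    · rw [if_pos hne] at h3
      exact ⟨hne, h3⟩
    · rw [if_neg hne] at h3
      exact absurd h3 zero_ne_one
  have hfr := finrank_ker hRk Y.h0
  have hbs : (eta R : RO ℤ) * r = -(LaurentPolynomial.T 2 * toLaurent rho) := hrho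
  have hT21 : (LaurentPolynomial.T 2 : RO ℤ) = LaurentPolynomial.T 1 * LaurentPolynomial.T 1 := by
    rw [← LaurentPolynomial.T_add]
    norm_num
  have hRne : R ≠ 0 := t00.ray.2.1
  have hSU : S ∈ US (eta R) R D := by
    by_contra hSU
    have h5 := (hF1 ℤ P L phi D R (eta R) hD.inj hD.bin (hD.bin R t00.ray.1) hRne S hSU).2 dSR
    have h6 : (eta S : RO ℤ) * D.coeff S = (eta R : RO ℤ) * r := by
      have h7 := t00.c10
      rw [add_comm S R] at h5
      linear_combination (eta S : RO ℤ) * h5 - (eta R : RO ℤ) * h7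
    rw [hAS, hbs] at h6
    have h7 : (toLaurent (X * f) : RO ℤ) = toLaurent (-(X ^ 2 * rho)) := by
      rw [h6, map_neg, map_mul, toLaurent_X_pow]
      rfl
    have h8 := toLaurent_injective h7
    have h9 : (X * f).coeff 1 = (-(X ^ 2 * rho)).coeff 1 := by rw [h8]
    rw [coeff_X_mul, hu, coeff_neg, pow_two, mul_assoc, coeff_X_mul, mul_coeff_zero,
      coeff_X_zero, zero_mul, neg_zero] at h9
    exact one_ne_zero h9
  have hSneR1 : S ≠ R1 := by
    rintro rfl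
    exact mR.m1 t00.us0
  have hRSne : D.coeff (R + S) ≠ 0 := by
    intro h0
    have h5 := t00.c10
    rw [h0, mul_zero] at h5
    exact t00.r0 (neg_eq_zero.mp h5.symm)
  obtain ⟨dRR1, dSR1, hcR1⟩ := csm_R1 hF1 hF2 hI1 fp (u0 := -e) rS mR dSR hSU hSU1 hSneR1 hRSne
  have hSneS1 : S ≠ S1 := by
    rintro rfl
    exact hM.m0 (H47.S_mem (eta S) S D)
  have hRneR1 : R ≠ R1 := by
    rintro rfl
    exact mR.m0 (H47.S_mem (eta R) R D)
  have hSUS : S ∈ US (eta S) S D := H47.S_mem (eta S) S D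
  have hS1U : S1 ∈ US (eta S1) S1 D := H47.S_mem (eta S1) S1 D
  have hRU : R ∈ US (eta R) R D := H47.S_mem (eta R) R D
  have hR1U : R1 ∈ US (eta R1) R1 D := H47.S_mem (eta R1) R1 D
  have hRneS1 : R ≠ S1 := by
    rintro rfl
    exact hM.m0 t00.us0
  refine ⟨P, Ker (co phi Y.i0), inferInstance, inferInstance, inferInstance, inferInstance,
    inferInstance, phO phi S Y.i0, G, R', eta R * tA, cu * tA, E, rho, ?_⟩
  refine ⟨hdd, hray, him, by omega, hj, hu, hE, ?_, hEz, ?_, hrho0, ?_, ?_, ?_, ?_, ?_, ?_, ?_,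
    ?_⟩
  · rw [hE0, hn]
  · intro x hx
    have hjr : (0 : ℝ) < (j : ℝ) + 1 := by positivity
    have hx0 : 0 < x := by
      by_contra hneg
      push Not at hneg
      have := mul_nonpos_of_nonpos_of_nonneg hneg hjr.le
      linarith
    refine hRn.loc.qpos hx0.le ?_
    have h5 := W.ko.lt
    by_contra hcon
    push Not at hcon
    have := mul_le_mul_of_nonneg_left hcon hjr.le
    linarith
  · omega
  · -- `g0`
    rw [Units.val_mul, tA_val]
    have h5 : q - f = -(X * E) := by rw [← hE]; ring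
    rw [h5, map_neg, map_mul, toLaurent_X] at hc0
    linear_combination (-(LaurentPolynomial.T (-1)) : RO ℤ) * hc0 +
      (toLaurent E : RO ℤ) * TT1
  · -- `gR`
    have h5 := hcG R'
    rw [hR'c, hclR] at h5
    rw [Units.val_mul, Units.val_mul, tA_val, map_mul, map_add, map_one, toLaurent_X]
    have h6 : (eta R : RO ℤ) * ((cu : RO ℤ) * G.coeff R') =
        -(LaurentPolynomial.T 2 * toLaurent rho) * (1 + LaurentPolynomial.T 1) := by
      rw [h5, ← hbs]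
      ring
    rw [hT21] at h6
    linear_combination (LaurentPolynomial.T (-1) * LaurentPolynomial.T (-1) : RO ℤ) * h6 -
      (toLaurent rho * (1 + LaurentPolynomial.T 1) : RO ℤ) *
        (LaurentPolynomial.T (-1) * LaurentPolynomial.T 1 + 1) * TT1
  · -- `dr`
    intro i1 h1
    obtain ⟨hSi1, hRi1⟩ := hphS i1 h1
    have h5 := dr_of hRk hKm hD.bin Y.h0 hR'c h1 (eta S * tA) (eta R * tA) (fun nu n0 n1 hk =>
      hVv P L phi D eta S S1 R R1 r Y.i0 i1 nu hD h2 hM t00 mR (by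
        rw [hAS, hbs, tA_val, hT21]
        intro h6
        have h7 : (toLaurent (X * f) : RO ℤ) = toLaurent (X * rho) := by
          rw [h6, map_mul, toLaurent_X]
          linear_combination (LaurentPolynomial.T 1 * toLaurent rho : RO ℤ) * TT1
        have h8 := toLaurent_injective h7
        have h9 : (X * f).coeff 2 = (X * rho).coeff 2 := by rw [h8]
        rw [coeff_X_mul, coeff_X_mul, hrho1] at h9
        omega) hSi0 hRi1 n0 n1 hk)
    rw [hTS, hclG i1 h1, H75.T2C.supp_cst_mul cu.ne_zero] at h5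
    exact h5
  · -- `bad`
    intro i1 h1
    obtain ⟨hSi1, hRi1⟩ := hphS i1 h1
    -- a functional
    have h5 : rk ((US (eta R) R D : Submodule ℤ L) : Set L) < Module.finrank ℤ L := by
      have h6 : rk ((US (eta R) R D : Submodule ℤ L) : Set L) =
          Module.finrank ℤ (US (eta R) R D) := by
        unfold rk
        rw [Submodule.span_eq]
      rw [h6]
      refine lt_of_le_of_ne (Submodule.finrank_le _) fun h7 => mR.m0 (US_top h7 R1)
    obtain ⟨nu, hnu, hk⟩ := hKm L _ h5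
    have hv : ∀ b : L, phi b i1 = 0 → D.coeff b + (eta R : RO ℤ) * D.coeff (b + R) ≠ 0 →
        nu b = 0 := by
      intro b hb hne
      apply hk
      refine ⟨1, one_ne_zero, ?_⟩
      rw [one_smul]
      refine Submodule.subset_span (Or.inr ?_)
      have h7 := (hVco ℤ P L phi D R (eta R) hD.inj hD.bin (hD.bin R t00.ray.1) hRne).2.2.2.2
        i1 hRi1 ⟨b, hb⟩
      change vco (eta R) R D b ≠ 0
      rw [← h7, H47.cl_coeff_bin (co phi i1) R hRi1 (eta R) D (fun b hb' => hD.bin b hb' i1)]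
      exact hne
    have h6 := bad_of hRk hD.bin Y.h0 hR'c h1 (eta S * tA) (eta R) (hk S hSU) (hk R hRU) hnu
      (fun b hb0 hb1 hne => by
        by_cases h7 : D.coeff b + (eta R : RO ℤ) * D.coeff (b + R) = 0
        · have h8 : D.coeff (b + S) + (eta R : RO ℤ) * D.coeff (b + S + R) ≠ 0 := by
            intro h9
            apply hne
            unfold csm
            linear_combination h7 + ((eta S * tA : (RO ℤ)ˣ) : RO ℤ) * h9
          have h9 := hv (b + S) (by rw [map_add, Pi.add_apply, hb1, hSi1, add_zero]) h8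
          rw [map_add, hk S hSU, add_zero] at h9
          exact h9
        · exact hv b hb1 h7)
    rw [hTS, hclG i1 h1, H75.T2C.supp_cst_mul cu.ne_zero] at h6
    rw [mul_inv_cancel_right]
    exact h6
  · -- `x`
    intro i1 h1
    obtain ⟨hSi1, hRi1⟩ := hphS i1 h1
    have hS1i0 : phi S1 Y.i0 = 0 := by
      rcases hdis Y.i0 with h | h
      · rw [hSi0] at h
        exact absurd h one_ne_zero
      · exact h
    have hS1i1 : phi S1 i1 = 0 := by
      rcases t00.out i1 with h | h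
      · rw [hRi1] at h
        exact absurd h one_ne_zero
      · exact h.2
    -- the face
    obtain ⟨nuA, nA, nA1, nA0⟩ := nb_fun hNbr hSf hClp W hu hS rS1 hM.m0
    obtain ⟨nuB, nB, nB1, nB0⟩ := nb_fun hNbr hSf hClp W hu hS1 rS hM.m1
    obtain ⟨lam3, lX, lY, lQ, hl3⟩ := fun3 rS1 rS t00.ray hRneS1.symm hRneS.symm nA1 (nA S hSUS)
      (nA R t00.us0) nA0 nB1 (nB S1 hS1U) (nB R t00.us1) nB0
    have hfc := face3 hRy hE2 hD h2 rS t00.ray rS1 dSR hdis
      (fun i => (t00.out i).imp id And.right) lY lQ lX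
      (fun T hT h3 h4 h5 => hl3 T hT h5 h3 h4)
    have h6 : (eta S1 : RO ℤ) * csm D S R (-e) (eta R * tA) S1 =
        (1 + LaurentPolynomial.T (-1)) * ((eta S : RO ℤ) * D.coeff S +
          LaurentPolynomial.T (-1) * ((eta R : RO ℤ) * r)) := by
      rw [← hTS]
      unfold csm
      rw [Units.val_mul, Units.val_mul, tA_val]
      have h7 := t00.c01
      have h8 := t00.c11
      rw [add_comm R S1] at h7
      rw [show R + S + S1 = S1 + S + R by abel] at h8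
      rw [add_comm S S1] at hA11
      linear_combination hA1 - (LaurentPolynomial.T (-1) : RO ℤ) * hA11 -
        (eta R : RO ℤ) * LaurentPolynomial.T (-1) * h7 +
        (eta R : RO ℤ) * LaurentPolynomial.T (-1) * LaurentPolynomial.T (-1) * h8
    rw [hAS, hbs, hT21, map_mul, toLaurent_X] at h6
    have hval : ((-(cu * eta S1) : (RO ℤ)ˣ) : RO ℤ) * csm D S R (-e) (eta R * tA) S1 =
        (cu : RO ℤ) * toLaurent ((1 + X) * (rho - f)) := by
      rw [Units.val_neg, Units.val_mul, map_mul, map_add, map_one, toLaurent_X, map_sub]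
      linear_combination (-(cu : RO ℤ)) * h6 +
        (cu : RO ℤ) * ((toLaurent rho - toLaurent f) +
          LaurentPolynomial.T 1 * toLaurent rho * (1 + LaurentPolynomial.T (-1)) : RO ℤ) * TT1
    have hne : csm D S R (-e) (eta R * tA) S1 ≠ 0 := by
      intro h0
      rw [h0, mul_zero] at hval
      have h7 : (toLaurent ((1 + X) * (rho - f)) : RO ℤ) = 0 :=
        (mul_eq_zero.1 hval.symm).resolve_left cu.ne_zero
      rw [toLaurent_eq_zero] at h7
      have h8 : ((1 + X) * (rho - f) : ℤ[X]).coeff 1 = 1 := by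
        have h9 : ((1 + X) * (rho - f) : ℤ[X]) = (rho - f) + X * (rho - f) := by ring
        rw [h9, coeff_add, coeff_X_mul, coeff_sub, coeff_sub, hrho0, hu, hrho1]
        have h10 : f'.coeff 1 = f.coeff 1 := by omega
        rw [h10]
        ring
      rw [h7, coeff_zero] at h8
      exact zero_ne_one h8
    obtain ⟨x, hx, rx⟩ := ray_dbl hD.bin Y.h0 hR'c h1 (-e) (eta R * tA) dSR hS1i0 hS1i1 rS1.2.1
      lY lQ lX hfc hne
    have h7 := csm_coeff hD.bin Y.h0 hR'c h1 (-e) (eta R * tA) x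
    rw [hclG i1 h1, H75.T2C.cst_mul_coeff, hx] at h7
    refine ⟨x, -(cu * eta S1), ?_, ?_⟩
    · refine ray_tr ?_ rx
      rw [hclG i1 h1, H75.T2C.supp_cst_mul cu.ne_zero]
    · rw [← h7] at hval
      have h8 : (cu : RO ℤ) * (((-(cu * eta S1) : (RO ℤ)ˣ) : RO ℤ) *
          (cl (co (phO phi S Y.i0) i1) R' h1 (eta R * tA) G).coeff x) =
          (cu : RO ℤ) * toLaurent ((1 + X) * (rho - f)) := by
        rw [← hval]
        ring
      exact mul_left_cancel₀ cu.ne_zero h8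
  · -- `t`
    intro i1 h1
    obtain ⟨hSi1, hRi1⟩ := hphS i1 h1
    have hR1i0 : phi R1 Y.i0 = 0 := port_zero dSR1 hSi0
    have hR1i1 : phi R1 i1 = 0 := port_zero dRR1 hRi1
    -- the face
    obtain ⟨nuA, nA, nA1, nA0⟩ := nb_fun hNbr hSf hClp W' hu' hR mR.r1 mR.m0
    obtain ⟨nuB, nB, nB1, nB0⟩ := nb_fun hNbr hSf hClp W' hu' hR1 mR.r0 mR.m1
    obtain ⟨lam3, lX, lY, lQ, hl3⟩ := fun3 mR.r1 mR.r0 rS hSneR1.symm hRneS nA1 (nA R hRU)
      (nA S hSU) nA0 nB1 (nB R1 hR1U) (nB S hSU1) nB0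
    have hfc := face3 hRy hE2 hD h2 rS t00.ray mR.r1 dSR dSR1 dRR1 lQ lY lX
      (fun T hT h3 h4 h5 => hl3 T hT h5 h4 h3)
    rw [hclR] at hcR1
    have hval : ((tA * eta R1 : (RO ℤ)ˣ) : RO ℤ) * csm D S R (-e) (eta R * tA) R1 =
        toLaurent ((1 + X) ^ 2 * rho) := by
      rw [Units.val_mul, tA_val, map_mul, map_pow, map_add, map_one, toLaurent_X]
      rw [hT21] at hbs
      linear_combination (-(LaurentPolynomial.T (-1)) : RO ℤ) * hcR1 -
        (LaurentPolynomial.T (-1) * (1 + LaurentPolynomial.T (-1)) *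
          (1 + LaurentPolynomial.T 1) : RO ℤ) * hbs + ((1 + LaurentPolynomial.T 1) *
          toLaurent rho * (LaurentPolynomial.T 1 + LaurentPolynomial.T (-1) *
            LaurentPolynomial.T 1 + 1) : RO ℤ) * TT1
    have hne : csm D S R (-e) (eta R * tA) R1 ≠ 0 := by
      intro h0
      rw [h0, mul_zero] at hval
      have h7 := hval.symm
      rw [toLaurent_eq_zero] at h7
      have h8 : ((1 + X) ^ 2 * rho : ℤ[X]).coeff 0 = 1 := by
        rw [mul_coeff_zero, hrho0, pow_two, mul_coeff_zero]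
        simp
      rw [h7, coeff_zero] at h8
      exact zero_ne_one h8
    obtain ⟨x, hx, rx⟩ := ray_dbl hD.bin Y.h0 hR'c h1 (-e) (eta R * tA) dSR hR1i0 hR1i1
      mR.r1.2.1 lQ lY lX hfc hne
    have h7 := csm_coeff hD.bin Y.h0 hR'c h1 (-e) (eta R * tA) x
    rw [hclG i1 h1, H75.T2C.cst_mul_coeff, hx] at h7
    refine ⟨x, tA * eta R1 * cu, ?_, ?_⟩
    · refine ray_tr ?_ rx
      rw [hclG i1 h1, H75.T2C.supp_cst_mul cu.ne_zero]
    · rw [← hval, ← h7, Units.val_mul (tA * eta R1) cu]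
      ring
  · intro K hK
    exact W.ko.ih K (by omega)

/-- (PX) `C` a component at the B-loads, `S`, `S1` a mutual pair of it; no ray `R` of type (0,0)
lies in a component `C'` at the B-loads, if `R` has a mutual partner `R1` with `S ∈ U_(R1)`
(for example if `S` is not in `C'`). -/
theorem px_false (hM1 : M1S) (hMm : MmulS) (hMV : MVS) (hE1 : E1S) (hE2 : E2S) (hPc : PCZS)
    (hClp : ClpS) (hC0 : Coeff0S) (hG0 : G0S) (hI1 : Inj1S) (hRk : RkS) (hFD : FDS)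
    (hWW : WWfS) (hRF : RayFacS) (hMug : MugS) (hMco : McoS) (hCu : CuspS) (hSf : SfzS)
    (hTr : TrezS) (hTsa : TsaS) (hI3 : Io3S) (hMfc : MfcS) (hCa : Ca5S) (hGlc : GlcS)
    (hFou : FouS) (hDti : DtiS) (hNbr : NbrS) (hF1 : F1S) (hF2 : F2S) (hKm : KmuS)
    (hFsp : FspS) (hVco : VcoS) (hRy : RaySpanS) (hVf : KvfS) (hVv : KvvS) (hT : TsgS)
    (hNd : Nd3vS) (hNr : Nr3S) (hB : BpS) {q f f' : ℤ[X]} {a : ℝ} {j : ℕ}
    {eta : L → (RO ℤ)ˣ} {C C' : Set L} (W : KcB phi D q f a j eta 1 C) (hu : f.coeff 0 = 1)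
    (hn : f.coeff 1 - q.coeff 1 = j + 1) (W' : KcB phi D q f' a j eta 1 C')
    (hu' : f'.coeff 0 = 1) (hn' : f'.coeff 1 - q.coeff 1 = j + 1) {S S1 R R1 : L} {r : RO ℤ}
    (hS : S ∈ C) (hS1 : S1 ∈ C) (hM : Mut D S S1 (eta S) (eta S1)) (hR : R ∈ C')
    (hR1 : R1 ∈ C') (mR : Mut D R R1 (eta R) (eta R1)) (t00 : T00 phi D eta S S1 R r)
    (hSU1 : S ∈ US (eta R1) R1 D) : False := by
  obtain ⟨Q, K, _, _, _, _, _, psi, G, R', er, u, E, rho, h⟩ := ph_of hM1 hMm hMV hE1 hE2 hPc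
    hClp hC0 hG0 hI1 hRk hFD hWW hRF hMug hMco hCu hSf hTr hTsa hI3 hMfc hCa hGlc hFou hDti
    hNbr hF1 hF2 hKm hFsp hVco hRy hVf hVv W hu hn W' hu' hn' hS hS1 hM hR hR1 mR t00 hSU1
  exact ph_false hT hNd hNr hFD hG0 hC0 hE1 hE2 hMV hMm hRk hWW hRF hB h

/-- (PX) for two different components. -/
theorem px_comp (hM1 : M1S) (hMm : MmulS) (hMV : MVS) (hE1 : E1S) (hE2 : E2S) (hPc : PCZS)
    (hClp : ClpS) (hC0 : Coeff0S) (hG0 : G0S) (hI1 : Inj1S) (hRk : RkS) (hFD : FDS)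
    (hWW : WWfS) (hRF : RayFacS) (hMug : MugS) (hMco : McoS) (hCu : CuspS) (hSf : SfzS)
    (hTr : TrezS) (hTsa : TsaS) (hI3 : Io3S) (hMfc : MfcS) (hCa : Ca5S) (hGlc : GlcS)
    (hFou : FouS) (hDti : DtiS) (hNbr : NbrS) (hF1 : F1S) (hF2 : F2S) (hKm : KmuS)
    (hFsp : FspS) (hVco : VcoS) (hRy : RaySpanS) (hVf : KvfS) (hVv : KvvS) (hT : TsgS)
    (hNd : Nd3vS) (hNr : Nr3S) (hB : BpS) {q f f' : ℤ[X]} {a : ℝ} {j : ℕ}
    {eta : L → (RO ℤ)ˣ} {C C' : Set L} (W : KcB phi D q f a j eta 1 C) (hu : f.coeff 0 = 1)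
    (hn : f.coeff 1 - q.coeff 1 = j + 1) (W' : KcB phi D q f' a j eta 1 C')
    (hu' : f'.coeff 0 = 1) (hn' : f'.coeff 1 - q.coeff 1 = j + 1) {S S1 R : L} {r : RO ℤ}
    (hS : S ∈ C) (hS1 : S1 ∈ C) (hM : Mut D S S1 (eta S) (eta S1)) (hR : R ∈ C')
    (t00 : T00 phi D eta S S1 R r) (hSC : S ∉ C') : False := by
  obtain ⟨R1, hR1, mR⟩ := W'.kc.ex R hR
  refine px_false hM1 hMm hMV hE1 hE2 hPc
    hClp hC0 hG0 hI1 hRk hFD hWW hRF hMug hMco hCu hSf hTr hTsa hI3 hMfc hCa hGlc hFou hDti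
    hNbr hF1 hF2 hKm hFsp hVco hRy hVf hVv hT hNd hNr hB W hu hn W' hu' hn' hS hS1 hM hR hR1 mR
    t00 ?_
  by_contra hc
  exact hSC (W'.kc.mtl R1 hR1 S hM.r0 hc).1

end

end Pool.Agent.B5.KO.H40
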