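import Pool.Agent.Lib.MP_b5021c_nt.KO.H40.Side
import Pool.Agent.Lib.MP_b5021c_nt.KO.H13.L4e

/-!
# MP_b5021c_nt, all `θ`, K odd, (O4), row G4: two overlapping cycles; the leaf l = 4
-/

set_option linter.unusedSectionVars false

namespace Pool.Agent.B5.KO.H40

open scoped LaurentPolynomial
open Polynomial
open Pool.Agent.B5.KE
open Pool.Agent.B5.Nr.Sch
open Pool.Agent.B5.Nr (TrezS)
open Pool.Agent.B5.H61 (CuspS)
open Pool.Agent.B5.KO67 (upper aset ko_num double loadB_j)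
open Pool.Agent.B5.O4X

section

variable {P L : Type} [Fintype P] [DecidableEq P] [AddCommGroup L] [Module.Free ℤ L]
  [Module.Finite ℤ L] {phi : L →+ (P → ℤ)} {D : AO ℤ L} {eta : L → (RO ℤ)ˣ}

/-- The mirror image of a cycle: `Z 1`, `Z 0`, `Z (-1)`, … -/
theorem cyc_rev {k : ℕ} {Z : ZMod (k + 3) → L} {mu : ZMod (k + 3) → L →+ ℤ}
    (h : Cyc phi D eta k Z mu) :
    Cyc phi D eta k (fun i => Z (1 - i)) (fun i => -mu (1 - i)) where
  inj := fun i j hij => by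
    have h1 := h.inj hij
    have h2 : (1 : ZMod (k + 3)) - (1 - i) = 1 - (1 - j) := by rw [h1]
    rwa [sub_sub_cancel, sub_sub_cancel] at h2
  mtl := fun i => by
    have h1 := h.mtl (-i)
    rw [show -i + 1 = 1 - i by ring] at h1
    rw [show (1 : ZMod (k + 3)) - (i + 1) = -i by ring]
    exact ⟨h1.r1, h1.r0, h1.m1, h1.m0⟩
  dis := fun i j hij => h.dis (1 - i) (1 - j) (fun e => hij (by
    have h2 : (1 : ZMod (k + 3)) - (1 - i) = 1 - (1 - j) := by rw [e]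
    rwa [sub_sub_cancel, sub_sub_cancel] at h2))
  coe := fun i j => h.coe (1 - i) (1 - j)
  ker := fun i a => by
    rw [h.ker (1 - i) a, AddMonoidHom.neg_apply, neg_eq_zero]
  nxt := fun i => by
    have h1 := h.prv (1 - i)
    rw [show (1 : ZMod (k + 3)) - i - 1 = 1 - (i + 1) by ring] at h1
    rw [AddMonoidHom.neg_apply, h1, neg_neg]
  prv := fun i => by
    have h1 := h.nxt (1 - i)
    rw [show (1 : ZMod (k + 3)) - i + 1 = 1 - (i - 1) by ring] at h1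
    rw [AddMonoidHom.neg_apply, h1]
  oth := fun i T hT h1 h2 => by
    rw [AddMonoidHom.neg_apply, h.oth (1 - i) T hT
      (by rwa [show (1 : ZMod (k + 3)) - i + 1 = 1 - (i - 1) by ring])
      (by rwa [show (1 : ZMod (k + 3)) - i - 1 = 1 - (i + 1) by ring]), neg_zero]
  val := fun i a ha => by
    rw [AddMonoidHom.neg_apply]
    rcases h.val (1 - i) a ha with h1 | h1 | h1
    · exact Or.inl (by rw [h1, neg_zero])
    · exact Or.inr (Or.inr (by rw [h1]))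
    · exact Or.inr (Or.inl (by rw [h1, neg_neg]))

/-- The two points. -/
theorem tp_of (hMV : MVS) (hMm : MmulS) (hE1 : E1S) (hPc : PCZS) (hClp : ClpS) (hFD : FDS)
    (hSf : SfzS) (hGlc : GlcS) (hFou : FouS) (hDti : DtiS) {q f : ℤ[X]} {a : ℝ} {j : ℕ}
    {C : Set L} (W : KcB phi D q f a j eta 1 C) (hu : f.coeff 0 = 1) :
    Tp j q f (1 / ((j : ℝ) + 1)) (1 / (j : ℝ)) := by
  obtain ⟨S, hS⟩ := W.kc.ne
  obtain ⟨e, he, hR⟩ := W.rn S hS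
  obtain ⟨-, hB, -⟩ := loadB_j hMV hMm hE1 hPc hClp hFD hSf hGlc hFou hDti W hu hS he hR
  have hj := W.ko.j2
  have hj0 : (0 : ℝ) < j := by exact_mod_cast (by omega : 0 < j)
  have hlt := W.ko.lt
  refine ⟨hj, by field_simp, by field_simp, ?_, ?_⟩
  · refine hR.loc.qpos (by positivity) ?_
    rw [div_lt_iff₀ (by linarith)]
    linarith
  · rw [map_add, map_mul, aeval_X] at hB
    exact hB

/-- `V''` of `Z i`, `Z (i + 1)` or its mirror is drop free. -/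
def Dff (phi : L →+ (P → ℤ)) (D : AO ℤ L) (eta : L → (RO ℤ)ˣ) (S S1 : L) : Prop :=
  (∀ nu, Kil phi D S S1 (eta S * tA) (eta S1 * tC) nu → nu = 0) ∨
  (∀ nu, Kil phi D S1 S (eta S1 * tA) (eta S * tC) nu → nu = 0)

/-- One side of an overlap of two cycles (of any lengths). -/
theorem one_side (hU : UnitRS) (hM1 : M1S) (hMm : MmulS) (hMV : MVS) (hE1 : E1S) (hE2 : E2S)
    (hPc : PCZS) (hClp : ClpS) (hC0 : Coeff0S) (hG0 : G0S) (hI1 : Inj1S) (hRk : RkS)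
    (hFD : FDS) (hWW : WWfS) (hRF : RayFacS) (hMug : MugS) (hMco : McoS) (hCu : CuspS)
    (hSf : SfzS) (hTr : TrezS) (hTsa : TsaS) (hI3 : Io3S) (hMfc : MfcS) (hCa : Ca5S)
    (hGlc : GlcS) (hFou : FouS) (hDti : DtiS) (hF1 : F1S) (hRy : RaySpanS) (hRn : RnkS)
    (hO5 : H67.O5aS) (hBx : BpxS) (hBd : BpdqS) {q f f' : ℤ[X]} {a : ℝ} {j : ℕ} {C C' : Set L}
    (W : KcB phi D q f a j eta 1 C) (hu : f.coeff 0 = 1)
    (hn : f.coeff 1 - q.coeff 1 = j + 1) (W' : KcB phi D q f' a j eta 1 C')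
    (hu' : f'.coeff 0 = 1) {k k' : ℕ} {Z : ZMod (k + 3) → L} {mu : ZMod (k + 3) → L →+ ℤ}
    {Z' : ZMod (k' + 3) → L} {mu' : ZMod (k' + 3) → L →+ ℤ} (h : Cyc phi D eta k Z mu)
    (h' : Cyc phi D eta k' Z' mu') (hne : ∀ m n, Z m ≠ Z' n) {i : ZMod (k + 3)}
    {i' : ZMod (k' + 3)} (hZC : Z i ∈ C) (hZC' : Z' i' ∈ C')
    (hd : Dff phi D eta (Z i) (Z (i + 1))) {p0 : P}
    (hp : phi (Z i) p0 = 1 ∨ phi (Z (i + 1)) p0 = 1) (hp' : phi (Z' i') p0 = 1) :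
    ∃ p c P' g : ℤ[X], L4p j q f f' p c P' g := by
  have hM : Mut D (Z i) (Z (i + 1)) (eta (Z i)) (eta (Z (i + 1))) := h.mtl i
  have hZ1 : Z (i + 1) ∈ C := (W.kc.mtl _ hZC _ hM.r1 hM.m0).1
  obtain ⟨e, he, hR⟩ := W'.rn (Z' i') hZC'
  have hRf : (eta (Z' i') : RO ℤ) * D.coeff (Z' i') = toLaurent (X * f') := by
    have h3 := ld_S hR 1
    rw [pow_one] at h3
    rw [he]
    exact h3
  have n0 : mu' i' (Z i) = 0 := h'.oth i' (Z i) hM.r0 (hne _ _) (hne _ _)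
  have n1 : mu' i' (Z (i + 1)) = 0 := h'.oth i' (Z (i + 1)) hM.r1 (hne _ _) (hne _ _)
  have hn0 : mu' i' ≠ 0 := by
    intro h3
    have h5 := h'.nxt i'
    rw [h3, AddMonoidHom.zero_apply] at h5
    exact zero_ne_one h5
  rcases hd with hA | hA
  · exact side hU hM1 hMm hMV hE1 hE2 hPc hClp hC0 hG0 hI1 hRk hFD hWW hRF hMug hMco hCu hSf
      hTr hTsa hI3 hMfc hCa hGlc hFou hDti hF1 hRy hRn hO5 hBx hBd W hu hn h i hZC hA
      (h'.mtl i').r0 (fun n => hne n i') ⟨p0, hp', hp⟩ hRf hu' n0 n1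
      (fun x hx => (h'.ker i' x).mp hx) hn0
  · have e1 : (1 : ZMod (k + 3)) - (-i + 1) = i := by ring
    have e2 : (1 : ZMod (k + 3)) - -i = i + 1 := by ring
    refine side hU hM1 hMm hMV hE1 hE2 hPc hClp hC0 hG0 hI1 hRk hFD hWW hRF hMug hMco hCu hSf
      hTr hTsa hI3 hMfc hCa hGlc hFou hDti hF1 hRy hRn hO5 hBx hBd W hu hn (cyc_rev h) (-i)
      ?_ ?_ (h'.mtl i').r0 (fun n => hne _ i') ⟨p0, hp', ?_⟩ hRf hu' ?_ ?_
      (fun x hx => (h'.ker i' x).mp hx) hn0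
    · rw [e2]
      exact hZ1
    · rw [e1, e2]
      exact hA
    · rw [e1, e2]
      exact hp.symm
    · rw [e2]
      exact n1
    · rw [e1]
      exact n0

/-- (G4) Rays of two cycles of B-components, with drop free `V''` (or mirror), do not overlap. -/
theorem ovl_false (hU : UnitRS) (hM1 : M1S) (hMm : MmulS) (hMV : MVS) (hE1 : E1S) (hE2 : E2S)
    (hPc : PCZS) (hClp : ClpS) (hC0 : Coeff0S) (hG0 : G0S) (hI1 : Inj1S) (hRk : RkS)
    (hFD : FDS) (hWW : WWfS) (hRF : RayFacS) (hMug : MugS) (hMco : McoS) (hCu : CuspS)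
    (hSf : SfzS) (hTr : TrezS) (hTsa : TsaS) (hI3 : Io3S) (hMfc : MfcS) (hCa : Ca5S)
    (hGlc : GlcS) (hFou : FouS) (hDti : DtiS) (hF1 : F1S) (hRy : RaySpanS) (hRn : RnkS)
    (hO5 : H67.O5aS) (hBx : BpxS) (hBd : BpdqS) {q f f' : ℤ[X]} {a : ℝ} {j : ℕ} {C C' : Set L}
    (W : KcB phi D q f a j eta 1 C) (hu : f.coeff 0 = 1)
    (hn : f.coeff 1 - q.coeff 1 = j + 1) (W' : KcB phi D q f' a j eta 1 C')
    (hu' : f'.coeff 0 = 1) (hn' : f'.coeff 1 - q.coeff 1 = j + 1) {k k' : ℕ}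
    {Z : ZMod (k + 3) → L} {mu : ZMod (k + 3) → L →+ ℤ}
    {Z' : ZMod (k' + 3) → L} {mu' : ZMod (k' + 3) → L →+ ℤ} (h : Cyc phi D eta k Z mu)
    (h' : Cyc phi D eta k' Z' mu') (hne : ∀ m n, Z m ≠ Z' n) {i : ZMod (k + 3)}
    {i' : ZMod (k' + 3)} (hZC : Z i ∈ C) (hZC' : Z' i' ∈ C')
    (hd : Dff phi D eta (Z i) (Z (i + 1))) (hd' : Dff phi D eta (Z' i') (Z' (i' + 1))) {p0 : P}
    (hp : phi (Z i) p0 = 1) (hp' : phi (Z' i') p0 = 1) : False := by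
  have hD := W.ko.min.fp.dd
  have hj := W.ko.j2
  have hrk := W.ko.rk
  obtain ⟨p, c, P', g, hL⟩ := one_side hU hM1 hMm hMV hE1 hE2 hPc hClp hC0 hG0 hI1 hRk hFD hWW hRF
    hMug hMco hCu hSf hTr hTsa hI3 hMfc hCa hGlc hFou hDti hF1 hRy hRn hO5 hBx hBd W hu hn W' hu'
    h h' hne hZC hZC' hd (Or.inl hp) hp'
  obtain ⟨p', c', P'', g', hL'⟩ := one_side hU hM1 hMm hMV hE1 hE2 hPc hClp hC0 hG0 hI1 hRk hFD
    hWW hRF hMug hMco hCu hSf hTr hTsa hI3 hMfc hCa hGlc hFou hDti hF1 hRy hRn hO5 hBx hBd W' hu'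
    hn' W hu h' h (fun m n => (hne n m).symm) hZC' hZC hd' (Or.inl hp') hp
  refine l4_end (tp_of hMV hMm hE1 hPc hClp hFD hSf hGlc hFou hDti W hu)
    (tp_of hMV hMm hE1 hPc hClp hFD hSf hGlc hFou hDti W' hu') hL hL' ?_
  intro h0
  obtain ⟨zc, hzc⟩ := circle_of Complex.I (by simp)
  have h5 := (hE2 ℤ P L phi D hD (by omega)).1 zc
  rw [W.ko.D0, evR_poly, hzc] at h5
  exact h5 h0

/-- (L4) No counterexample in which every ray lies in a 4-cycle at the B-loads. -/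
theorem l4_false (hU : UnitRS) (hM1 : M1S) (hMm : MmulS) (hMV : MVS) (hE1 : E1S) (hE2 : E2S)
    (hPc : PCZS) (hClp : ClpS) (hC0 : Coeff0S) (hG0 : G0S) (hI1 : Inj1S) (hRk : RkS)
    (hFD : FDS) (hWW : WWfS) (hRF : RayFacS) (hMug : MugS) (hMco : McoS) (hCu : CuspS)
    (hSf : SfzS) (hTr : TrezS) (hTsa : TsaS) (hI3 : Io3S) (hMfc : MfcS) (hCa : Ca5S)
    (hGlc : GlcS) (hFou : FouS) (hDti : DtiS) (hNbr : NbrS) (hF1 : F1S) (hF2 : F2S)
    (hKm : KmuS) (hFsp : FspS) (hVco : VcoS) (hRy : RaySpanS) (hVf : KvfS) (hVv : KvvS)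
    (hT : TsgS) (hNd : Nd3vS) (hNr : Nr3S) (hRn : RnkS) (hO5 : H67.O5aS) (hBx : BpxS)
    (hBd : BpdqS) {q : ℤ[X]} {a : ℝ} {j : ℕ} (hko : Ko phi D q a j)
    (hAll : Ball phi D q a j eta) (h4 : Q4 phi D eta) : False := by
  have hB : BpS := bpS_of_bpxS hBx
  have hD := hko.min.fp.dd
  have hrk := hko.rk
  have hj := hko.j2
  have h2 : 2 ≤ Module.finrank ℤ L := by omega
  have hodd : Odd (Module.finrank ℤ L) := ⟨j, hrk⟩
  obtain ⟨Z, Z', mu, mu', h, h', hne, ⟨p0, hp0, hp0'⟩, hr, hr'⟩ := rel hE2 hD h2 hodd h4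
  obtain ⟨f, C, W, hu, hn, hZC⟩ := hAll (Z 0) (h.mtl 0).r0
  obtain ⟨f', C', W', hu', hn', hZC'⟩ := hAll (Z' 0) (h'.mtl 0).r0
  refine ovl_false hU hM1 hMm hMV hE1 hE2 hPc hClp hC0 hG0 hI1 hRk hFD hWW hRF hMug hMco hCu hSf
    hTr hTsa hI3 hMfc hCa hGlc hFou hDti hF1 hRy hRn hO5 hBx hBd W hu hn W' hu' hn' h h' hne hZC
    hZC' ?_ ?_ hp0 hp0'
  · have := df4_px hM1 hMm hMV hE1 hE2 hPc hClp hC0 hG0 hI1 hRk hFD hWW hRF hMug hMco hCu hSf
      hTr hTsa hI3 hMfc hCa hGlc hFou hDti hNbr hF1 hF2 hKm hFsp hVco hRy hVf hVv hT hNd hNr hB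
      hAll h4 h hr
    rw [zero_add]
    exact this
  · have := df4_px hM1 hMm hMV hE1 hE2 hPc hClp hC0 hG0 hI1 hRk hFD hWW hRF hMug hMco hCu hSf
      hTr hTsa hI3 hMfc hCa hGlc hFou hDti hNbr hF1 hF2 hKm hFsp hVco hRy hVf hVv hT hNd hNr hB
      hAll h4 h' hr'
    rw [zero_add]
    exact this

end

end Pool.Agent.B5.KO.H40
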