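import Pool.Agent.Lib.MP_b5021c_nt.KO.H40.K4x
import Pool.Agent.Lib.MP_b5021c_nt.KO.H13.L4e
import Pool.Agent.Lib.MP_b5021c_nt.KV.H09.Vsr

/-!
# MP_b5021c_nt, all `θ`, K odd, (O4), row OC_K4A: a 4-cycle with a killer
-/

set_option linter.unusedSectionVars false

namespace Pool.Agent.B5.KO.H40

open scoped LaurentPolynomial
open Polynomial
open Pool.Agent.B5.KE
open Pool.Agent.B5.Nr.Sch
open Pool.Agent.B5.Nr (TrezS)
open Pool.Agent.B5.H61 (CuspS)
open Pool.Agent.B5.H40 (uT)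
open Pool.Agent.B5.KV67 (TT1 tA_val)
open Pool.Agent.B5.KO67 (upper aset ko_num double2 loadB_j psd ims_psd psd_apply)
open Pool.Agent.B5.O4X
open Pool.Agent.B5.OC (Oc Kl Bnm)

/-- A functional which kills the closing `w^S = e` (port form) is zero on `U_S`. -/
theorem kw_us (hV : VcoS) {P L : Type} [Fintype P] [DecidableEq P] [AddCommGroup L]
    [Module.Free ℤ L] [Module.Finite ℤ L] {phi : L →+ (P → ℤ)} {G : AO ℤ L}
    (inj : Function.Injective phi) (bin : ∀ a ∈ supp G, Bin phi a) {S : L} (hS : Bin phi S)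
    (hS0 : S ≠ 0) {i : P} (hi : co phi i S = 1) {e : (RO ℤ)ˣ} {mu : L →+ ℤ}
    (hk : BPR.Kw phi G S i e mu) : ∀ a ∈ US e S G, mu a = 0 := by
  obtain ⟨v1, -, -, -, -⟩ := hV ℤ P L phi G S e inj bin hS hS0
  have hi' : phi S i = 1 := hi
  obtain ⟨k0, k1⟩ := hk
  have hspan : Submodule.span ℤ (insert S {a : L | vco e S G a ≠ 0}) ≤ Ker mu := by
    rw [Submodule.span_le]
    rintro a (rfl | ha)
    · exact k0
    · change mu a = 0
      by_contra hne
      apply ha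
      have h3 : vco e S G (a + (-(phi a i)) • S) = 0 := by
        rw [KV.H09.vco_port hV inj bin hS hS0 hi' e (by
          rw [map_add, map_zsmul, Pi.add_apply, Pi.smul_apply, hi']
          simp)]
        exact k1 _ (by
          change phi (a + (-(phi a i)) • S) i = 0
          rw [map_add, map_zsmul, Pi.add_apply, Pi.smul_apply, hi']
          simp) (by rw [map_add, map_zsmul, k0, smul_zero, add_zero]; exact hne)
      rw [v1] at h3
      exact (mul_eq_zero.mp h3).resolve_left (Units.ne_zero _)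
  rintro a ⟨n, hn, hna⟩
  have h3 : mu (n • a) = 0 := hspan hna
  rw [map_zsmul, smul_eq_mul] at h3
  exact (mul_eq_zero.mp h3).resolve_left hn

/-- The coefficients of a `z`-free element. -/
theorem zfree_at {L : Type} [AddCommGroup L] {G : AO ℤ L} (hG : ZFree G) (a : L) :
    ∃ n m : ℤ, G.coeff a = LaurentPolynomial.C n * LaurentPolynomial.T m := by
  obtain ⟨q, l, n0, hq, hG⟩ := hG
  by_cases h0 : ∃ k, (G.coeff a).coeff k ≠ 0
  · obtain ⟨k, hk⟩ := h0
    refine ⟨(G.coeff a).coeff k, k, ?_⟩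
    rw [← LaurentPolynomial.single_eq_C_mul_T]
    apply AddMonoidAlgebra.ext
    apply Finsupp.ext
    intro m
    rw [AddMonoidAlgebra.coeff_single, Finsupp.single_apply]
    by_cases hm : k = m
    · rw [if_pos hm, hm]
    · rw [if_neg hm]
      by_contra hne
      apply hm
      have h1 := hG a k hk
      have h2 := hG a m hne
      have h3 : (q : ℤ) * k = q * m := by rw [h1, h2]
      exact mul_left_cancel₀ (by exact_mod_cast hq.ne') h3
  · push Not at h0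
    refine ⟨0, 0, ?_⟩
    rw [map_zero, zero_mul]
    apply AddMonoidAlgebra.ext
    apply Finsupp.ext
    intro m
    exact h0 m

/-- The constant coefficient is zero-free, the ray is smaller on the circle. -/
theorem bda_z (hU : UnitRS) (hE2 : E2S) {P L : Type} [Fintype P] [DecidableEq P] [AddCommGroup L]
    [Module.Free ℤ L] [Module.Finite ℤ L] {phi : L →+ (P → ℤ)} {G : AO ℤ L} {N : ℕ} {S : L}
    {w e : (RO ℤ)ˣ} {p g : ℤ[X]} (B : Bdz phi G N S w e p g) :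
    (∀ z : ℂ, ‖z‖ ≤ 1 → (aeval z p : ℂ) ≠ 0) ∧
      ∀ z : ℂ, ‖z‖ = 1 → ‖(aeval z g : ℂ)‖ ≤ ‖(aeval z p : ℂ)‖ := by
  have hn2 := B.n2
  have hrk := B.rk
  have hE := hE2 ℤ P L phi G B.dd (by omega)
  have hwp := B.w0
  have hwg := B.wS
  have hcirc : ∀ z : ℂ, ‖z‖ = 1 → (aeval z p : ℂ) ≠ 0 := by
    intro z hz h0
    obtain ⟨zc, rfl⟩ := circle_of z hz
    have h3 := congrArg (evR zc) hwp
    rw [map_mul, evR_poly, h0] at h3
    have h4 : ‖evR zc (w : RO ℤ)‖ = 1 := H36.norm_evR_unit zc _ w.isUnit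
    rcases mul_eq_zero.mp h3 with h5 | h5
    · rw [h5, norm_zero] at h4
      exact zero_ne_one h4
    · exact hE.1 zc h5
  refine ⟨?_, ?_⟩
  · intro z hz
    rcases lt_or_eq_of_le hz with h4 | h4
    swap
    · exact hcirc z h4
    intro hpz
    obtain ⟨-, n0, g0, hg0, hg0', hz0⟩ := B.cv
    have h5 : (g0.coeff 0) ≠ 0 := by
      intro h6
      rw [h6, map_zero, norm_zero] at hg0'
      have : (N : ℝ) ≠ 0 := by exact_mod_cast (by omega : N ≠ 0)
      exact this hg0'.symm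
    obtain ⟨n, s, hs, hus⟩ := (hU ℤ _).mp w.isUnit
    obtain ⟨s', rfl⟩ := hs
    have hp0 := B.p0
    rw [hg0, hus] at hwp
    obtain ⟨-, h8⟩ := H56.nf_unique (n + n0) 0 (Polynomial.C (s' : ℤ) * g0) p (by
      rw [mul_coeff_zero, coeff_C_zero]
      exact mul_ne_zero (Units.ne_zero s') h5) (by
      rw [hp0]
      exact_mod_cast (by omega : N ≠ 0)) (by
      rw [LaurentPolynomial.T_add, map_mul, toLaurent_C, LaurentPolynomial.T_zero, one_mul]
      linear_combination hwp)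
    have h9 := hz0 z h4
    rw [ev_map] at h9
    rw [← h8, map_mul, aeval_C] at hpz
    rcases mul_eq_zero.mp hpz with h10 | h10
    · have h6 : ((s' : ℤ) : ℂ) = 0 := h10
      exact Units.ne_zero s' (by exact_mod_cast h6)
    · exact h9 h10
  · intro z hz
    obtain ⟨zc, rfl⟩ := circle_of z hz
    have h5 := (hE.2.2.2.2.2 S B.ray).1 zc
    have h6 := congrArg (fun r => ‖evR zc r‖) hwp
    have h7 := congrArg (fun r => ‖evR zc r‖) hwg
    simp only [map_mul, map_neg, norm_mul, norm_neg, evR_poly,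
      H36.norm_evR_unit zc _ w.isUnit, H36.norm_evR_unit zc _ e.isUnit, one_mul] at h6 h7
    rw [← h6, ← h7]
    exact h5

section

variable {P L : Type} [Fintype P] [DecidableEq P] [AddCommGroup L] [Module.Free ℤ L]
  [Module.Finite ℤ L] {phi : L →+ (P → ℤ)} {D : AO ℤ L} {eta : L → (RO ℤ)ˣ}
  {Z : ZMod (1 + 3) → L} {mu : ZMod (1 + 3) → L →+ ℤ}

/-- The flip at a killer. -/
theorem flipT (hF1 : F1S) (hF3 : F3S) (hD : DD phi D) (h : Cyc phi D eta 1 Z mu) {T : L}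
    (hT : Ray D T) (hTZ : ∀ j, T ≠ Z j) {e : (RO ℤ)ˣ} (hi : ∀ i, Z i ∉ US e T D) {a : L}
    {i : ZMod (1 + 3)} (ha : mu i a ≠ 0) (hd : ∀ p, phi a p = 0 ∨ phi T p = 0) :
    D.coeff a + (e : RO ℤ) * D.coeff (a + T) = 0 :=
  (hF1 ℤ P L phi D T e hD.inj hD.bin (hD.bin T hT.1) hT.2.1 a
    (fun hh => ha ((cyc_killer hF3 hD h hT hTZ (hi i) a hh).1))).2 hd

/-- The classes of `T` and `T + Z 2` in `V''`, for a killer `T`. -/
theorem cls_T (hF1 : F1S) (hF3 : F3S) (hD : DD phi D) (h : Cyc phi D eta 1 Z mu)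
    {nu : L →+ ℤ} (K : K4f D Z mu nu) {T : L} (hT : Ray D T) (hTZ : ∀ j, T ≠ Z j)
    {e : (RO ℤ)ˣ} (hi : ∀ i, Z i ∉ US e T D) (hd : ∀ i p, phi T p = 0 ∨ phi (Z i) p = 0)
    {f : ℤ[X]} (hco : ∀ i, (eta (Z i) : RO ℤ) * D.coeff (Z i) = toLaurent (X * f)) :
    (e : RO ℤ) * csm D (Z 0) (Z 1) (eta (Z 0) * tA) (eta (Z 1) * tC) T =
      (e : RO ℤ) * D.coeff T + toLaurent ((1 - X - X ^ 2) * f) ∧
    (e : RO ℤ) * ((eta (Z 2) : RO ℤ) *
      csm D (Z 0) (Z 1) (eta (Z 0) * tA) (eta (Z 1) * tC) (T + Z 2)) = toLaurent (X ^ 2 * f) := by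
  obtain ⟨⟨a0, a1, a2, a3⟩, ⟨b0, b1, b2, b3⟩, -⟩ := mu_vals h
  have hm : ∀ i, mu i T = 0 := fun i => h.oth i T hT (hTZ _) (hTZ _)
  have hs0 : Fre phi Z mu (0 : L) :=
    ⟨fun i p => Or.inl (by rw [map_zero]; rfl), fun i => map_zero _⟩
  have f0 := flipT hF1 hF3 hD h hT hTZ hi (a := Z 0) (i := 1) (by rw [b0]; norm_num)
    (fun p => (hd 0 p).symm)
  have f1 := flipT hF1 hF3 hD h hT hTZ hi (a := Z 1) (i := 0) (by rw [a1]; norm_num)
    (fun p => (hd 1 p).symm)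
  have f01 := flipT hF1 hF3 hD h hT hTZ hi (a := Z 0 + Z 1) (i := 0) (by
    rw [map_add, a0, a1]; norm_num) (fun p => by
      rcases hd 0 p with h3 | h3
      · exact Or.inr h3
      · rcases hd 1 p with h4 | h4
        · exact Or.inr h4
        · exact Or.inl (by rw [map_add, Pi.add_apply, h3, h4, add_zero]))
  obtain ⟨t1, -, -⟩ := tab4 hF1 hD h hs0 0
  rw [zero_add, zero_add, add_comm (Z 1) (Z 0)] at t1
  have h0 := hco 0
  have h1 := hco 1
  rw [map_mul, toLaurent_X] at h0 h1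
  rw [add_comm (Z 0) T] at f0
  rw [add_comm (Z 1) T] at f1
  rw [show Z 0 + Z 1 + T = T + Z 0 + Z 1 by abel] at f01
  refine ⟨?_, ?_⟩
  · unfold csm
    rw [Units.val_mul, Units.val_mul, tA_val, tC_val, map_mul, map_sub, map_sub, map_one,
      map_pow, toLaurent_X]
    linear_combination (-(eta (Z 0) : RO ℤ) * LaurentPolynomial.T (-1)) * f0 +
      ((eta (Z 1) : RO ℤ) * LaurentPolynomial.T 1) * f1 +
      (-(eta (Z 0) : RO ℤ) * LaurentPolynomial.T (-1) * ((eta (Z 1) : RO ℤ) *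
        LaurentPolynomial.T 1)) * f01 +
      (LaurentPolynomial.T (-1) : RO ℤ) * h0 - (LaurentPolynomial.T 1 : RO ℤ) * h1 +
      (toLaurent f : RO ℤ) * TT1 +
      (LaurentPolynomial.T (-1) * LaurentPolynomial.T 1 * (eta (Z 1) : RO ℤ)) * t1 -
      (LaurentPolynomial.T (-1) * LaurentPolynomial.T 1 : RO ℤ) * h1 -
      (LaurentPolynomial.T 1 * toLaurent f) * TT1
  · have hv : Fre phi Z mu T := ⟨hd, hm⟩
    have h3 := csm_v2 hF1 hD h hv tA tC
    have h4 := (opp_zero h K (hm 0) (hm 1) (K.oth T hT hTZ)).1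
    rw [h4, mul_zero, mul_zero, add_zero, tA_val, tC_val] at h3
    rw [h3, map_mul, map_pow, toLaurent_X]
    linear_combination (-LaurentPolynomial.T 1 * (eta (Z 0) : RO ℤ)) * f0 +
      (LaurentPolynomial.T 1 : RO ℤ) * h0 + ((eta (Z 0) : RO ℤ) * (1 - 1) *
        D.coeff (Z 0)) * TT1 - ((e : RO ℤ) * ((eta (Z 0) : RO ℤ) * D.coeff (T + Z 0))) * TT1

end

/-- (OC_K4A) a 4-cycle with a killer: the one-variable data. -/
theorem k4a (hU : UnitRS) (hUA : UnitAS) (hM1 : M1S) (hMm : MmulS) (hMV : MVS) (hE1 : E1S)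
    (hE2 : E2S) (hPc : PCZS) (hClp : ClpS) (hC0 : Coeff0S) (hG0 : G0S) (hI1 : Inj1S)
    (hRk : RkS) (hFD : FDS) (hWW : WWfS) (hRF : RayFacS) (hMug : MugS) (hMco : McoS)
    (hTr : TrezS) (hTsa : TsaS) (hMfc : MfcS) (hF1 : F1S) (hF2 : F2S) (hF3 : F3S)
    (hRy : RaySpanS) (hRn : RnkS) (hO5 : H67.O5aS) (hFsp : FspS) (hRes : ResKS)
    (hFact : FactS) (hC4 : C4S) (hThin : ThinS) (hMin : MinS) (hB5a : B5aS) (hVco : VcoS)
    (hBx : BpxS) (hBd : OC.BxdS) (hBf : OC.BxfS) : OC.K4aS := by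
  intro P L _ _ _ _ _ phi D q f E a j eta C Z mu T W hDes hKl
  obtain ⟨rT, hTZ, hV0, i, hi⟩ := hKl
  have h := W.cyc
  have W0 := W.kb
  have fp := W0.ko.min.fp
  have hD := fp.dd
  have hj := W0.ko.j2
  have hrk := W0.ko.rk
  have h2 : 2 ≤ Module.finrank ℤ L := by omega
  obtain ⟨g, e, hRT, hnd, hcase⟩ := hDes T rT
  obtain ⟨nu, K⟩ := k4f_of hRes hFact hC0 hE1 hMV hM1 hC4 hE2 hThin hF1 hF3 hMin hB5a hVco hWW
    hUA hI1 hMco W0.ko.min h2 h rT hTZ hV0 hi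
  have hall := kl_all hF3 hD h rT hTZ hi
  have rZ : ∀ i, Ray D (Z i) := fun i => (h.mtl i).r0
  have hd : ∀ m p, phi T p = 0 ∨ phi (Z m) p = 0 := fun m p =>
    (hF2 ℤ P L phi D (Z m) T (eta T) hD.inj hD.bin (rZ m) rT (hall m) p).symm
  have dis : ∀ i, phi (Z 0) i = 0 ∨ phi (Z 1) i = 0 := h.dis 0 1 (by decide)
  obtain ⟨Y, x, hx⟩ := dp_of hI1 fp (rZ 0) (rZ 1) (rZ 2) dis
    (fun e => absurd (h.inj e) (by decide)) (fun e => absurd (h.inj e) (by decide))
  obtain ⟨u, w, H, hdc, hw, hB, hIm⟩ := pk4 hU hM1 hMm hMV hE1 hE2 hPc hClp hC0 hG0 hI1 hRk hFD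
    hWW hRF hMug hMco hTr hTsa hMfc hF1 hRy hRn hO5 hFsp W K Y hx
  obtain ⟨V, hVd⟩ : ∃ V : ℤ[X], V = E - (1 + X) * f := ⟨_, rfl⟩
  rw [← hVd] at hB ⊢
  have hXV : X * V = (1 - X - X ^ 2) * f - q := by
    rw [hVd]
    linear_combination -W.eE
  obtain ⟨hz, hle⟩ := bda_z hU hE2 hB
  have hwx : ((-(w * (eta (Z 2) * tA)) : (RO ℤ)ˣ) : RO ℤ) * H.coeff x = toLaurent f := by
    have h3 := hB.wS
    rw [Units.val_neg, Units.val_mul]
    linear_combination -h3
  obtain ⟨hx1, hx2⟩ := hBx P (Ker Y.k1) (psd Y) H j x w _ V f hB.n2 hB.dd hB.cv hB.rk hB.ih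
    hB.ray hB.w0 hB.p0 hwx hB.g0
  have hf1 : f ≠ 1 := by
    intro h1
    exact one_bqx (h1 ▸ W.tp) (by rw [h1] at hXV; exact hXV) (hx2 h1)
  have nobin : ¬ Bnm j V f := by
    rintro ⟨k, t, r, hk, hp, hf⟩
    obtain ⟨ht, hr⟩ := bin_bds hk hp hf hz hle
    refine bin_fin hk W.tp hXV hp hf ?_ ht hr
    rintro rfl
    apply hf1
    rw [hf, map_zero, zero_mul, add_zero]
  obtain ⟨hj3, hV, hfk⟩ : j = 3 ∧ V = f + 2 ∧ ∀ k, 1 ≤ k → |f.coeff k| ≤ 1 := by
    rcases bpf_fin W.tp hXV (bpf_of_bpx (hx1 hf1)) with h3 | h3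
    · exact absurd h3 nobin
    · exact h3
  subst hj3
  obtain ⟨i2, hi2⟩ := exists_port hD (rZ 2)
  have q2 : phi (Z 2) i2 = 1 := hi2
  have q0 : phi (Z 0) i2 = 0 := (h.dis 0 2 (by decide) i2).resolve_right (by omega)
  have q1 : phi (Z 1) i2 = 0 := (h.dis 1 2 (by decide) i2).resolve_right (by omega)
  have hco : co (psd Y) i2 x = 1 := by
    change psd Y x i2 = 1
    rw [psd_apply, if_pos ⟨q0, q1⟩, hx]
    exact q2
  -- the good load of `Z 2` is full
  have hdf : ∀ mu' : Ker Y.k1 →+ ℤ, BPR.Kw (psd Y) H x i2 (eta (Z 2) * tA) mu' → mu' = 0 := by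
    intro mu' hmu'
    by_contra hmu0
    have hkill := kw_us hVco hB.dd.inj hB.dd.bin (hB.dd.bin x hB.ray.1) hB.ray.2.1 hco hmu'
    rcases hBd P (Ker Y.k1) (psd Y) H 3 x w (eta (Z 2) * tA) V f mu' hB.n2 hB.dd hB.cv hB.rk hB.ih
      hB.ray hB.w0 hB.p0 hB.wS hB.g0 hf1 hmu0 hkill with h3 | h3
    · exact nobin h3
    · rcases h3 with ⟨k, t, r, hk, hp, hf⟩ | ⟨s, M', F, hs, ⟨hM', -⟩, -⟩
      · apply nobin
        have ht : t = 0 := by
          have h4 := congrArg (fun p : ℤ[X] => p.coeff k) hp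
          have h5 : (V - f).coeff k = 0 := by
            rw [hV, add_sub_cancel_left]
            have h6 : (2 : ℤ[X]) = Polynomial.C 2 := rfl
            rw [h6, coeff_C, if_neg (by omega)]
          simp only [h5, coeff_add, coeff_C, if_neg (by omega : k ≠ 0), zero_add, coeff_C_mul,
            coeff_X_pow, if_true, mul_one] at h4
          exact h4.symm
        refine ⟨k, r, r, hk, ?_, hf⟩
        rw [hV]
        conv_lhs => rw [hf]
        have h6 : (Polynomial.C ((3 : ℕ) : ℤ) : ℤ[X]) = 3 := rfl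
        rw [h6]
        ring
      · omega
  obtain ⟨-, hzf⟩ : V - f = Polynomial.C (((3 : ℕ) : ℤ) - 1) ∧
      ZFree (cl (co (psd Y) i2) x hco (eta (Z 2) * tA) H) := by
    rcases hBf P (Ker Y.k1) (psd Y) H 3 x i2 hco w (eta (Z 2) * tA) V f hB.n2 hB.dd hB.cv hB.rk
      hB.ih hB.ray hB.w0 hB.p0 hB.wS hB.g0 hf1 hIm hdf with h3 | h3
    · exact absurd h3 nobin
    · exact h3
  -- the element `T`
  have p0 : phi (Z 0) Y.i0 = 1 := Y.h0
  have p1 : phi (Z 1) Y.i1 = 1 := by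
    have h1 := Y.hk Y.T
    rw [Y.h1, Y.eT] at h1
    exact h1.symm
  have t0 : phi T Y.i0 = 0 := (hd 0 Y.i0).resolve_right (by omega)
  have t1 : phi T Y.i1 = 0 := (hd 1 Y.i1).resolve_right (by omega)
  obtain ⟨xT, hxT⟩ : ∃ xT : Ker Y.k1, ((xT : Ker (co phi Y.i0)) : L) = T :=
    ⟨⟨⟨T, t0⟩, by rw [mem_Ker, Y.hk]; exact t1⟩, rfl⟩
  obtain ⟨n, m, hnm⟩ := zfree_at hzf ⟨xT, by
    rw [mem_Ker]
    change psd Y xT i2 = 0
    rw [psd_apply, if_pos ⟨q0, q1⟩, hxT]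
    exact (hd 2 i2).resolve_right (by omega)⟩
  rw [H47.cl_coeff_bin (co (psd Y) i2) x hco (eta (Z 2) * tA) H
    (fun b hb => hB.dd.bin b hb i2)] at hnm
  obtain ⟨hcT, hcT2⟩ := cls_T hF1 hF3 hD h K rT hTZ hall hd W.co
  have hdT : (u : RO ℤ) * H.coeff xT = csm D (Z 0) (Z 1) (eta (Z 0) * tA) (eta (Z 1) * tC) T := by
    rw [← H71.cst_mul_coeff, ← hdc, dc_csm hD.bin dis, hxT]
  have hdT2 : (u : RO ℤ) * H.coeff (xT + x) =
      csm D (Z 0) (Z 1) (eta (Z 0) * tA) (eta (Z 1) * tC) (T + Z 2) := by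
    rw [← H71.cst_mul_coeff, ← hdc, dc_csm hD.bin dis]
    congr 1
    rw [← hxT, ← hx]
    rfl
  have hfin : ((eta T * u : (RO ℤ)ˣ) : RO ℤ) * (LaurentPolynomial.C n * LaurentPolynomial.T m) =
      (eta T : RO ℤ) * D.coeff T + toLaurent (f * (1 - 2 * X - X ^ 2)) := by
    rw [← hnm, Units.val_mul, Units.val_mul, tA_val]
    rw [← hdT] at hcT
    rw [← hdT2] at hcT2
    have e1 : (toLaurent (f * (1 - 2 * X - X ^ 2)) : RO ℤ) = toLaurent ((1 - X - X ^ 2) * f) -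
        LaurentPolynomial.T (-1) * toLaurent (X ^ 2 * f) := by
      rw [map_mul, map_mul, map_mul, map_sub, map_sub, map_sub, map_sub, map_mul, map_one,
        map_pow, toLaurent_X, show (2 : ℤ[X]) = Polynomial.C 2 from rfl, toLaurent_C]
      have h6 : (LaurentPolynomial.C (2 : ℤ) : RO ℤ) = 2 := map_ofNat _ 2
      rw [h6]
      linear_combination (LaurentPolynomial.T 1 * toLaurent f : RO ℤ) * TT1
    rw [e1]
    linear_combination hcT - (LaurentPolynomial.T (-1) : RO ℤ) * hcT2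
  obtain ⟨k0, s0, hs0, hus0⟩ := (hU ℤ _).mp (eta T * u).isUnit
  obtain ⟨n', m', hnm'⟩ : ∃ n' m' : ℤ, (eta T : RO ℤ) * D.coeff T +
      toLaurent (f * (1 - 2 * X - X ^ 2)) =
        LaurentPolynomial.C n' * LaurentPolynomial.T m' := by
    refine ⟨s0 * n, k0 + m, ?_⟩
    rw [← hfin, hus0, LaurentPolynomial.T_add, map_mul]
    ring
  -- the ray `T` of `V''`
  have cnT : ∀ (G : ℤ[X]) (v : (RO ℤ)ˣ), G.coeff 0 = 1 → (v : RO ℤ) * ((eta T : RO ℤ) *
      csm D (Z 0) (Z 1) (eta (Z 0) * tA) (eta (Z 1) * tC) T) = toLaurent G →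
        BPR.Cn 3 (f + 2) G := by
    intro G v hG0 hG
    have hGne : (toLaurent G : RO ℤ) ≠ 0 := by
      rw [toLaurent_ne_zero]
      intro h4
      rw [h4, coeff_zero] at hG0
      exact zero_ne_one hG0
    have hne : (dc Y (eta (Z 0) * tA) (eta (Z 1) * tC) D).coeff xT ≠ 0 := by
      rw [dc_csm hD.bin dis, hxT]
      intro h4
      rw [h4, mul_zero, mul_zero] at hG
      exact hGne hG.symm
    obtain ⟨lam, l0, l1, lT, lp⟩ := KO29.face h 0 rT (fun j => (hTZ j).symm)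
    rw [zero_add] at l1 lp
    have hface := face3 hRy hE2 hD h2 (rZ 0) (rZ 1) rT dis (fun p => (hd 0 p).symm)
      (fun p => (hd 1 p).symm) l0 l1 lT lp
    have hray := ray_dcY hD.bin dis Y _ _ hxT rT.2.1 l0 l1 lT hface hne
    have hrH : Ray H xT := by
      refine ray_congr ?_ hray
      rw [hdc, H56.supp_cst_mul u.ne_zero]
    rw [← hV]
    refine hBx P (Ker Y.k1) (psd Y) H 3 xT w (v * (eta T * u)) V G hB.n2 hB.dd hB.cv hB.rk hB.ih
      hrH hB.w0 hB.p0 ?_ hG0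
    rw [Units.val_mul, Units.val_mul, ← hG, ← hdT]
    ring
  refine ⟨rfl, hV, hfk, by rw [← hV]; exact hx1 hf1, by rw [← hV]; exact nobin, g, n', m', hRT.u,
    hRT.loc.le, ?_⟩
  rcases hcase with h3 | ⟨h3, h4, -⟩
  · left
    have h5 : (eta T : RO ℤ) * D.coeff T = toLaurent (X * g) := by
      have h6 := ld_S hRT 1
      rw [pow_one] at h6
      rw [h3]
      exact h6
    rw [← hnm', h5]
    refine ⟨rfl, ?_⟩
    rintro G hG hG0
    refine cnT G 1 hG0 ?_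
    rw [Units.val_one, one_mul, hcT, h5, hG, map_add]
  · right
    have h5 : (eta T : RO ℤ) * D.coeff T = -toLaurent g := by
      rw [h3, Units.val_neg, neg_mul, hRT.DS]
    rw [← hnm', h5]
    refine ⟨h4, ?_, rfl, ?_⟩
    · obtain ⟨E', -, hE0', hE1', -⟩ := typa hRT.loc h4 hRT.ne
      have h6 := KO67.n_ne_one_o hTr W0.ko rT hRT h4
      omega
    · intro G s i3 hs hG0 hG
      have h6 : (eta T : RO ℤ) * csm D (Z 0) (Z 1) (eta (Z 0) * tA) (eta (Z 1) * tC) T =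
          LaurentPolynomial.C s * LaurentPolynomial.T i3 * toLaurent G := by
        rw [hcT, h5, ← toLaurent_C, ← toLaurent_X_pow, ← map_mul, ← map_mul, hG, map_sub]
        ring
      have h7 : (LaurentPolynomial.T (-(i3 : ℤ)) : RO ℤ) * LaurentPolynomial.T i3 = 1 := by
        rw [← LaurentPolynomial.T_add, neg_add_cancel, LaurentPolynomial.T_zero]
      rcases hs with rfl | rfl
      · refine cnT G (uT 1 (-(i3 : ℤ))) hG0 ?_
        rw [H40.uT_val, Units.val_one, map_one, one_mul, h6, map_one, one_mul]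
        linear_combination (toLaurent G : RO ℤ) * h7
      · refine cnT G (uT (-1) (-(i3 : ℤ))) hG0 ?_
        rw [H40.uT_val, Units.val_neg, Units.val_one, h6, map_neg, map_one]
        linear_combination (toLaurent G : RO ℤ) * h7

end Pool.Agent.B5.KO.H40
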