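import Pool.Agent.Lib.MP_b5021c_nt.KO.H40.K4v
import Pool.Agent.Lib.MP_b5021c_nt.KO.H67.Imd
import Pool.Agent.Lib.MP_b5021c_nt.E.H47.E4

/-!
# MP_b5021c_nt, all `θ`, K odd, (O4), 4-cycles with a killer: the rays of `V''`
-/

set_option linter.unusedSectionVars false

namespace Pool.Agent.B5.KO.H40

open scoped LaurentPolynomial
open Polynomial
open Pool.Agent.B5.KE
open Pool.Agent.B5.Nr.Sch
open Pool.Agent.B5.Nr (TrezS)
open Pool.Agent.B5.H61 (CuspS)
open Pool.Agent.B5.KV67 (TT1 tA_val)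
open Pool.Agent.B5.O4X

section

variable {P L : Type} [Fintype P] [DecidableEq P] [AddCommGroup L] [Module.Free ℤ L]
  [Module.Finite ℤ L] {phi : L →+ (P → ℤ)} {D : AO ℤ L} {eta : L → (RO ℤ)ˣ}

/-- The coefficients of a double closing. -/
theorem dc_csm (hb : ∀ a ∈ supp D, Bin phi a) {S S1 : L} (dis : ∀ i, phi S i = 0 ∨ phi S1 i = 0)
    (Y : Dp phi S S1) (u0 u1 : (RO ℤ)ˣ) (x : Ker Y.k1) :
    (dc Y u0 u1 D).coeff x = csm D S S1 u0 u1 ((x : Ker (co phi Y.i0)) : L) :=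
  Pool.Agent.B5.E4.dc_coeff hb dis Y u0 u1 x

/-- A ray of a double closing, from a face spanned by three rays. -/
theorem ray_dcY (hb : ∀ a ∈ supp D, Bin phi a) {S S1 X : L}
    (dis : ∀ i, phi S i = 0 ∨ phi S1 i = 0) (Y : Dp phi S S1) (u0 u1 : (RO ℤ)ˣ)
    {x : Ker Y.k1} (hx : ((x : Ker (co phi Y.i0)) : L) = X) (hXne : X ≠ 0) {lam : L →+ ℤ}
    (lS : lam S = 0) (lS1 : lam S1 = 0) (lX : lam X = 0)
    (hl : ∀ y ∈ supp D, 0 ≤ lam y ∧
      (lam y = 0 → ∃ a b c : ℤ, (c = 0 ∨ c = 1) ∧ y = a • S + b • S1 + c • X))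
    (hc : (dc Y u0 u1 D).coeff x ≠ 0) : Ray (dc Y u0 u1 D) x := by
  have hS0 : phi S Y.i0 = 1 := Y.h0
  have hR0 : phi S1 Y.i0 = 0 := port_zero dis hS0
  have hR1 : phi S1 Y.i1 = 1 := by
    have h1 := Y.hk Y.T
    rw [Y.h1, Y.eT] at h1
    exact h1.symm
  have hS1 : phi S Y.i1 = 0 := (dis Y.i1).resolve_right (by omega)
  have hX0 : phi X Y.i0 = 0 := by
    rw [← hx]
    exact (x : Ker (co phi Y.i0)).2
  have hX1 : phi X Y.i1 = 0 := by
    have h4 := x.2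
    rw [mem_Ker, Y.hk, hx] at h4
    exact h4
  refine ⟨hc, ?_, (lam.comp (incl _)).comp (incl _), ?_, ?_⟩
  · intro h
    apply hXne
    rw [← hx, h]
    rfl
  · change lam ((x : Ker (co phi Y.i0)) : L) = 0
    rw [hx, lX]
  · intro b hbs hb0 hbx
    change 0 < lam ((b : Ker (co phi Y.i0)) : L)
    have h3 : (dc Y u0 u1 D).coeff b ≠ 0 := hbs
    rw [dc_csm hb dis] at h3
    obtain ⟨B, hB⟩ : ∃ B : L, B = ((b : Ker (co phi Y.i0)) : L) := ⟨_, rfl⟩
    rw [← hB] at h3 ⊢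
    have hB0 : phi B Y.i0 = 0 := by
      rw [hB]
      exact (b : Ker (co phi Y.i0)).2
    have hB1 : phi B Y.i1 = 0 := by
      have h4 := b.2
      rw [mem_Ker, Y.hk, ← hB] at h4
      exact h4
    obtain ⟨al, be, hy⟩ : ∃ al be : ℤ, D.coeff (B + al • S + be • S1) ≠ 0 := by
      by_contra hcon
      push Not at hcon
      apply h3
      unfold csm
      have q1 := hcon 0 0
      have q2 := hcon 1 0
      have q3 := hcon 0 1
      have q4 := hcon 1 1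
      simp only [zero_smul, one_smul, add_zero] at q1 q2 q3 q4
      rw [q1, q2, q3, q4]
      ring
    obtain ⟨h5, h6⟩ := hl _ hy
    have h7 : lam (B + al • S + be • S1) = lam B := by
      rw [map_add, map_add, map_zsmul, map_zsmul, lS, lS1, smul_zero, smul_zero, add_zero,
        add_zero]
    rw [h7] at h5 h6
    by_contra hneg
    obtain ⟨a', b', c', hcX, habc⟩ := h6 (by omega)
    have hi0 := congrFun (congrArg phi habc) Y.i0
    have hi1 := congrFun (congrArg phi habc) Y.i1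
    simp only [map_add, map_zsmul, Pi.add_apply, Pi.smul_apply, smul_eq_mul, hB0, hB1, hS0, hS1,
      hR0, hR1, hX0, hX1, mul_zero, mul_one, add_zero, zero_add] at hi0 hi1
    rw [hi0, hi1] at habc
    have hBX : B = c' • X := by
      have h8 : B + a' • S + b' • S1 = c' • X + a' • S + b' • S1 := by
        rw [habc]
        abel
      exact add_right_cancel (add_right_cancel h8)
    rcases hcX with h8 | h8
    · apply hb0
      apply Subtype.ext
      apply Subtype.ext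
      change ((b : Ker (co phi Y.i0)) : L) = 0
      rw [← hB, hBX, h8, zero_smul]
    · apply hbx
      apply Subtype.ext
      apply Subtype.ext
      rw [← hB, hBX, h8, one_smul, hx]

/-- The functional of a face spanned by three rays, general scale. -/
theorem fun3s {X Y Q : L} (rX : Ray D X) (rY : Ray D Y) (rQ : Ray D Q) (hXQ : X ≠ Q)
    (hYQ : Y ≠ Q) {nuA nuB : L →+ ℤ} (aX : nuA X < 0) (aY : nuA Y = 0) (aQ : nuA Q = 0)
    (a0 : ∀ T, Ray D T → T ≠ X → 0 ≤ nuA T) (bY : nuB Y < 0) (bX : nuB X = 0)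
    (bQ : nuB Q = 0) (b0 : ∀ T, Ray D T → T ≠ Y → 0 ≤ nuB T) :
    ∃ lam : L →+ ℤ, lam X = 0 ∧ lam Y = 0 ∧ lam Q = 0 ∧
      ∀ T, Ray D T → T ≠ X → T ≠ Y → T ≠ Q → 0 < lam T := by
  obtain ⟨-, -, lQ, lQ0, hlQ⟩ := rQ
  have qX : 0 < lQ X := hlQ X rX.1 rX.2.1 hXQ
  have qY : 0 < lQ Y := hlQ Y rY.1 rY.2.1 hYQ
  refine ⟨(nuA X * nuB Y) • lQ - (nuB Y * lQ X) • nuA - (nuA X * lQ Y) • nuB, ?_, ?_, ?_, ?_⟩
  · simp only [AddMonoidHom.sub_apply, AddMonoidHom.smul_apply, smul_eq_mul, bX]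
    ring
  · simp only [AddMonoidHom.sub_apply, AddMonoidHom.smul_apply, smul_eq_mul, aY]
    ring
  · simp only [AddMonoidHom.sub_apply, AddMonoidHom.smul_apply, smul_eq_mul, aQ, bQ, lQ0]
    ring
  · intro T hT h1 h2 h3
    simp only [AddMonoidHom.sub_apply, AddMonoidHom.smul_apply, smul_eq_mul]
    have e1 := mul_pos (mul_pos_of_neg_of_neg aX bY) (hlQ T hT.1 hT.2.1 h3)
    have e2 := mul_nonneg (mul_nonneg (neg_pos.mpr bY).le qX.le) (a0 T hT h1)
    have e3 := mul_nonneg (mul_nonneg (neg_pos.mpr aX).le qY.le) (b0 T hT h2)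
    nlinarith

variable {Z : ZMod (1 + 3) → L} {mu : ZMod (1 + 3) → L →+ ℤ}

/-- The face of `Z 0`, `Z 1`, `Z 2` for a 4-cycle with a killer. -/
theorem face_z2 (h : Cyc phi D eta 1 Z mu) {nu : L →+ ℤ} (K : K4f D Z mu nu) :
    ∃ lam : L →+ ℤ, lam (Z 0) = 0 ∧ lam (Z 1) = 0 ∧ lam (Z 2) = 0 ∧
      ∀ T, Ray D T → T ≠ Z 0 → T ≠ Z 1 → T ≠ Z 2 → 0 < lam T := by
  obtain ⟨⟨a0, a1, a2, a3⟩, ⟨b0, b1, b2, b3⟩, ⟨c0, c1, c2, c3⟩, d0, d1, d2, d3⟩ := mu_vals h
  have rZ : ∀ i, Ray D (Z i) := fun i => (h.mtl i).r0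
  have hn := K.n0
  have key : ∀ T, Ray D T → (∀ i, T ≠ Z i) ∨ T = Z 0 ∨ T = Z 1 ∨ T = Z 2 ∨ T = Z 3 := by
    intro T _
    by_cases hTZ : ∀ i, T ≠ Z i
    · exact Or.inl hTZ
    · push Not at hTZ
      obtain ⟨i, rfl⟩ := hTZ
      fin_cases i
      · exact Or.inr (Or.inl rfl)
      · exact Or.inr (Or.inr (Or.inl rfl))
      · exact Or.inr (Or.inr (Or.inr (Or.inl rfl)))
      · exact Or.inr (Or.inr (Or.inr (Or.inr rfl)))
  refine fun3s (rZ 0) (rZ 1) (rZ 2) (fun e => absurd (h.inj e) (by decide))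
    (fun e => absurd (h.inj e) (by decide))
    (nuA := nu (Z 0) • mu 1 - nu (Z 0) • mu 0 - nu) (nuB := mu 2) ?_ ?_ ?_ ?_ ?_ ?_ ?_ ?_
  · simp only [AddMonoidHom.sub_apply, AddMonoidHom.smul_apply, smul_eq_mul, a0, b0]
    omega
  · simp only [AddMonoidHom.sub_apply, AddMonoidHom.smul_apply, smul_eq_mul, a1, b1, K.n1]
    omega
  · simp only [AddMonoidHom.sub_apply, AddMonoidHom.smul_apply, smul_eq_mul, a2, b2, K.n2]
    omega
  · intro T hT hT0
    simp only [AddMonoidHom.sub_apply, AddMonoidHom.smul_apply, smul_eq_mul]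
    rcases key T hT with h1 | rfl | rfl | rfl | rfl
    · rw [h.oth 1 T hT (h1 _) (h1 _), h.oth 0 T hT (h1 _) (h1 _), K.oth T hT h1]
      omega
    · exact absurd rfl hT0
    · rw [a1, b1, K.n1]
      omega
    · rw [a2, b2, K.n2]
      omega
    · rw [a3, b3, K.n3]
      omega
  · rw [c1]
    norm_num
  · exact c0
  · exact c2
  · intro T hT hT1
    rcases key T hT with h1 | rfl | rfl | rfl | rfl
    · rw [h.oth 2 T hT (h1 _) (h1 _)]
    · rw [c0]
    · exact absurd rfl hT1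
    · rw [c2]
    · rw [c3]
      norm_num

end

end Pool.Agent.B5.KO.H40
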