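import Pool.Agent.Lib.MP_b5021c_nt.KO.H40.Df4u
import Pool.Agent.Lib.MP_b5021c_nt.KO.H40.Kil

/-!
# MP_b5021c_nt, all `θ`, K odd, (O4), 4-cycles with a killer: `V''` is drop free, faces
-/

set_option linter.unusedSectionVars false

namespace Pool.Agent.B5.KO.H40

open scoped LaurentPolynomial
open Polynomial
open Pool.Agent.B5.KE
open Pool.Agent.B5.Nr.Sch
open Pool.Agent.B5.Nr (TrezS)
open Pool.Agent.B5.H61 (CuspS)
open Pool.Agent.B5.KV67 (TT1 tA_val)
open Pool.Agent.B5.O4X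

section

variable {P L : Type} [Fintype P] [DecidableEq P] [AddCommGroup L] [Module.Free ℤ L]
  [Module.Finite ℤ L] {phi : L →+ (P → ℤ)} {D : AO ℤ L} {eta : L → (RO ℤ)ˣ}
  {Z : ZMod (1 + 3) → L} {mu : ZMod (1 + 3) → L →+ ℤ}

/-- The functional of a 4-cycle with a killer. -/
structure K4f (D : AO ℤ L) (Z : ZMod (1 + 3) → L) (mu : ZMod (1 + 3) → L →+ ℤ) (nu : L →+ ℤ) :
    Prop where
  n0 : 0 < nu (Z 0)
  n1 : nu (Z 1) = -nu (Z 0)
  n2 : nu (Z 2) = nu (Z 0)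
  n3 : nu (Z 3) = -nu (Z 0)
  oth : ∀ R, Ray D R → (∀ i, R ≠ Z i) → nu R = 0
  ev : ∀ a ∈ supp D, Even (mu 0 a + mu 1 a) → nu a = 0

/-- A killer of one ray of a cycle kills all of them. -/
theorem kl_all {k : ℕ} {Z : ZMod (k + 3) → L} {mu : ZMod (k + 3) → L →+ ℤ} (hF3 : F3S)
    (hD : DD phi D) (h : Cyc phi D eta k Z mu) {T : L} (hT : Ray D T) (hTZ : ∀ j, T ≠ Z j)
    {e : (RO ℤ)ˣ} {i : ZMod (k + 3)} (hi : Z i ∉ US e T D) : ∀ m, Z m ∉ US e T D := by
  have key : ∀ c : ℕ, Z (i + c) ∉ US e T D := by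
    intro c
    induction c with
    | zero => rwa [Nat.cast_zero, add_zero]
    | succ c ih =>
      intro hin
      have h1 := (cyc_killer hF3 hD h hT hTZ ih _ hin).1
      rw [Nat.cast_succ, ← add_assoc, h.nxt] at h1
      exact one_ne_zero h1
  intro m
  have h1 := key (ZMod.val (m - i))
  rw [ZMod.natCast_zmod_val] at h1
  rwa [add_sub_cancel] at h1

theorem k4f_of (hRes : ResKS) (hFact : FactS) (hC0 : Coeff0S) (hE1 : E1S) (hMV : MVS)
    (hM1 : M1S) (hC4 : C4S) (hE2 : E2S) (hThin : ThinS) (hF1 : F1S) (hF3 : F3S) (hMin : MinS)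
    (hB5a : B5aS) (hVco : VcoS) (hWWf : WWfS) (hU : UnitAS) (hI : Inj1S) (hMco : McoS) {θ : ℝ}
    (hM : MinD θ phi D) (h2 : 2 ≤ Module.finrank ℤ L) (h : Cyc phi D eta 1 Z mu)
    {T : L} (hT : Ray D T) (hTZ : ∀ j, T ≠ Z j) {e : (RO ℤ)ˣ}
    (hV0 : D.coeff 0 + (e : RO ℤ) * D.coeff T ≠ 0) {i : ZMod (1 + 3)} (hi : Z i ∉ US e T D) :
    ∃ nu, K4f D Z mu nu := by
  have h0 := kl_all hF3 hM.fp.dd h hT hTZ hi 0
  obtain ⟨-, -, nu, a0, a1, a2, a3, a4, a5⟩ := cyc_kil hRes hFact hC0 hE1 hMV hM1 hC4 hE2 hThin hF1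
    hF3 hMin hB5a hVco hWWf hU hI hMco hM h2 le_rfl h hT hTZ hV0 h0
  rw [show (0 + 1 : ZMod (1 + 3)) = 1 by decide] at a1 a4 a5
  rw [show (0 - 1 : ZMod (1 + 3)) = 3 by decide] at a2 a4
  rw [show (0 + 2 : ZMod (1 + 3)) = 2 by decide] at a3 a4
  rcases lt_or_gt_of_ne a0 with hs | hs
  · refine ⟨-nu, ?_, ?_, ?_, ?_, ?_, ?_⟩
    · rw [AddMonoidHom.neg_apply]; omega
    · rw [AddMonoidHom.neg_apply, AddMonoidHom.neg_apply, a1]
    · rw [AddMonoidHom.neg_apply, AddMonoidHom.neg_apply, a3]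
    · rw [AddMonoidHom.neg_apply, AddMonoidHom.neg_apply, a2]
    · intro R hR hRZ
      rw [AddMonoidHom.neg_apply, a4 R hR (hRZ _) (hRZ _) (hRZ _) (hRZ _), neg_zero]
    · intro a ha he
      rw [AddMonoidHom.neg_apply, a5 a ha he, neg_zero]
  · exact ⟨nu, hs, a1, a3, a2, fun R hR hRZ => a4 R hR (hRZ _) (hRZ _) (hRZ _) (hRZ _), a5⟩

/-- The values of the functionals of the 4-cycle. -/
theorem mu_vals (h : Cyc phi D eta 1 Z mu) : (mu 0 (Z 0) = 0 ∧ mu 0 (Z 1) = 1 ∧ mu 0 (Z 2) = 0 ∧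
    mu 0 (Z 3) = -1) ∧ (mu 1 (Z 0) = -1 ∧ mu 1 (Z 1) = 0 ∧ mu 1 (Z 2) = 1 ∧ mu 1 (Z 3) = 0) ∧
    (mu 2 (Z 0) = 0 ∧ mu 2 (Z 1) = -1 ∧ mu 2 (Z 2) = 0 ∧ mu 2 (Z 3) = 1) ∧
    (mu 3 (Z 0) = 1 ∧ mu 3 (Z 1) = 0 ∧ mu 3 (Z 2) = -1 ∧ mu 3 (Z 3) = 0) := by
  have hself : ∀ i, mu i (Z i) = 0 := fun i =>
    (h.ker i (Z i)).mp ⟨1, one_ne_zero, by
      rw [one_smul]
      exact Submodule.subset_span (Set.mem_insert _ _)⟩
  have hopp : ∀ i, mu i (Z (i + 2)) = 0 := by
    intro i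
    have d1 : ∀ i : ZMod (1 + 3), i + 2 ≠ i + 1 := by decide
    have d2 : ∀ i : ZMod (1 + 3), i + 2 ≠ i - 1 := by decide
    exact h.oth i (Z (i + 2)) (h.mtl _).r0 (fun e => d1 i (h.inj e)) (fun e => d2 i (h.inj e))
  have hn := h.nxt
  have hp := h.prv
  exact ⟨⟨hself 0, hn 0, hopp 0, hp 0⟩, ⟨hp 1, hself 1, hn 1, hopp 1⟩,
    ⟨hopp 2, hp 2, hself 2, hn 2⟩, ⟨hn 3, hopp 3, hp 3, hself 3⟩⟩

/-- The two opposite pairs over a free exponent. -/
theorem opp_zero (h : Cyc phi D eta 1 Z mu) {nu : L →+ ℤ} (K : K4f D Z mu nu) {v : L}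
    (m0 : mu 0 v = 0) (m1 : mu 1 v = 0) (hv : nu v = 0) :
    D.coeff (v + Z 2 + Z 0) = 0 ∧ D.coeff (v + Z 3 + Z 1) = 0 := by
  obtain ⟨⟨a0, a1, a2, a3⟩, ⟨b0, b1, b2, b3⟩, -, -⟩ := mu_vals h
  have hn := K.n0
  constructor
  · by_contra hc
    have h1 := K.ev _ hc (by
      rw [map_add, map_add, map_add, map_add, m0, m1, a2, a0, b2, b0]
      exact ⟨0, by norm_num⟩)
    rw [map_add, map_add, hv, K.n2] at h1
    omega
  · by_contra hc
    have h1 := K.ev _ hc (by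
      rw [map_add, map_add, map_add, map_add, m0, m1, a3, a1, b3, b1]
      exact ⟨0, by norm_num⟩)
    rw [map_add, map_add, hv, K.n3, K.n1] at h1
    omega

/-- (VDF) `V''` of a 4-cycle with a killer is drop free. -/
theorem vdf4 (hE2 : E2S) (hRk : RkS) (hF1 : F1S) (hI : Inj1S) (fp : FP phi D)
    (h2 : 2 ≤ Module.finrank ℤ L) (h : Cyc phi D eta 1 Z mu) {nu' : L →+ ℤ}
    (K : K4f D Z mu nu') (nu : L →+ ℤ)
    (hk : Kil phi D (Z 0) (Z 1) (eta (Z 0) * tA) (eta (Z 1) * tC) nu) : nu = 0 := by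
  have hD := fp.dd
  obtain ⟨⟨a0, a1, a2, a3⟩, ⟨b0, b1, b2, b3⟩, ⟨c0, c1, c2, c3⟩, d0, d1, d2, d3⟩ := mu_vals h
  have hfree : ∀ a : L, Out phi (Z 0) (Z 1) a → nu a ≠ 0 →
      D.coeff a + (eta (Z 0) : RO ℤ) * (-LaurentPolynomial.T (-1)) * D.coeff (a + Z 0) +
        (eta (Z 1) : RO ℤ) * LaurentPolynomial.T 1 * D.coeff (a + Z 1) +
        ((eta (Z 0) : RO ℤ) * (-LaurentPolynomial.T (-1))) *
          ((eta (Z 1) : RO ℤ) * LaurentPolynomial.T 1) * D.coeff (a + Z 0 + Z 1) = 0 := by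
    intro a ha hna
    have h3 := hk.free a ha hna
    rw [Units.val_mul, Units.val_mul, tA_val, tC_val] at h3
    exact h3
  have hs0 : Fre phi Z mu (0 : L) :=
    ⟨fun i p => Or.inl (by rw [map_zero]; rfl), fun i => map_zero _⟩
  have hw : (-LaurentPolynomial.T (-1) : RO ℤ) * LaurentPolynomial.T 1 = -1 := by
    rw [neg_mul, TT1]
  -- `e = 0` for a free exponent which is moved
  have key2 : ∀ v, Fre phi Z mu v → nu' v = 0 → nu (v + Z 2) ≠ 0 → D.coeff (v + Z 0) = 0 := by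
    intro v hv hv' hne
    have h3 := cls2 hF1 hD h hv hfree hne
    rw [(opp_zero h K (hv.2 0) (hv.2 1) hv').1, mul_zero, mul_zero, add_zero] at h3
    have h4 : (LaurentPolynomial.T 1 : RO ℤ) * ((eta (Z 0) : RO ℤ) * D.coeff (v + Z 0)) = 0 := by
      linear_combination -h3 + (eta (Z 0) : RO ℤ) * D.coeff (v + Z 0) * hw
    have h5 : (LaurentPolynomial.T 1 : RO ℤ) ≠ 0 := (LaurentPolynomial.isUnit_T 1).ne_zero
    exact (mul_eq_zero.mp ((mul_eq_zero.mp h4).resolve_left h5)).resolve_left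
      (eta (Z 0)).ne_zero
  have key3 : ∀ v, Fre phi Z mu v → nu' v = 0 → nu (v + Z 3) ≠ 0 → D.coeff (v + Z 0) = 0 := by
    intro v hv hv' hne
    have h3 := cls3 hF1 hD h hv hfree hne
    rw [(opp_zero h K (hv.2 0) (hv.2 1) hv').2, mul_zero, mul_zero, add_zero] at h3
    have h4 : (LaurentPolynomial.T (-1) : RO ℤ) * ((eta (Z 0) : RO ℤ) * D.coeff (v + Z 0)) = 0 := by
      linear_combination h3 - (eta (Z 0) : RO ℤ) * D.coeff (v + Z 0) * hw
    have h5 : (LaurentPolynomial.T (-1) : RO ℤ) ≠ 0 := (LaurentPolynomial.isUnit_T (-1)).ne_zero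
    exact (mul_eq_zero.mp ((mul_eq_zero.mp h4).resolve_left h5)).resolve_left
      (eta (Z 0)).ne_zero
  have r0 := (h.mtl 0).r0
  have n2 : nu (Z 2) = 0 := by
    by_contra hc
    have h3 := key2 0 hs0 (map_zero _) (by rwa [zero_add])
    rw [zero_add] at h3
    exact r0.1 h3
  have n3 : nu (Z 3) = 0 := by
    by_contra hc
    have h3 := key3 0 hs0 (map_zero _) (by rwa [zero_add])
    rw [zero_add] at h3
    exact r0.1 h3
  by_contra hn
  apply hn
  apply nu_zero hE2 hRk hD h2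
  intro T hT
  by_cases hTZ : ∀ i, T ≠ Z i
  swap
  · push Not at hTZ
    obtain ⟨i, rfl⟩ := hTZ
    fin_cases i
    · exact hk.s0
    · exact hk.s1
    · exact n2
    · exact n3
  by_contra hne
  have ho := kil_out hI fp r0 (h.mtl 1).r0 hk hT hne
  have hm : ∀ i, mu i T = 0 := fun i => h.oth i T hT (hTZ _) (hTZ _)
  have fin : D.coeff (T + Z 0) = 0 → D.coeff (T + Z 1) = 0 → D.coeff (T + Z 0 + Z 1) = 0 →
      False := by
    intro e0 e1 e2
    have h3 := hfree T ho hne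
    rw [e0, e1, e2, mul_zero, mul_zero, mul_zero, add_zero, add_zero, add_zero] at h3
    exact hT.1 h3
  by_cases hd : ∀ i p, phi T p = 0 ∨ phi (Z i) p = 0
  · have hv : Fre phi Z mu T := ⟨hd, hm⟩
    have e0 := key2 T hv (K.oth T hT hTZ) (by rw [map_add, n2, add_zero]; exact hne)
    obtain ⟨⟨e1, -⟩, -⟩ := val4 hF1 hD h hv
    rw [e0, mul_zero] at e1
    have e1' := (mul_eq_zero.mp e1).resolve_left (eta (Z 1)).ne_zero
    obtain ⟨-, e2, -⟩ := tab4 hF1 hD h hv 0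
    rw [zero_add, e0, zero_add] at e2
    exact fin e0 e1' ((mul_eq_zero.mp e2).resolve_left (eta (Z 1)).ne_zero)
  · push Not at hd
    obtain ⟨i, p, hp, hp'⟩ := hd
    have dT0 : ∀ p, phi T p = 0 ∨ phi (Z 0) p = 0 := fun p => (ho p).imp id And.left
    have dT1 : ∀ p, phi T p = 0 ∨ phi (Z 1) p = 0 := fun p => (ho p).imp id And.right
    have bT := hD.bin T hT.1
    have bZ : ∀ m, Bin phi (Z m) := fun m => hD.bin _ (h.mtl m).r0.1
    have hi0 : i ≠ 0 := fun e => by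
      subst e
      rcases dT0 p with h3 | h3
      · exact hp h3
      · exact hp' h3
    have hi1 : i ≠ 1 := fun e => by
      subst e
      rcases dT1 p with h3 | h3
      · exact hp h3
      · exact hp' h3
    -- the port of `Z i` outside `T`
    obtain ⟨p', hq, hq'⟩ : ∃ p', phi (Z i) p' = 1 ∧ phi T p' = 0 := by
      by_contra hcon
      push Not at hcon
      apply hTZ i
      symm
      apply KO.nst hI fp (h.mtl i).r0 hT
      intro m hm'
      by_contra h3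
      exact hcon m ((bZ i m).resolve_left h3) hm'
    have van : ∀ c, c = Z 0 ∨ c = Z 1 ∨ c = Z 0 + Z 1 → mu i (T + c) ≠ 0 →
        D.coeff (T + c) = 0 := by
      intro c hc hmc
      have dc : ∀ m, phi (Z i) m = 1 → phi c m = 0 := by
        intro m hm'
        have q0 : phi (Z 0) m = 0 := by
          rcases h.dis i 0 hi0 m with h3 | h3
          · omega
          · exact h3
        have q1 : phi (Z 1) m = 0 := by
          rcases h.dis i 1 hi1 m with h3 | h3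
          · omega
          · exact h3
        rcases hc with rfl | rfl | rfl
        · exact q0
        · exact q1
        · rw [map_add, Pi.add_apply, q0, q1, add_zero]
      have hpi := (bZ i p).resolve_left hp'
      refine (hF1 ℤ P L phi D (Z i) (eta (Z i)) hD.inj hD.bin (bZ i) (h.mtl i).r0.2.1 (T + c)
        (fun hh => hmc ((h.ker i _).mp hh))).1 ⟨p, ?_, hpi⟩ ⟨p', ?_, hq⟩
      · rw [map_add, Pi.add_apply, dc p hpi, add_zero]
        exact (bT p).resolve_left hp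
      · rw [map_add, Pi.add_apply, dc p' hq, hq', add_zero]
    fin_cases i
    · exact hi0 rfl
    · exact hi1 rfl
    · change ∀ c, c = Z 0 ∨ c = Z 1 ∨ c = Z 0 + Z 1 → mu 2 (T + c) ≠ 0 →
        D.coeff (T + c) = 0 at van
      have e1 := van (Z 1) (Or.inr (Or.inl rfl)) (by rw [map_add, hm, c1]; norm_num)
      have e2 := van (Z 0 + Z 1) (Or.inr (Or.inr rfl)) (by
        rw [map_add, map_add, hm, c0, c1]; norm_num)
      rw [← add_assoc] at e2
      have e0 := flip4 hF1 hD h 1 (a := T + Z 0) (by rw [map_add, hm, b0]; norm_num) (fun m => by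
        rcases dT1 m with h3 | h3
        · rcases h.dis 0 1 (by decide) m with h4 | h4
          · exact Or.inl (by rw [map_add, Pi.add_apply, h3, h4, add_zero])
          · exact Or.inr h4
        · exact Or.inr h3)
      rw [e2, mul_zero, add_zero] at e0
      exact fin e0 e1 e2
    · change ∀ c, c = Z 0 ∨ c = Z 1 ∨ c = Z 0 + Z 1 → mu 3 (T + c) ≠ 0 →
        D.coeff (T + c) = 0 at van
      have e0 := van (Z 0) (Or.inl rfl) (by rw [map_add, hm, d0]; norm_num)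
      have e2 := van (Z 0 + Z 1) (Or.inr (Or.inr rfl)) (by
        rw [map_add, map_add, hm, d0, d1]; norm_num)
      have e1 := flip4 hF1 hD h 0 (a := T + Z 1) (by rw [map_add, hm, a1]; norm_num) (fun m => by
        rcases dT0 m with h3 | h3
        · rcases h.dis 1 0 (by decide) m with h4 | h4
          · exact Or.inl (by rw [map_add, Pi.add_apply, h3, h4, add_zero])
          · exact Or.inr h4
        · exact Or.inr h3)
      rw [show T + Z 1 + Z 0 = T + (Z 0 + Z 1) by abel, e2, mul_zero, add_zero] at e1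
      rw [← add_assoc] at e2
      exact fin e0 e1 e2

end

end Pool.Agent.B5.KO.H40
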