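import Pool.Agent.Lib.MP_b5021c_nt.KO.H40.Ovl
import Pool.Agent.Lib.MP_b5021c_nt.KO.H40.K4w
import Pool.Agent.Lib.MP_b5021c_nt.KO.H67.L5a

/-!
# MP_b5021c_nt, all `θ`, K odd, (O4), ALPHA: the coefficients at two neutral cycles

`A : Alp phi D q f f' a j eta k k' Z mu Z' mu'`, the cycles have no common port.

* `alH D eta S R` : the coefficient of `S + R` in the loads; it is the same for all `Z i`, `Z' l`
  (`alH_all`), and symmetric.
* `alG f' H = X f' - T⁻¹ H` : the coefficient of `Z' l` in the closing A of a `Z i` (helper57's `vR`).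
* `alU f' H = X f' - T⁻¹ H + (1 + T) H` : the coefficient of `Z' l` in `V''` of `Z i`, `Z (i + 1)` and
  in its mirror image (`alp_dc`, `alp_dc'`).
* `alG_swap` : `alG f' H` of order two if and only if `alG f H` is, the same lead.
* `alU_two` : `alG f' H = T 2 p` implies `alU f' H = T 2 ((1 + X) f' + (1 - X - X²) p)`.
* `alU_ne` : `alU f' H ≠ 0` (PX).
-/

set_option linter.unusedSectionVars false

namespace Pool.Agent.B5.KO.H40

open scoped LaurentPolynomial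
open Polynomial
open Pool.Agent.B5.KE
open Pool.Agent.B5.Nr.Sch
open Pool.Agent.B5.Nr (TrezS)
open Pool.Agent.B5.H61 (CuspS)
open Pool.Agent.B5.KV67 (TT1 tA_val)
open Pool.Agent.B5.O4X
open Pool.Agent.B5.KO.H96 (Alp)

section

variable {P L : Type} [Fintype P] [DecidableEq P] [AddCommGroup L] [Module.Free ℤ L]
  [Module.Finite ℤ L] {phi : L →+ (P → ℤ)} {D : AO ℤ L} {eta : L → (RO ℤ)ˣ}

/-- The coefficient of `S + R` in the loads. -/
noncomputable def alH (D : AO ℤ L) (eta : L → (RO ℤ)ˣ) (S R : L) : RO ℤ :=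
  (eta S : RO ℤ) * ((eta R : RO ℤ) * D.coeff (S + R))

theorem alH_symm (S R : L) : alH D eta S R = alH D eta R S := by
  unfold alH
  rw [add_comm S R]
  ring

/-- A mutual pair and a neutral ray. -/
theorem alH_mut (hF1 : F1S) (hD : DD phi D) {S S1 R : L} (hM : Mut D S S1 (eta S) (eta S1))
    (dis : ∀ i, phi S i = 0 ∨ phi S1 i = 0) (ho : Out phi S S1 R) (u0 : R ∈ US (eta S) S D)
    (u1 : R ∈ US (eta S1) S1 D) : alH D eta S1 R = alH D eta S R ∧
      (eta S : RO ℤ) * (eta S1 : RO ℤ) * ((eta R : RO ℤ) * D.coeff (R + S + S1)) =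
        -alH D eta S R := by
  have hS := hF1 ℤ P L phi D S (eta S) hD.inj hD.bin (hD.bin S hM.r0.1) hM.r0.2.1
  have hS1 := hF1 ℤ P L phi D S1 (eta S1) hD.inj hD.bin (hD.bin S1 hM.r1.1) hM.r1.2.1
  have a0 : R + S ∉ US (eta S1) S1 D := fun h => hM.m1 (by
    have := Submodule.sub_mem _ h u1
    rwa [add_sub_cancel_left] at this)
  have a1 : R + S1 ∉ US (eta S) S D := fun h => hM.m0 (by
    have := Submodule.sub_mem _ h u0
    rwa [add_sub_cancel_left] at this)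
  have e0 := (hS1 _ a0).2 (fun i => by
    rw [map_add, Pi.add_apply]
    rcases dis i with h | h
    · rw [h, add_zero]
      exact (ho i).imp id And.right
    · exact Or.inr h)
  have e1 := (hS _ a1).2 (fun i => by
    rw [map_add, Pi.add_apply]
    rcases dis i with h | h
    · exact Or.inr h
    · rw [h, add_zero]
      exact (ho i).imp id And.left)
  rw [show R + S1 + S = R + S + S1 by abel] at e1
  unfold alH
  rw [add_comm S R, add_comm S1 R]
  constructor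
  · linear_combination ((eta S1 : RO ℤ) * (eta R : RO ℤ)) * e1 -
      ((eta S : RO ℤ) * (eta R : RO ℤ)) * e0
  · linear_combination ((eta S : RO ℤ) * (eta R : RO ℤ)) * e0

variable {q f f' : ℤ[X]} {a : ℝ} {j k k' : ℕ} {Z : ZMod (k + 3) → L}
  {mu : ZMod (k + 3) → L →+ ℤ} {Z' : ZMod (k' + 3) → L} {mu' : ZMod (k' + 3) → L →+ ℤ}

theorem out_of {S S1 R : L} (h0 : ∀ p, phi S p = 0 ∨ phi R p = 0)
    (h1 : ∀ p, phi S1 p = 0 ∨ phi R p = 0) : Out phi S S1 R := by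
  intro p
  rcases h0 p with h | h
  · rcases h1 p with h' | h'
    · exact Or.inr ⟨h, h'⟩
    · exact Or.inl h'
  · exact Or.inl h

/-- `alH` is constant. -/
theorem alH_all (hF1 : F1S) (A : Alp phi D q f f' a j eta k k' Z mu Z' mu')
    (hdis : ∀ i l p, phi (Z i) p = 0 ∨ phi (Z' l) p = 0) (i i' : ZMod (k + 3))
    (l l' : ZMod (k' + 3)) : alH D eta (Z i) (Z' l) = alH D eta (Z i') (Z' l') := by
  have hD := A.w.ko.min.fp.dd
  have h1 : ∀ l, alH D eta (Z i) (Z' l) = alH D eta (Z i') (Z' l) := by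
    intro l
    refine KO67.shift_all (fun i => alH D eta (Z i) (Z' l)) (fun i => ?_) i i'
    exact (alH_mut hF1 hD (A.c.mtl i) (A.c.dis i (i + 1) (KO.H40.idx k i).1)
      (out_of (hdis i l) (hdis (i + 1) l)) (A.nu i l _) (A.nu (i + 1) l _)).1
  have h2 : alH D eta (Z i') (Z' l) = alH D eta (Z i') (Z' l') := by
    refine KO67.shift_all (fun l => alH D eta (Z i') (Z' l)) (fun l => ?_) l l'
    rw [alH_symm, alH_symm (Z i')]
    exact (alH_mut hF1 hD (A.c'.mtl l) (A.c'.dis l (l + 1) (KO.H40.idx k' l).1)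
      (out_of (fun p => (hdis i' l p).symm) (fun p => (hdis i' (l + 1) p).symm)) (A.nu' i' l _)
      (A.nu' i' (l + 1) _)).1
  rw [h1, h2]

/-- The coefficient of a ray of a component. -/
theorem kcb_cf {C : Set L} (W : KcB phi D q f a j eta 1 C) {S : L} (hS : S ∈ C) :
    (eta S : RO ℤ) * D.coeff S = toLaurent (X * f) := by
  obtain ⟨e, he, hR⟩ := W.rn S hS
  have h1 := ld_S hR 1
  rw [pow_one] at h1
  rw [he]
  exact h1

/-- The coefficient of `Z' l` in the closing A of `Z i`. -/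
noncomputable def alG (f' : ℤ[X]) (H : RO ℤ) : RO ℤ :=
  toLaurent (X * f') - LaurentPolynomial.T (-1) * H

/-- The coefficient of `Z' l` in `V''` of `Z i`, `Z (i + 1)` and in its mirror image. -/
noncomputable def alU (f' : ℤ[X]) (H : RO ℤ) : RO ℤ :=
  alG f' H + (1 + LaurentPolynomial.T 1) * H

/-- The class of `Z' l`, any loads with `(1 - t0) (1 - t1) = 1/z - z`. -/
theorem alp_blk (hF1 : F1S) (A : Alp phi D q f f' a j eta k k' Z mu Z' mu')
    (hdis : ∀ i l p, phi (Z i) p = 0 ∨ phi (Z' l) p = 0) (i i' : ZMod (k + 3))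
    (l l' : ZMod (k' + 3)) {t0 t1 : (RO ℤ)ˣ} (ht : Lds t0 t1) :
    (eta (Z' l) : RO ℤ) * blk D (Z i) (Z (i + 1)) (eta (Z i) * t0) (eta (Z (i + 1)) * t1)
      (Z' l) = alU f' (alH D eta (Z i') (Z' l')) := by
  have hD := A.w.ko.min.fp.dd
  obtain ⟨h1, h2⟩ := alH_mut hF1 hD (A.c.mtl i) (A.c.dis i (i + 1) (KO.H40.idx k i).1)
    (out_of (hdis i l) (hdis (i + 1) l)) (A.nu i l _) (A.nu (i + 1) l _)
  rw [alH_all hF1 A hdis i' i l' l]
  have h3 := kcb_cf A.w' (S := Z' l) ⟨l, rfl⟩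
  unfold alU alG blk
  rw [← h3, Units.val_mul, Units.val_mul]
  unfold Lds at ht
  unfold alH at h1 h2 ⊢
  rw [add_comm (Z i) (Z' l)] at h1 h2 ⊢
  rw [add_comm (Z (i + 1)) (Z' l)] at h1
  linear_combination ((t1 : RO ℤ)) * h1 + ((t0 : RO ℤ) * (t1 : RO ℤ)) * h2 -
    ((eta (Z i) : RO ℤ) * ((eta (Z' l) : RO ℤ) * D.coeff (Z' l + Z i))) * ht

/-- The coefficient of `Z' l` in a double closing. -/
theorem alp_dc (hF1 : F1S) (A : Alp phi D q f f' a j eta k k' Z mu Z' mu')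
    (hdis : ∀ i l p, phi (Z i) p = 0 ∨ phi (Z' l) p = 0) (i i' : ZMod (k + 3))
    (l l' : ZMod (k' + 3)) {t0 t1 : (RO ℤ)ˣ} (ht : Lds t0 t1) (Y : Dp phi (Z i) (Z (i + 1)))
    {x : Ker Y.k1} (hx : ((x : Ker (co phi Y.i0)) : L) = Z' l) :
    (eta (Z' l) : RO ℤ) * (dc Y (eta (Z i) * t0) (eta (Z (i + 1)) * t1) D).coeff x =
      alU f' (alH D eta (Z i') (Z' l')) := by
  have hD := A.w.ko.min.fp.dd
  rw [← alp_blk hF1 A hdis i i' l l' ht, dc_csm hD.bin (A.c.dis i (i + 1) (KO.H40.idx k i).1),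
    hx]
  rfl

/-- The same in the mirror image. -/
theorem alp_dc' (hF1 : F1S) (A : Alp phi D q f f' a j eta k k' Z mu Z' mu')
    (hdis : ∀ i l p, phi (Z i) p = 0 ∨ phi (Z' l) p = 0) (i i' : ZMod (k + 3))
    (l l' : ZMod (k' + 3)) {t0 t1 : (RO ℤ)ˣ} (ht : Lds t0 t1) (Y : Dp phi (Z (i + 1)) (Z i))
    {x : Ker Y.k1} (hx : ((x : Ker (co phi Y.i0)) : L) = Z' l) :
    (eta (Z' l) : RO ℤ) * (dc Y (eta (Z (i + 1)) * t0) (eta (Z i) * t1) D).coeff x =
      alU f' (alH D eta (Z i') (Z' l')) := by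
  have hD := A.w.ko.min.fp.dd
  rw [← alp_blk hF1 A hdis i i' l l' ht.symm, dc_csm hD.bin
    (fun p => (A.c.dis i (i + 1) (KO.H40.idx k i).1 p).symm), hx]
  unfold csm blk
  rw [add_right_comm (Z' l) (Z (i + 1)) (Z i)]
  ring

/-! ## Orders -/

theorem alG_two {H : RO ℤ} {p : ℤ[X]} (h : alG f' H = LaurentPolynomial.T 2 * toLaurent p) :
    H = LaurentPolynomial.T 2 * toLaurent (f' - X * p) := by
  have h1 : LaurentPolynomial.T (-1) * H =
      (LaurentPolynomial.T 1 : RO ℤ) * toLaurent f' - LaurentPolynomial.T 2 * toLaurent p := by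
    rw [← h, alG, map_mul, toLaurent_X]
    ring
  have e2 : (LaurentPolynomial.T 2 : RO ℤ) = LaurentPolynomial.T 1 * LaurentPolynomial.T 1 := by
    rw [← LaurentPolynomial.T_add]
    norm_num
  have h2 : H = LaurentPolynomial.T 1 * (LaurentPolynomial.T (-1) * H) := by
    linear_combination (-H) * TT1
  rw [h2, h1, map_sub, map_mul, toLaurent_X, e2]
  ring

/-- The order of `V''` at `Z' l`. -/
theorem alU_two {H : RO ℤ} {p : ℤ[X]} (h : alG f' H = LaurentPolynomial.T 2 * toLaurent p) :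
    alU f' H = LaurentPolynomial.T 2 * toLaurent ((1 + X) * f' + (1 - X - X ^ 2) * p) := by
  rw [alU, h, alG_two h]
  simp only [map_add, map_sub, map_mul, map_one, map_pow, toLaurent_X]
  ring

/-- `alG` is symmetric in the two cycles up to terms of order three. -/
theorem alG_swap (hu : f.coeff 0 = f'.coeff 0) (hn : f.coeff 1 = f'.coeff 1) {H : RO ℤ}
    {p : ℤ[X]} (h : alG f' H = LaurentPolynomial.T 2 * toLaurent p) :
    ∃ p' : ℤ[X], alG f H = LaurentPolynomial.T 2 * toLaurent p' ∧ p'.coeff 0 = p.coeff 0 := by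
  obtain ⟨r, hr⟩ : X ^ 2 ∣ f - f' := by
    rw [X_pow_dvd_iff]
    intro d hd
    rw [coeff_sub]
    rcases Nat.lt_succ_iff_lt_or_eq.mp hd with h1 | h1
    · rw [Nat.lt_one_iff.mp h1, hu, sub_self]
    · rw [h1, hn, sub_self]
  refine ⟨p + X * r, ?_, by rw [coeff_add, mul_coeff_zero, coeff_X_zero, zero_mul, add_zero]⟩
  have h1 : f = f' + X ^ 2 * r := by linear_combination hr
  have h2 : alG f H = alG f' H + toLaurent (X * (X ^ 2 * r)) := by
    unfold alG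
    rw [h1, mul_add, map_add]
    ring
  have e2 : (LaurentPolynomial.T 2 : RO ℤ) = LaurentPolynomial.T 1 * LaurentPolynomial.T 1 := by
    rw [← LaurentPolynomial.T_add]
    norm_num
  rw [h2, h, e2]
  simp only [map_add, map_mul, map_pow, toLaurent_X]
  ring

theorem alp_f01 (A : Alp phi D q f f' a j eta k k' Z mu Z' mu') :
    f.coeff 0 = f'.coeff 0 ∧ f.coeff 1 = f'.coeff 1 := by
  refine ⟨by rw [A.u, A.u'], ?_⟩
  have h1 := A.n
  have h2 := A.n'
  omega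

/-- (PX) the coefficient of `Z' l` in `V''` is not zero. -/
theorem alU_ne (hM1 : M1S) (hMm : MmulS) (hMV : MVS) (hE1 : E1S) (hE2 : E2S) (hPc : PCZS)
    (hClp : ClpS) (hC0 : Coeff0S) (hG0 : G0S) (hI1 : Inj1S) (hRk : RkS) (hFD : FDS)
    (hWW : WWfS) (hRF : RayFacS) (hMug : MugS) (hMco : McoS) (hCu : CuspS) (hSf : SfzS)
    (hTr : TrezS) (hTsa : TsaS) (hI3 : Io3S) (hMfc : MfcS) (hCa : Ca5S) (hGlc : GlcS)
    (hFou : FouS) (hDti : DtiS) (hNbr : NbrS) (hF1 : F1S) (hF2 : F2S) (hKm : KmuS)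
    (hFsp : FspS) (hVco : VcoS) (hRy : RaySpanS) (hVf : KvfS) (hVv : KvvS) (hT : TsgS)
    (hNd : Nd3vS) (hNr : Nr3S) (hB : BpS) (A : Alp phi D q f f' a j eta k k' Z mu Z' mu')
    (hdis : ∀ i l p, phi (Z i) p = 0 ∨ phi (Z' l) p = 0) (i : ZMod (k + 3))
    (l : ZMod (k' + 3)) : alU f' (alH D eta (Z i) (Z' l)) ≠ 0 := by
  intro h0
  have hD := A.w.ko.min.fp.dd
  have dis := A.c.dis i (i + 1) (KO.H40.idx k i).1
  have ho := out_of (hdis i l) (hdis (i + 1) l)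
  obtain ⟨r, t00⟩ := t00_blk (t0 := tA) (t1 := tC) hF1 hD lds_AC (A.c.mtl i) dis ho
    (A.c'.mtl l).r0 (A.nu i l _) (A.nu (i + 1) l _) (by
      have h1 := alp_blk hF1 A hdis i i l l lds_AC
      rw [h0] at h1
      exact (mul_eq_zero.mp h1).resolve_left (Units.ne_zero _))
  exact px_false hM1 hMm hMV hE1 hE2 hPc hClp hC0 hG0 hI1 hRk hFD hWW hRF hMug hMco hCu hSf hTr
    hTsa hI3 hMfc hCa hGlc hFou hDti hNbr hF1 hF2 hKm hFsp hVco hRy hVf hVv hT hNd hNr hB A.w A.u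
    A.n A.w' A.u' A.n' ⟨i, rfl⟩ ⟨i + 1, rfl⟩ (A.c.mtl i) ⟨l, rfl⟩ ⟨l + 1, rfl⟩ (A.c'.mtl l) t00
    (A.nu' i (l + 1) _)

/-- (R7) `m = 1`: both cycles, all data of orders. -/
theorem alp_m1 (hM1 : M1S) (hMm : MmulS) (hMV : MVS) (hE1 : E1S) (hE2 : E2S) (hPc : PCZS)
    (hClp : ClpS) (hC0 : Coeff0S) (hG0 : G0S) (hI1 : Inj1S) (hRk : RkS) (hFD : FDS)
    (hWW : WWfS) (hRF : RayFacS) (hMug : MugS) (hMco : McoS) (hCu : CuspS) (hSf : SfzS)
    (hTr : TrezS) (hTsa : TsaS) (hI3 : Io3S) (hMfc : MfcS) (hCa : Ca5S) (hGlc : GlcS)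
    (hFou : FouS) (hDti : DtiS) (hNbr : NbrS) (hF1 : F1S) (hF2 : F2S) (hKm : KmuS)
    (hFsp : FspS) (hVco : VcoS) (hRy : RaySpanS) (hVf : KvfS) (hVv : KvvS) (hT : TsgS)
    (hNd : Nd3vS) (hNr : Nr3S) (hB : BpS) (A : Alp phi D q f f' a j eta k k' Z mu Z' mu')
    (hdis : ∀ i l p, phi (Z i) p = 0 ∨ phi (Z' l) p = 0) {i : ZMod (k + 3)}
    {l : ZMod (k' + 3)} {p : ℤ[X]}
    (hg : alG f' (alH D eta (Z i) (Z' l)) = LaurentPolynomial.T 2 * toLaurent p) :
    (∃ (m : ℕ) (g : ℤ[X]), alU f' (alH D eta (Z i) (Z' l)) =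
      LaurentPolynomial.T (m + 2) * toLaurent g ∧ g.coeff 0 ≠ 0) ∧
    ∃ p' : ℤ[X], alG f (alH D eta (Z' l) (Z i)) = LaurentPolynomial.T 2 * toLaurent p' ∧
      p'.coeff 0 = p.coeff 0 := by
  have h0 := alU_ne hM1 hMm hMV hE1 hE2 hPc hClp hC0 hG0 hI1 hRk hFD hWW hRF hMug hMco hCu hSf hTr
    hTsa hI3 hMfc hCa hGlc hFou hDti hNbr hF1 hF2 hKm hFsp hVco hRy hVf hVv hT hNd hNr hB A hdis i l
  constructor
  · rw [alU_two hg] at h0 ⊢
    obtain ⟨F, hF⟩ : ∃ F : ℤ[X], F = (1 + X) * f' + (1 - X - X ^ 2) * p := ⟨_, rfl⟩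
    rw [← hF] at h0 ⊢
    have hF0 : F ≠ 0 := by
      rintro rfl
      rw [map_zero, mul_zero] at h0
      exact h0 rfl
    obtain ⟨g, hg1, hg2⟩ := Polynomial.exists_eq_pow_rootMultiplicity_mul_and_not_dvd F hF0 0
    rw [C_0, sub_zero] at hg1 hg2
    obtain ⟨m, hm⟩ : ∃ m, m = rootMultiplicity 0 F := ⟨_, rfl⟩
    rw [← hm] at hg1
    refine ⟨m, g, ?_, fun h1 => hg2 (X_dvd_iff.mpr h1)⟩
    rw [hg1, map_mul, map_pow, toLaurent_X, LaurentPolynomial.T_pow, LaurentPolynomial.T_add,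
      mul_one]
    ring
  · obtain ⟨h1, h2⟩ := alp_f01 A
    obtain ⟨p', h3, h4⟩ := alG_swap h1 h2 hg
    exact ⟨p', by rw [alH_symm]; exact h3, h4⟩

end

end Pool.Agent.B5.KO.H40
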