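import Pool.Agent.Lib.MP_b5021c_nt.KO.H40.G4
import Pool.Agent.Lib.MP_b5021c_nt.B.H24.B5u

/-!
# MP_b5021c_nt, all `θ`, K odd, (O4), cycles of length four: row DF4 without a relation

For every 4-cycle, the double closing `(-1/z, z)` of `Z 0`, `Z 1` or its mirror is drop free: by
unitarity (the exponent `t - Z 0 - Z 1 - Z 2 - Z 3`, `t` the largest exponent).
-/

set_option linter.unusedSectionVars false

namespace Pool.Agent.B5.KO.H40

open scoped LaurentPolynomial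
open Polynomial
open Pool.Agent.B5.KE
open Pool.Agent.B5.Nr.Sch
open Pool.Agent.B5.Nr (TrezS)
open Pool.Agent.B5.H61 (CuspS)
open Pool.Agent.B5.KV67 (TT1 tA_val)
open Pool.Agent.B5.O4X

section

variable {P L : Type} [Fintype P] [DecidableEq P] [AddCommGroup L] [Module.Free ℤ L]
  [Module.Finite ℤ L] {phi : L →+ (P → ℤ)} {D : AO ℤ L} {eta : L → (RO ℤ)ˣ}
  {Z : ZMod (1 + 3) → L} {mu : ZMod (1 + 3) → L →+ ℤ}

/-- The flip at `Z i`. -/
theorem flip4 (hF1 : F1S) (hD : DD phi D) (h : Cyc phi D eta 1 Z mu) (i : ZMod (1 + 3)) {a : L}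
    (ha : mu i a ≠ 0) (hd : ∀ p, phi a p = 0 ∨ phi (Z i) p = 0) :
    D.coeff a + (eta (Z i) : RO ℤ) * D.coeff (a + Z i) = 0 :=
  (hF1 ℤ P L phi D (Z i) (eta (Z i)) hD.inj hD.bin (hD.bin _ (h.mtl i).r0.1) (h.mtl i).r0.2.1 a
    (fun hh => ha ((h.ker i a).mp hh))).2 hd

/-- The table of a free exponent. -/
theorem tab4 (hF1 : F1S) (hD : DD phi D) (h : Cyc phi D eta 1 Z mu) {v : L}
    (hv : Fre phi Z mu v) (i : ZMod (1 + 3)) :
    D.coeff (v + Z (i + 1)) + (eta (Z i) : RO ℤ) * D.coeff (v + Z (i + 1) + Z i) = 0 ∧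
    D.coeff (v + Z i) + (eta (Z (i + 1)) : RO ℤ) * D.coeff (v + Z i + Z (i + 1)) = 0 ∧
    D.coeff (v + Z (i + 1) + Z (i + 2)) +
      (eta (Z i) : RO ℤ) * D.coeff (v + Z (i + 1) + Z (i + 2) + Z i) = 0 := by
  have hne : ∀ j k : ZMod (1 + 3), j ≠ k → ∀ p, phi (Z j) p = 0 ∨ phi (Z k) p = 0 := h.dis
  have n1 : i + 1 ≠ i := by revert i; decide
  have n2 : i + 2 ≠ i := by revert i; decide
  have m2 : mu i (Z (i + 2)) = 0 := by
    have d1 : ∀ i : ZMod (1 + 3), i + 2 ≠ i + 1 := by decide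
    have d2 : ∀ i : ZMod (1 + 3), i + 2 ≠ i - 1 := by decide
    exact h.oth i (Z (i + 2)) (h.mtl (i + 2)).r0 (fun e => d1 i (h.inj e))
      (fun e => d2 i (h.inj e))
  have m3 : mu (i + 1) (Z i) = -1 := by
    have h1 := h.prv (i + 1)
    rwa [add_sub_cancel_right] at h1
  refine ⟨?_, ?_, ?_⟩
  · refine flip4 hF1 hD h i ?_ ?_
    · rw [map_add, hv.2 i, h.nxt i]
      norm_num
    · intro p
      rcases hv.1 i p with h1 | h1
      · rcases hne _ _ n1 p with h2 | h2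
        · exact Or.inl (by rw [map_add, Pi.add_apply, h1, h2, add_zero])
        · exact Or.inr h2
      · exact Or.inr h1
  · refine flip4 hF1 hD h (i + 1) ?_ ?_
    · rw [map_add, hv.2 (i + 1), m3]
      norm_num
    · intro p
      rcases hv.1 (i + 1) p with h1 | h1
      · rcases hne _ _ n1 p with h2 | h2
        · exact Or.inr h2
        · exact Or.inl (by rw [map_add, Pi.add_apply, h1, h2, add_zero])
      · exact Or.inr h1
  · refine flip4 hF1 hD h i ?_ ?_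
    · rw [map_add, map_add, hv.2 i, h.nxt i, m2]
      norm_num
    · intro p
      rcases hv.1 i p with h1 | h1
      · rcases hne _ _ n1 p with h2 | h2
        · rcases hne _ _ n2 p with h3 | h3
          · exact Or.inl (by rw [map_add, map_add, Pi.add_apply, Pi.add_apply, h1, h2, h3]; rfl)
          · exact Or.inr h3
        · exact Or.inr h2
      · exact Or.inr h1

/-- The four values. -/
theorem val4 (hF1 : F1S) (hD : DD phi D) (h : Cyc phi D eta 1 Z mu) {v : L}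
    (hv : Fre phi Z mu v) :
    ((eta (Z 1) : RO ℤ) * D.coeff (v + Z 1) = (eta (Z 0) : RO ℤ) * D.coeff (v + Z 0) ∧
      (eta (Z 2) : RO ℤ) * D.coeff (v + Z 2) = (eta (Z 0) : RO ℤ) * D.coeff (v + Z 0) ∧
      (eta (Z 3) : RO ℤ) * D.coeff (v + Z 3) = (eta (Z 0) : RO ℤ) * D.coeff (v + Z 0)) ∧
    ((eta (Z 1) : RO ℤ) * (eta (Z 2) : RO ℤ) * D.coeff (v + Z 2 + Z 1) =
        -((eta (Z 0) : RO ℤ) * D.coeff (v + Z 0)) ∧
      (eta (Z 0) : RO ℤ) * (eta (Z 3) : RO ℤ) * D.coeff (v + Z 3 + Z 0) =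
        -((eta (Z 0) : RO ℤ) * D.coeff (v + Z 0))) ∧
    ((eta (Z 0) : RO ℤ) * (eta (Z 1) : RO ℤ) * (eta (Z 2) : RO ℤ) *
        D.coeff (v + Z 2 + Z 0 + Z 1) = (eta (Z 0) : RO ℤ) * D.coeff (v + Z 0) ∧
      (eta (Z 0) : RO ℤ) * (eta (Z 1) : RO ℤ) * (eta (Z 3) : RO ℤ) *
        D.coeff (v + Z 3 + Z 0 + Z 1) = (eta (Z 0) : RO ℤ) * D.coeff (v + Z 0) ∧
      (eta (Z 1) : RO ℤ) * (eta (Z 2) : RO ℤ) * (eta (Z 3) : RO ℤ) *
        D.coeff (v + Z 1 + Z 2 + Z 3) = (eta (Z 0) : RO ℤ) * D.coeff (v + Z 0)) := by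
  obtain ⟨a0, b0, c0⟩ := tab4 hF1 hD h hv 0
  obtain ⟨a1, b1, c1⟩ := tab4 hF1 hD h hv 1
  obtain ⟨a2, b2, c2⟩ := tab4 hF1 hD h hv 2
  obtain ⟨a3, b3, c3⟩ := tab4 hF1 hD h hv 3
  rw [show (0 + 1 : ZMod (1 + 3)) = 1 by decide] at a0 b0 c0
  rw [show (0 + 2 : ZMod (1 + 3)) = 2 by decide] at c0
  rw [show (1 + 1 : ZMod (1 + 3)) = 2 by decide] at a1 b1 c1
  rw [show (1 + 2 : ZMod (1 + 3)) = 3 by decide] at c1
  rw [show (2 + 1 : ZMod (1 + 3)) = 3 by decide] at a2 b2 c2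
  rw [show (2 + 2 : ZMod (1 + 3)) = 0 by decide] at c2
  rw [show (3 + 1 : ZMod (1 + 3)) = 0 by decide] at a3 b3 c3
  rw [show (3 + 2 : ZMod (1 + 3)) = 1 by decide] at c3
  rw [show v + Z 0 + Z 1 = v + Z 1 + Z 0 by abel] at b0
  rw [show v + Z 1 + Z 2 = v + Z 2 + Z 1 by abel] at b1 c0
  rw [show v + Z 2 + Z 1 + Z 0 = v + Z 2 + Z 0 + Z 1 by abel] at c0
  rw [show v + Z 2 + Z 3 = v + Z 3 + Z 2 by abel] at b2 c1
  rw [show v + Z 3 + Z 2 + Z 1 = v + Z 1 + Z 2 + Z 3 by abel] at c1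
  rw [show v + Z 0 + Z 1 + Z 3 = v + Z 3 + Z 0 + Z 1 by abel,
    show v + Z 0 + Z 1 = v + Z 1 + Z 0 by abel] at c3
  rw [show v + Z 0 + Z 3 = v + Z 3 + Z 0 by abel] at a3
  have e1 : (eta (Z 1) : RO ℤ) * D.coeff (v + Z 1) = (eta (Z 0) : RO ℤ) * D.coeff (v + Z 0) := by
    linear_combination (eta (Z 1) : RO ℤ) * a0 - (eta (Z 0) : RO ℤ) * b0
  have e2 : (eta (Z 2) : RO ℤ) * D.coeff (v + Z 2) = (eta (Z 0) : RO ℤ) * D.coeff (v + Z 0) := by
    linear_combination (eta (Z 2) : RO ℤ) * a1 - (eta (Z 1) : RO ℤ) * b1 + e1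
  have e3 : (eta (Z 3) : RO ℤ) * D.coeff (v + Z 3) = (eta (Z 0) : RO ℤ) * D.coeff (v + Z 0) := by
    linear_combination (eta (Z 3) : RO ℤ) * a2 - (eta (Z 2) : RO ℤ) * b2 + e2
  refine ⟨⟨e1, e2, e3⟩, ⟨?_, ?_⟩, ?_, ?_, ?_⟩
  · linear_combination (eta (Z 2) : RO ℤ) * a1 - e2
  · linear_combination (eta (Z 0) : RO ℤ) * a3
  · linear_combination (eta (Z 1) : RO ℤ) * (eta (Z 2) : RO ℤ) * c0 -
      ((eta (Z 2) : RO ℤ) * a1 - e2)
  · linear_combination (eta (Z 0) : RO ℤ) * (eta (Z 1) : RO ℤ) * c3 -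
      (eta (Z 0) : RO ℤ) * b0
  · linear_combination (eta (Z 2) : RO ℤ) * (eta (Z 3) : RO ℤ) * c1 -
      ((eta (Z 3) : RO ℤ) * a2 - e3)

/-- The class of `v + Z 2`. -/
theorem cls2 (hF1 : F1S) (hD : DD phi D) (h : Cyc phi D eta 1 Z mu) {v : L}
    (hv : Fre phi Z mu v) {w0 w1 : RO ℤ} {nu : L →+ ℤ}
    (hfree : ∀ a : L, Out phi (Z 0) (Z 1) a → nu a ≠ 0 →
      D.coeff a + (eta (Z 0) : RO ℤ) * w0 * D.coeff (a + Z 0) +
        (eta (Z 1) : RO ℤ) * w1 * D.coeff (a + Z 1) +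
        ((eta (Z 0) : RO ℤ) * w0) * ((eta (Z 1) : RO ℤ) * w1) * D.coeff (a + Z 0 + Z 1) = 0)
    (n2 : nu (v + Z 2) ≠ 0) :
    (1 - w1 + w0 * w1) * ((eta (Z 0) : RO ℤ) * D.coeff (v + Z 0)) +
      w0 * ((eta (Z 0) : RO ℤ) * (eta (Z 2) : RO ℤ) * D.coeff (v + Z 2 + Z 0)) = 0 := by
  obtain ⟨⟨-, e2, -⟩, ⟨e12, -⟩, e012, -, -⟩ := val4 hF1 hD h hv
  have h1 := hfree (v + Z 2) (fun p => by
    rcases hv.1 0 p with h1 | h1
    · rcases hv.1 1 p with h2 | h2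
      · rcases h.dis 2 0 (by decide) p with h3 | h3
        · exact Or.inl (by rw [map_add, Pi.add_apply, h1, h3, add_zero])
        · rcases h.dis 2 1 (by decide) p with h4 | h4
          · exact Or.inl (by rw [map_add, Pi.add_apply, h1, h4, add_zero])
          · exact Or.inr ⟨h3, h4⟩
      · rcases h.dis 2 0 (by decide) p with h3 | h3
        · exact Or.inl (by rw [map_add, Pi.add_apply, h1, h3, add_zero])
        · exact Or.inr ⟨h3, h2⟩
    · rcases hv.1 1 p with h2 | h2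
      · rcases h.dis 2 1 (by decide) p with h4 | h4
        · exact Or.inl (by rw [map_add, Pi.add_apply, h2, h4, add_zero])
        · exact Or.inr ⟨h1, h4⟩
      · exact Or.inr ⟨h1, h2⟩) n2
  linear_combination (eta (Z 2) : RO ℤ) * h1 - e2 - w1 * e12 - w0 * w1 * e012

/-- The class of `v + Z 3`. -/
theorem cls3 (hF1 : F1S) (hD : DD phi D) (h : Cyc phi D eta 1 Z mu) {v : L}
    (hv : Fre phi Z mu v) {w0 w1 : RO ℤ} {nu : L →+ ℤ}
    (hfree : ∀ a : L, Out phi (Z 0) (Z 1) a → nu a ≠ 0 →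
      D.coeff a + (eta (Z 0) : RO ℤ) * w0 * D.coeff (a + Z 0) +
        (eta (Z 1) : RO ℤ) * w1 * D.coeff (a + Z 1) +
        ((eta (Z 0) : RO ℤ) * w0) * ((eta (Z 1) : RO ℤ) * w1) * D.coeff (a + Z 0 + Z 1) = 0)
    (n3 : nu (v + Z 3) ≠ 0) :
    (1 - w0 + w0 * w1) * ((eta (Z 0) : RO ℤ) * D.coeff (v + Z 0)) +
      w1 * ((eta (Z 1) : RO ℤ) * (eta (Z 3) : RO ℤ) * D.coeff (v + Z 3 + Z 1)) = 0 := by
  obtain ⟨⟨-, -, e3⟩, ⟨-, e03⟩, -, e013, -⟩ := val4 hF1 hD h hv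
  have h1 := hfree (v + Z 3) (fun p => by
    rcases hv.1 0 p with h1 | h1
    · rcases hv.1 1 p with h2 | h2
      · rcases h.dis 3 0 (by decide) p with h3 | h3
        · exact Or.inl (by rw [map_add, Pi.add_apply, h1, h3, add_zero])
        · rcases h.dis 3 1 (by decide) p with h4 | h4
          · exact Or.inl (by rw [map_add, Pi.add_apply, h1, h4, add_zero])
          · exact Or.inr ⟨h3, h4⟩
      · rcases h.dis 3 0 (by decide) p with h3 | h3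
        · exact Or.inl (by rw [map_add, Pi.add_apply, h1, h3, add_zero])
        · exact Or.inr ⟨h3, h2⟩
    · rcases hv.1 1 p with h2 | h2
      · rcases h.dis 3 1 (by decide) p with h4 | h4
        · exact Or.inl (by rw [map_add, Pi.add_apply, h2, h4, add_zero])
        · exact Or.inr ⟨h1, h4⟩
      · exact Or.inr ⟨h1, h2⟩) n3
  linear_combination (eta (Z 3) : RO ℤ) * h1 - e3 - w0 * e03 - w0 * w1 * e013

/-- The opposite exponent `t - Z 0 - Z 1 - Z 2 - Z 3`. -/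
theorem opp4 (hTop : TopS) (hE2 : E2S) (hF1 : F1S) (hRy : RaySpanS) (hD : DD phi D)
    (h2 : 2 ≤ Module.finrank ℤ L) (h : Cyc phi D eta 1 Z mu) :
    ∃ (u : L) (E : (RO ℤ)ˣ), Fre phi Z mu u ∧
      (∀ nu : L →+ ℤ, nu (Z 0) = 0 → nu (Z 1) = 0 →
        (∀ T, Ray D T → (∀ i, T ≠ Z i) → nu T = 0) → nu u = 0) ∧
      (eta (Z 0) : RO ℤ) * D.coeff (u + Z 0) =
        (E : RO ℤ) * rsh ((eta (Z 0) : RO ℤ) * D.coeff (Z 0)) ∧
      (eta (Z 0) : RO ℤ) * (eta (Z 2) : RO ℤ) * D.coeff (u + Z 2 + Z 0) =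
        (E : RO ℤ) * rsh ((eta (Z 1) : RO ℤ) * (eta (Z 3) : RO ℤ) * D.coeff (Z 3 + Z 1)) ∧
      (eta (Z 1) : RO ℤ) * (eta (Z 3) : RO ℤ) * D.coeff (u + Z 3 + Z 1) =
        (E : RO ℤ) * rsh ((eta (Z 0) : RO ℤ) * (eta (Z 2) : RO ℤ) * D.coeff (Z 2 + Z 0)) := by
  classical
  obtain ⟨t, ep, hrev, hport, -⟩ := hTop ℤ P L phi D hD h2
  have hrn : ∀ {a : L}, D.coeff a ≠ 0 → D.coeff (t - a) ≠ 0 := by
    intro a ha h1
    rw [hrev] at h1
    exact ha (Pool.Agent.B5.H59.rsh_eq_zero.mp ((mul_eq_zero.mp h1).resolve_left ep.ne_zero))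
  have hr0 : ∀ {a : L}, D.coeff (t - a) ≠ 0 → D.coeff a ≠ 0 := by
    intro a ha h1
    apply ha
    rw [hrev, h1, map_zero, mul_zero]
  have rZ : ∀ i, Ray D (Z i) := fun i => (h.mtl i).r0
  -- the free exponent
  have hs0 : Fre phi Z mu (0 : L) :=
    ⟨fun i p => Or.inl (by rw [map_zero]; rfl), fun i => map_zero _⟩
  have hmt : ∀ i, mu i t = 0 := by
    intro i
    have h3 := h.val i (t - Z (i + 1)) (hrn (rZ (i + 1)).1)
    have h4 := h.val i (t - Z (i - 1)) (hrn (rZ (i - 1)).1)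
    rw [map_sub, h.nxt i] at h3
    rw [map_sub, h.prv i] at h4
    omega
  have hsum : ∀ i, mu i (Z 0 + Z 1 + Z 2 + Z 3) = 0 := by
    intro i
    have h3 : mu i (Z i) = 0 := (h.ker i (Z i)).mp (Submodule.subset_span (Set.mem_insert _ _) |>
      fun hh => ⟨1, one_ne_zero, by rwa [one_smul]⟩)
    have h4 : mu i (Z (i + 2)) = 0 := by
      have d1 : ∀ i : ZMod (1 + 3), i + 2 ≠ i + 1 := by decide
      have d2 : ∀ i : ZMod (1 + 3), i + 2 ≠ i - 1 := by decide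
      exact h.oth i (Z (i + 2)) (rZ _) (fun e => d1 i (h.inj e)) (fun e => d2 i (h.inj e))
    have h5 : Z 0 + Z 1 + Z 2 + Z 3 = Z i + Z (i + 1) + Z (i + 2) + Z (i - 1) := by
      fin_cases i
      · rfl
      · change _ = Z 1 + Z 2 + Z 3 + Z 0
        abel
      · change _ = Z 2 + Z 3 + Z 0 + Z 1
        abel
      · change _ = Z 3 + Z 0 + Z 1 + Z 2
        abel
    rw [h5, map_add, map_add, map_add, h3, h4, h.nxt, h.prv]
    norm_num
  have hZb : ∀ i, ∀ p, phi (Z i) p = 0 ∨ phi (Z i) p = 1 := fun i => hD.bin _ (rZ i).1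
  have hup : ∀ i p, phi (t - (Z 0 + Z 1 + Z 2 + Z 3)) p = 0 ∨ phi (Z i) p = 0 := by
    intro i p
    rcases hZb i p with h3 | h3
    · exact Or.inr h3
    · left
      have h4 : phi t p = 1 := hport p (fun e => by
        have h5 : co phi p (Z i) = 0 := by rw [e]; rfl
        have h6 : phi (Z i) p = 0 := h5
        omega)
      have h5 : ∀ k, k ≠ i → phi (Z k) p = 0 := by
        intro k hk
        rcases h.dis k i hk p with h6 | h6
        · exact h6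
        · omega
      have h6 : phi (Z 0 + Z 1 + Z 2 + Z 3) p = 1 := by
        rw [map_add, map_add, map_add, Pi.add_apply, Pi.add_apply, Pi.add_apply]
        fin_cases i
        · have := h5 1 (by decide); have := h5 2 (by decide); have := h5 3 (by decide)
          change phi (Z 0) p = 1 at h3
          omega
        · have := h5 0 (by decide); have := h5 2 (by decide); have := h5 3 (by decide)
          change phi (Z 1) p = 1 at h3
          omega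
        · have := h5 0 (by decide); have := h5 1 (by decide); have := h5 3 (by decide)
          change phi (Z 2) p = 1 at h3
          omega
        · have := h5 0 (by decide); have := h5 1 (by decide); have := h5 2 (by decide)
          change phi (Z 3) p = 1 at h3
          omega
      rw [map_sub, Pi.sub_apply, h4, h6, sub_self]
  have hfu : Fre phi Z mu (t - (Z 0 + Z 1 + Z 2 + Z 3)) :=
    ⟨hup, fun i => by rw [map_sub, hmt, hsum, sub_zero]⟩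
  have r0 := Pool.Agent.B5.H24.rsh_unit (eta (Z 0))
  have r1 := Pool.Agent.B5.H24.rsh_unit (eta (Z 1))
  have r2 := Pool.Agent.B5.H24.rsh_unit (eta (Z 2))
  have r3 := Pool.Agent.B5.H24.rsh_unit (eta (Z 3))
  refine ⟨t - (Z 0 + Z 1 + Z 2 + Z 3),
    ep * (eta (Z 0) * eta (Z 1) * eta (Z 2) * eta (Z 3)), hfu, ?_, ?_, ?_, ?_⟩
  · intro nu n0 n1 ho
    -- `u + Z 0` is an exponent
    have hm : D.coeff (t - (Z 0 + Z 1 + Z 2 + Z 3) + Z 0) ≠ 0 := by
      have h3 := (val4 hF1 hD h hs0).2.2.2.2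
      rw [zero_add, zero_add] at h3
      have h4 : D.coeff (Z 1 + Z 2 + Z 3) ≠ 0 := by
        intro h5
        rw [h5, mul_zero] at h3
        exact mul_ne_zero (eta (Z 0)).ne_zero (rZ 0).1 h3.symm
      have h5 := hrn h4
      rwa [show t - (Z 1 + Z 2 + Z 3) = t - (Z 0 + Z 1 + Z 2 + Z 3) + Z 0 by abel] at h5
    obtain ⟨-, hthin, -⟩ := hE2 ℤ P L phi D hD h2
    obtain ⟨lam, hl, -⟩ := hD.st.2
    have hm0 : t - (Z 0 + Z 1 + Z 2 + Z 3) + Z 0 ≠ 0 := by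
      intro h6
      obtain ⟨p, hp⟩ : ∃ p, phi (Z 0) p ≠ 0 := by
        by_contra hc
        push Not at hc
        exact (rZ 0).2.1 (hD.inj (funext fun p => by rw [hc p, map_zero]; rfl))
      have h7 := congrFun (congrArg phi h6) p
      rw [map_add, Pi.add_apply, (hup 0 p).resolve_right hp, zero_add, map_zero] at h7
      exact hp h7
    obtain ⟨n, hn, hmem⟩ := (hRy ℤ L D ⟨lam, hl⟩ hthin).1 _ hm hm0
    obtain ⟨p2, hp2⟩ : ∃ p, phi (Z 2) p ≠ 0 := by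
      by_contra hc
      push Not at hc
      exact (rZ 2).2.1 (hD.inj (funext fun p => by rw [hc p, map_zero]; rfl))
    obtain ⟨p3, hp3⟩ : ∃ p, phi (Z 3) p ≠ 0 := by
      by_contra hc
      push Not at hc
      exact (rZ 3).2.1 (hD.inj (funext fun p => by rw [hc p, map_zero]; rfl))
    have key : ∀ x ∈ AddSubmonoid.closure {b | Ray D b}, 0 ≤ phi x p2 ∧ 0 ≤ phi x p3 ∧
        (phi x p2 = 0 → phi x p3 = 0 → nu x = 0) := by
      intro x hx
      induction hx using AddSubmonoid.closure_induction with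
      | mem T hT =>
        have b2 := hD.bin T hT.1 p2
        have b3 := hD.bin T hT.1 p3
        refine ⟨by omega, by omega, fun q2 q3 => ?_⟩
        by_cases hc : ∀ i, T ≠ Z i
        · exact ho T hT hc
        · push Not at hc
          obtain ⟨i, rfl⟩ := hc
          fin_cases i
          · exact n0
          · exact n1
          · exact absurd q2 hp2
          · exact absurd q3 hp3
      | zero => exact ⟨by rw [map_zero]; exact le_refl _, by rw [map_zero]; exact le_refl _,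
          fun _ _ => map_zero _⟩
      | add x y _ _ hx hy =>
        obtain ⟨x2, x3, xn⟩ := hx
        obtain ⟨y2, y3, yn⟩ := hy
        rw [map_add, Pi.add_apply, Pi.add_apply]
        refine ⟨by omega, by omega, fun q2 q3 => ?_⟩
        rw [map_add, xn (by omega) (by omega), yn (by omega) (by omega), add_zero]
    have z2 : phi (n • (t - (Z 0 + Z 1 + Z 2 + Z 3) + Z 0)) p2 = 0 := by
      rw [map_nsmul, Pi.smul_apply, map_add, Pi.add_apply, (hup 2 p2).resolve_right hp2,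
        (h.dis 0 2 (by decide) p2).resolve_right hp2, add_zero, smul_zero]
    have z3 : phi (n • (t - (Z 0 + Z 1 + Z 2 + Z 3) + Z 0)) p3 = 0 := by
      rw [map_nsmul, Pi.smul_apply, map_add, Pi.add_apply, (hup 3 p3).resolve_right hp3,
        (h.dis 0 3 (by decide) p3).resolve_right hp3, add_zero, smul_zero]
    have h8 := (key _ hmem).2.2 z2 z3
    rw [map_nsmul, map_add, n0, add_zero, nsmul_eq_mul] at h8
    exact (mul_eq_zero.mp h8).resolve_left (by exact_mod_cast hn.ne')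
  · have h3 := (val4 hF1 hD h hs0).2.2.2.2
    rw [zero_add, zero_add] at h3
    have h4 := hrev (Z 1 + Z 2 + Z 3)
    rw [show t - (Z 1 + Z 2 + Z 3) = t - (Z 0 + Z 1 + Z 2 + Z 3) + Z 0 by abel] at h4
    rw [← h3, map_mul, map_mul, map_mul, h4]
    simp only [Units.val_mul]
    linear_combination (-(ep : RO ℤ) * (eta (Z 0) : RO ℤ) * (eta (Z 2) : RO ℤ) *
        (eta (Z 3) : RO ℤ) * rsh (eta (Z 2) : RO ℤ) * rsh (eta (Z 3) : RO ℤ) *
        rsh (D.coeff (Z 1 + Z 2 + Z 3))) * r1 -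
      ((ep : RO ℤ) * (eta (Z 0) : RO ℤ) * (eta (Z 3) : RO ℤ) * rsh (eta (Z 3) : RO ℤ) *
        rsh (D.coeff (Z 1 + Z 2 + Z 3))) * r2 -
      ((ep : RO ℤ) * (eta (Z 0) : RO ℤ) * rsh (D.coeff (Z 1 + Z 2 + Z 3))) * r3
  · have h4 := hrev (Z 3 + Z 1)
    rw [show t - (Z 3 + Z 1) = t - (Z 0 + Z 1 + Z 2 + Z 3) + Z 2 + Z 0 by abel] at h4
    rw [map_mul, map_mul, h4]
    simp only [Units.val_mul]
    linear_combination (-(ep : RO ℤ) * (eta (Z 0) : RO ℤ) * (eta (Z 2) : RO ℤ) *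
        (eta (Z 3) : RO ℤ) * rsh (eta (Z 3) : RO ℤ) * rsh (D.coeff (Z 3 + Z 1))) * r1 -
      ((ep : RO ℤ) * (eta (Z 0) : RO ℤ) * (eta (Z 2) : RO ℤ) *
        rsh (D.coeff (Z 3 + Z 1))) * r3
  · have h4 := hrev (Z 2 + Z 0)
    rw [show t - (Z 2 + Z 0) = t - (Z 0 + Z 1 + Z 2 + Z 3) + Z 3 + Z 1 by abel] at h4
    rw [map_mul, map_mul, h4]
    simp only [Units.val_mul]
    linear_combination (-(ep : RO ℤ) * (eta (Z 1) : RO ℤ) * (eta (Z 2) : RO ℤ) *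
        (eta (Z 3) : RO ℤ) * rsh (eta (Z 2) : RO ℤ) * rsh (D.coeff (Z 2 + Z 0))) * r0 -
      ((ep : RO ℤ) * (eta (Z 1) : RO ℤ) * (eta (Z 3) : RO ℤ) *
        rsh (D.coeff (Z 2 + Z 0))) * r2

theorem rsh_sq {w0 w1 x y : RO ℤ} (hw : w0 * w1 = -1) (hw0 : rsh w0 = -w1)
    (h : w0 * rsh x = w1 * rsh y) : y = -(w1 * w1) * x := by
  have rr : ∀ b : RO ℤ, rsh (rsh b) = b := fun b => by
    rw [rsh_int, rsh_int]
    exact LaurentPolynomial.involutive_invert b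
  have hw1 : rsh w1 = -w0 := by
    have h6 := rr w0
    rw [hw0, map_neg] at h6
    rw [← h6, neg_neg]
  have h5 := congrArg rsh h
  rw [map_mul, map_mul, rr, rr, hw0, hw1] at h5
  linear_combination -w1 * h5 + y * hw

/-- The value `b` at the free exponent `0`. -/
theorem sq4 (hTop : TopS) (hE2 : E2S) (hF1 : F1S) (hRy : RaySpanS) (hD : DD phi D)
    (h2 : 2 ≤ Module.finrank ℤ L) (h : Cyc phi D eta 1 Z mu) {w0 w1 : RO ℤ} {nu : L →+ ℤ}
    (hfree : ∀ a : L, Out phi (Z 0) (Z 1) a → nu a ≠ 0 →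
      D.coeff a + (eta (Z 0) : RO ℤ) * w0 * D.coeff (a + Z 0) +
        (eta (Z 1) : RO ℤ) * w1 * D.coeff (a + Z 1) +
        ((eta (Z 0) : RO ℤ) * w0) * ((eta (Z 1) : RO ℤ) * w1) * D.coeff (a + Z 0 + Z 1) = 0)
    (n0 : nu (Z 0) = 0) (n1 : nu (Z 1) = 0)
    (ho : ∀ T, Ray D T → (∀ i, T ≠ Z i) → nu T = 0) (hw : w0 * w1 = -1)
    (hw0 : rsh w0 = -w1) (hn : nu (Z 2) ≠ 0 ∨ nu (Z 3) ≠ 0) :
    (eta (Z 0) : RO ℤ) * (eta (Z 2) : RO ℤ) * D.coeff (Z 2 + Z 0) =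
      -(w1 * w1) * ((eta (Z 0) : RO ℤ) * D.coeff (Z 0)) := by
  have hs0 : Fre phi Z mu (0 : L) :=
    ⟨fun i p => Or.inl (by rw [map_zero]; rfl), fun i => map_zero _⟩
  rcases hn with hn | hn
  · have h3 := cls2 hF1 hD h hs0 hfree (by rwa [zero_add])
    rw [zero_add, zero_add] at h3
    linear_combination -w1 * h3 + ((eta (Z 0) : RO ℤ) * (eta (Z 2) : RO ℤ) *
      D.coeff (Z 2 + Z 0) + w1 * ((eta (Z 0) : RO ℤ) * D.coeff (Z 0))) * hw
  · obtain ⟨u, E, hu, hnu, k1, -, k3⟩ := opp4 hTop hE2 hF1 hRy hD h2 h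
    have h3 := cls3 hF1 hD h hu hfree (by rwa [map_add, hnu nu n0 n1 ho, zero_add])
    rw [k1, k3] at h3
    have h4 : w0 * rsh ((eta (Z 0) : RO ℤ) * D.coeff (Z 0)) =
        w1 * rsh ((eta (Z 0) : RO ℤ) * (eta (Z 2) : RO ℤ) * D.coeff (Z 2 + Z 0)) := by
      have h5 : (E : RO ℤ) * (w0 * rsh ((eta (Z 0) : RO ℤ) * D.coeff (Z 0)) -
          w1 * rsh ((eta (Z 0) : RO ℤ) * (eta (Z 2) : RO ℤ) * D.coeff (Z 2 + Z 0))) = 0 := by
        linear_combination -h3 + (E : RO ℤ) * rsh ((eta (Z 0) : RO ℤ) * D.coeff (Z 0)) * hw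
      exact sub_eq_zero.mp ((mul_eq_zero.mp h5).resolve_left E.ne_zero)
    exact rsh_sq hw hw0 h4

/-- (DF4) two functionals killing the double closing and its mirror, both zero on the rays outside
the cycle. -/
theorem df4v (hTop : TopS) (hE2 : E2S) (hRk : RkS) (hF1 : F1S) (hRy : RaySpanS) (hD : DD phi D)
    (h2 : 2 ≤ Module.finrank ℤ L) (h : Cyc phi D eta 1 Z mu) {nu nu' : L →+ ℤ}
    (hk : Kil phi D (Z 0) (Z 1) (eta (Z 0) * tA) (eta (Z 1) * tC) nu)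
    (hk' : Kil phi D (Z 1) (Z 0) (eta (Z 1) * tA) (eta (Z 0) * tC) nu')
    (hn : nu ≠ 0) (hn' : nu' ≠ 0) (o1 : ∀ T, Ray D T → (∀ i, T ≠ Z i) → nu T = 0)
    (o2 : ∀ T, Ray D T → (∀ i, T ≠ Z i) → nu' T = 0) : False := by
  have q1 : nu (Z 2) ≠ 0 ∨ nu (Z 3) ≠ 0 := by
    by_contra hc
    push Not at hc
    apply hn
    apply nu_zero hE2 hRk hD h2
    intro T hT
    by_cases hc' : ∀ i, T ≠ Z i
    · exact o1 T hT hc'
    · push Not at hc'
      obtain ⟨i, rfl⟩ := hc'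
      fin_cases i
      · exact hk.s0
      · exact hk.s1
      · exact hc.1
      · exact hc.2
  have q2 : nu' (Z 2) ≠ 0 ∨ nu' (Z 3) ≠ 0 := by
    by_contra hc
    push Not at hc
    apply hn'
    apply nu_zero hE2 hRk hD h2
    intro T hT
    by_cases hc' : ∀ i, T ≠ Z i
    · exact o2 T hT hc'
    · push Not at hc'
      obtain ⟨i, rfl⟩ := hc'
      fin_cases i
      · exact hk'.s1
      · exact hk'.s0
      · exact hc.1
      · exact hc.2
  have z1 : rsh (LaurentPolynomial.T 1 : RO ℤ) = LaurentPolynomial.T (-1) := by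
    rw [rsh_int, LaurentPolynomial.invert_T]
  have z2 : rsh (-LaurentPolynomial.T (-1) : RO ℤ) = -LaurentPolynomial.T 1 := by
    rw [map_neg, rsh_int, LaurentPolynomial.invert_T, neg_neg]
  have e1 := sq4 hTop hE2 hF1 hRy hD h2 h (w0 := -LaurentPolynomial.T (-1))
    (w1 := LaurentPolynomial.T 1) (nu := nu) (fun a ha hna => by
      have h3 := hk.free a ha hna
      rw [Units.val_mul, Units.val_mul, tA_val, tC_val] at h3
      exact h3) hk.s0 hk.s1 o1 (by rw [neg_mul, TT1]) z2 q1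
  have e2 := sq4 hTop hE2 hF1 hRy hD h2 h (w0 := LaurentPolynomial.T 1)
    (w1 := -LaurentPolynomial.T (-1)) (nu := nu') (fun a ha hna => by
      have h3 := hk'.free a (fun p => (ha p).imp id And.symm) hna
      rw [show a + Z 1 + Z 0 = a + Z 0 + Z 1 by abel, Units.val_mul, Units.val_mul, tA_val,
        tC_val] at h3
      linear_combination h3) hk'.s1 hk'.s0 o2 (by rw [mul_neg, mul_comm, TT1]) (by
        rw [z1, neg_neg]) q2
  have e3 : (LaurentPolynomial.T 2 * toLaurent 1 : RO ℤ) =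
      LaurentPolynomial.T (-2) * toLaurent 1 := by
    have e4 : (LaurentPolynomial.T 2 : RO ℤ) = LaurentPolynomial.T 1 * LaurentPolynomial.T 1 := by
      rw [← LaurentPolynomial.T_add]
      norm_num
    have e5 : (LaurentPolynomial.T (-2) : RO ℤ) =
        LaurentPolynomial.T (-1) * LaurentPolynomial.T (-1) := by
      rw [← LaurentPolynomial.T_add]
      norm_num
    have e6 : (LaurentPolynomial.T 1 * LaurentPolynomial.T 1 -
        LaurentPolynomial.T (-1) * LaurentPolynomial.T (-1) : RO ℤ) *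
          ((eta (Z 0) : RO ℤ) * D.coeff (Z 0)) = 0 := by
      linear_combination e1 - e2
    rw [map_one, mul_one, mul_one, e4, e5]
    exact sub_eq_zero.mp ((mul_eq_zero.mp e6).resolve_right
      (mul_ne_zero (eta (Z 0)).ne_zero (h.mtl 0).r0.1))
  have e7 := (H78.T_eq (by rw [coeff_one_zero]; exact one_ne_zero)
    (by rw [coeff_one_zero]; exact one_ne_zero) e3).1
  omega

/-- (DF4) for every 4-cycle. -/
theorem df4u (hTop : TopS) (hE2 : E2S) (hRk : RkS) (hF1 : F1S) (hI : Inj1S) (hRy : RaySpanS)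
    (fp : FP phi D) (h2 : 2 ≤ Module.finrank ℤ L) (h : Cyc phi D eta 1 Z mu)
    (hA : ∀ R r, (∀ i, R ≠ Z i) → ¬ T00 phi D eta (Z 0) (Z 1) R r)
    (hB : ∀ R r, (∀ i, R ≠ Z i) → ¬ T00 phi D eta (Z 1) (Z 0) R r) :
    Dff phi D eta (Z 0) (Z 1) := by
  by_contra hcon
  unfold Dff at hcon
  push Not at hcon
  obtain ⟨⟨nu, hk, hn⟩, nu', hk', hn'⟩ := hcon
  have hD := fp.dd
  have hM : Mut D (Z 0) (Z 1) (eta (Z 0)) (eta (Z 1)) := by
    have := h.mtl 0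
    rwa [zero_add] at this
  have hM' : Mut D (Z 1) (Z 0) (eta (Z 1)) (eta (Z 0)) := ⟨hM.r1, hM.r0, hM.m1, hM.m0⟩
  have d01 : ∀ p, phi (Z 0) p = 0 ∨ phi (Z 1) p = 0 := h.dis 0 1 (by decide)
  have d10 : ∀ p, phi (Z 1) p = 0 ∨ phi (Z 0) p = 0 := h.dis 1 0 (by decide)
  have hoU : ∀ T, Ray D T → (∀ i, T ≠ Z i) → ∀ i, T ∈ US (eta (Z i)) (Z i) D :=
    fun T hT hT' i => (h.ker i T).mpr (h.oth i T hT (hT' _) (hT' _))
  refine df4v hTop hE2 hRk hF1 hRy hD h2 h hk hk' hn hn' ?_ ?_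
  · intro T hT hT'
    by_contra hne
    obtain ⟨r, hr'⟩ := t00_of hF1 hI fp hM d01 hk hT hne (hoU T hT hT' 0) (hoU T hT hT' 1)
    exact hA T r hT' hr'
  · intro T hT hT'
    by_contra hne
    obtain ⟨r, hr'⟩ := t00_of hF1 hI fp hM' d10 hk' hT hne (hoU T hT hT' 1) (hoU T hT hT' 0)
    exact hB T r hT' hr'

/-- Two cycles with a common ray have the same range (any lengths). -/
theorem cyc_range2 {k k' : ℕ} {Z : ZMod (k + 3) → L} {mu : ZMod (k + 3) → L →+ ℤ}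
    {Z' : ZMod (k' + 3) → L} {mu' : ZMod (k' + 3) → L →+ ℤ}
    (h : Cyc phi D eta k Z mu) (h' : Cyc phi D eta k' Z' mu') {i : ZMod (k + 3)}
    {i' : ZMod (k' + 3)} (he : Z i = Z' i') : ∀ m : ZMod (k' + 3), ∃ n, Z' m = Z n := by
  have key : ∀ c : ℕ, ∃ n, Z' (i' + c) = Z n := by
    intro c
    induction c with
    | zero => exact ⟨i, by rw [Nat.cast_zero, add_zero, he]⟩
    | succ c ih =>
      obtain ⟨n, hn⟩ := ih
      have := cyc_nb h (cyc_ray h' (i' + c + 1)) (i := n) (by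
        rw [← hn]
        exact (h'.mtl (i' + c)).m0)
      rw [Nat.cast_succ, ← add_assoc]
      rcases this with h1 | h1
      · exact ⟨_, h1⟩
      · exact ⟨_, h1⟩
  intro m
  obtain ⟨n, hn⟩ := key (ZMod.val (m - i'))
  refine ⟨n, ?_⟩
  rw [← hn, ZMod.natCast_zmod_val]
  congr 1
  ring

/-- (PX) for two different cycles of any lengths. -/
theorem px_cyc2 (hM1 : M1S) (hMm : MmulS) (hMV : MVS) (hE1 : E1S) (hE2 : E2S) (hPc : PCZS)
    (hClp : ClpS) (hC0 : Coeff0S) (hG0 : G0S) (hI1 : Inj1S) (hRk : RkS) (hFD : FDS)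
    (hWW : WWfS) (hRF : RayFacS) (hMug : MugS) (hMco : McoS) (hCu : CuspS) (hSf : SfzS)
    (hTr : TrezS) (hTsa : TsaS) (hI3 : Io3S) (hMfc : MfcS) (hCa : Ca5S) (hGlc : GlcS)
    (hFou : FouS) (hDti : DtiS) (hNbr : NbrS) (hF1 : F1S) (hF2 : F2S) (hKm : KmuS)
    (hFsp : FspS) (hVco : VcoS) (hRy : RaySpanS) (hVf : KvfS) (hVv : KvvS) (hT : TsgS)
    (hNd : Nd3vS) (hNr : Nr3S) (hB : BpS) {q f f' : ℤ[X]} {a : ℝ} {j : ℕ} {C C' : Set L}
    (W : KcB phi D q f a j eta 1 C) (hu : f.coeff 0 = 1) (hn : f.coeff 1 - q.coeff 1 = j + 1)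
    (W' : KcB phi D q f' a j eta 1 C') (hu' : f'.coeff 0 = 1)
    (hn' : f'.coeff 1 - q.coeff 1 = j + 1) {k k' : ℕ} {Z : ZMod (k + 3) → L}
    {mu : ZMod (k + 3) → L →+ ℤ} {Z' : ZMod (k' + 3) → L} {mu' : ZMod (k' + 3) → L →+ ℤ}
    (h : Cyc phi D eta k Z mu) (h' : Cyc phi D eta k' Z' mu')
    {i : ZMod (k + 3)} {i' : ZMod (k' + 3)} {S1 : L} {r : RO ℤ} (hS : Z i ∈ C)
    (hR : Z' i' ∈ C') (hM : Mut D (Z i) S1 (eta (Z i)) (eta S1)) (hne : ∀ n, Z' i' ≠ Z n)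
    (t00 : T00 phi D eta (Z i) S1 (Z' i') r) : False := by
  have hS1 : S1 ∈ C := (W.kc.mtl _ hS _ hM.r1 hM.m0).1
  have mR := h'.mtl i'
  have hR1 : Z' (i' + 1) ∈ C' := (W'.kc.mtl _ hR _ mR.r1 mR.m0).1
  refine px_false hM1 hMm hMV hE1 hE2 hPc
    hClp hC0 hG0 hI1 hRk hFD hWW hRF hMug hMco hCu hSf hTr hTsa hI3 hMfc hCa hGlc hFou hDti
    hNbr hF1 hF2 hKm hFsp hVco hRy hVf hVv hT hNd hNr hB W hu hn W' hu' hn' hS hS1 hM hR hR1 mR
    t00 ?_
  by_contra hc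
  rcases cyc_nb h' hM.r0 hc with h1 | h1
  · obtain ⟨n, hn⟩ := cyc_range2 h h' h1 i'
    exact hne n hn
  · rw [add_sub_cancel_right] at h1
    exact hne i h1.symm

/-- Every ray lies in a cycle (of some length). -/
def Qall (phi : L →+ (P → ℤ)) (D : AO ℤ L) (eta : L → (RO ℤ)ˣ) : Prop :=
  ∀ R, Ray D R → ∃ (k : ℕ) (Z : ZMod (k + 3) → L) (mu : ZMod (k + 3) → L →+ ℤ)
    (i : ZMod (k + 3)), Cyc phi D eta k Z mu ∧ Z i = R

/-- (DF4) for every 4-cycle, at every mutual pair, if every ray lies in a component. -/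
theorem df4u_px (hTop : TopS) (hM1 : M1S) (hMm : MmulS) (hMV : MVS) (hE1 : E1S) (hE2 : E2S)
    (hPc : PCZS) (hClp : ClpS) (hC0 : Coeff0S) (hG0 : G0S) (hI1 : Inj1S) (hRk : RkS)
    (hFD : FDS) (hWW : WWfS) (hRF : RayFacS) (hMug : MugS) (hMco : McoS) (hCu : CuspS)
    (hSf : SfzS) (hTr : TrezS) (hTsa : TsaS) (hI3 : Io3S) (hMfc : MfcS) (hCa : Ca5S)
    (hGlc : GlcS) (hFou : FouS) (hDti : DtiS) (hNbr : NbrS) (hF1 : F1S) (hF2 : F2S)
    (hKm : KmuS) (hFsp : FspS) (hVco : VcoS) (hRy : RaySpanS) (hVf : KvfS) (hVv : KvvS)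
    (hT : TsgS) (hNd : Nd3vS) (hNr : Nr3S) (hB : BpS) {q : ℤ[X]} {a : ℝ} {j : ℕ}
    (hAll : Ball phi D q a j eta) (h4 : Qall phi D eta) {Z : ZMod (1 + 3) → L}
    {mu : ZMod (1 + 3) → L →+ ℤ} (h : Cyc phi D eta 1 Z mu) (m : ZMod (1 + 3)) :
    Dff phi D eta (Z m) (Z (m + 1)) := by
  obtain ⟨f, C, W, hu, hn, hZ⟩ := hAll (Z (0 + m)) (h.mtl _).r0
  have h2 : 2 ≤ Module.finrank ℤ L := by have := W.ko.rk; have := W.ko.j2; omega
  have hr := cyc_rot h m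
  have hM : Mut D (Z (0 + m)) (Z (1 + m)) (eta (Z (0 + m))) (eta (Z (1 + m))) := by
    have := h.mtl m
    rwa [zero_add, add_comm 1 m]
  have hZ1 : Z (1 + m) ∈ C := (W.kc.mtl _ hZ _ hM.r1 hM.m0).1
  have key : Dff phi D eta (Z (0 + m)) (Z (1 + m)) := by
    refine df4u hTop hE2 hRk hF1 hI1 hRy W.ko.min.fp h2 hr ?_ ?_
    · intro R r hR t00
      obtain ⟨k', Z', mu', i', h', rfl⟩ := h4 R t00.ray
      obtain ⟨f', C', W', hu', hn', hR'⟩ := hAll (Z' i') t00.ray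
      exact px_cyc2 hM1 hMm hMV hE1 hE2 hPc
        hClp hC0 hG0 hI1 hRk hFD hWW hRF hMug hMco hCu hSf hTr hTsa hI3 hMfc hCa hGlc hFou hDti
        hNbr hF1 hF2 hKm hFsp hVco hRy hVf hVv hT hNd hNr hB W hu hn W' hu' hn' hr h'
        (i := 0) (i' := i') hZ hR' hM hR t00
    · intro R r hR t00
      obtain ⟨k', Z', mu', i', h', rfl⟩ := h4 R t00.ray
      obtain ⟨f', C', W', hu', hn', hR'⟩ := hAll (Z' i') t00.ray
      exact px_cyc2 hM1 hMm hMV hE1 hE2 hPc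
        hClp hC0 hG0 hI1 hRk hFD hWW hRF hMug hMco hCu hSf hTr hTsa hI3 hMfc hCa hGlc hFou hDti
        hNbr hF1 hF2 hKm hFsp hVco hRy hVf hVv hT hNd hNr hB W hu hn W' hu' hn' hr h'
        (i := 1) (i' := i') hZ1 hR' ⟨hM.r1, hM.r0, hM.m1, hM.m0⟩ hR t00
  rwa [zero_add, add_comm 1 m] at key

end

end Pool.Agent.B5.KO.H40
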