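import Pool.Agent.Lib.MP_b5021c_nt.IfaceOC
import Pool.Agent.Lib.MP_b5021c_nt.KO.H40.K4w
import Pool.Agent.Lib.MP_b5021c_nt.KO.H40.Side

/-!
# MP_b5021c_nt, all `θ`, K odd, (O4), 4-cycles with a killer: `V''` in `DD`
-/

set_option linter.unusedSectionVars false

namespace Pool.Agent.B5.KO.H40

open scoped LaurentPolynomial
open Polynomial
open Pool.Agent.B5.KE
open Pool.Agent.B5.Nr.Sch
open Pool.Agent.B5.Nr (TrezS)
open Pool.Agent.B5.H61 (CuspS)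
open Pool.Agent.B5.H40 (uT)
open Pool.Agent.B5.KV67 (TT1 tA_val)
open Pool.Agent.B5.KO67 (upper aset ko_num double2 loadB_j psd ims_psd)
open Pool.Agent.B5.O4X
open Pool.Agent.B5.OC (Oc Kl)

/-- The data: `G` of class `V(N)`, rank `2N - 1`, a unit ray `S` with the good load `e`. -/
structure Bdz {P L : Type} [Fintype P] [DecidableEq P] [AddCommGroup L] [Module.Free ℤ L]
    [Module.Finite ℤ L] (phi : L →+ (P → ℤ)) (G : AO ℤ L) (N : ℕ) (S : L) (w e : (RO ℤ)ˣ)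
    (p g : ℤ[X]) : Prop where
  n2 : 2 ≤ N
  dd : DD phi G
  cv : ClassV N (G.coeff 0)
  rk : Module.finrank ℤ L + 1 = 2 * N
  ih : ∀ K < 2 * N, Bnk K
  ray : Ray G S
  w0 : (w : RO ℤ) * G.coeff 0 = toLaurent p
  p0 : p.coeff 0 = N
  wS : (w : RO ℤ) * ((e : RO ℤ) * G.coeff S) = -toLaurent g
  g0 : g.coeff 0 = 1

section

variable {P L : Type} [Fintype P] [DecidableEq P] [AddCommGroup L] [Module.Free ℤ L]
  [Module.Finite ℤ L] {phi : L →+ (P → ℤ)} {D : AO ℤ L} {eta : L → (RO ℤ)ˣ}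
  {Z : ZMod (1 + 3) → L} {mu : ZMod (1 + 3) → L →+ ℤ}

/-- The coefficient of `v + Z 2` in a double closing. -/
theorem csm_v2 (hF1 : F1S) (hD : DD phi D) (h : Cyc phi D eta 1 Z mu) {v : L}
    (hv : Fre phi Z mu v) (w0 w1 : (RO ℤ)ˣ) :
    (eta (Z 2) : RO ℤ) * csm D (Z 0) (Z 1) (eta (Z 0) * w0) (eta (Z 1) * w1) (v + Z 2) =
      (1 - (w1 : RO ℤ) + (w0 : RO ℤ) * (w1 : RO ℤ)) * ((eta (Z 0) : RO ℤ) * D.coeff (v + Z 0)) +
      (w0 : RO ℤ) * ((eta (Z 0) : RO ℤ) * (eta (Z 2) : RO ℤ) * D.coeff (v + Z 2 + Z 0)) := by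
  obtain ⟨⟨-, e2, -⟩, ⟨e12, -⟩, e012, -, -⟩ := val4 hF1 hD h hv
  unfold csm
  rw [Units.val_mul, Units.val_mul]
  linear_combination e2 + (w1 : RO ℤ) * e12 + (w0 : RO ℤ) * (w1 : RO ℤ) * e012

/-- (VDD) `V''` of a 4-cycle with a killer is in `DD`, of class `V(j)`, and `Z 2` is a ray with the
coefficient `f` at the good load `-1/z`. -/
theorem pk4 (hU : UnitRS) (hM1 : M1S) (hMm : MmulS) (hMV : MVS) (hE1 : E1S) (hE2 : E2S)
    (hPc : PCZS) (hClp : ClpS) (hC0 : Coeff0S) (hG0 : G0S) (hI1 : Inj1S) (hRk : RkS)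
    (hFD : FDS) (hWW : WWfS) (hRF : RayFacS) (hMug : MugS) (hMco : McoS)
    (hTr : TrezS) (hTsa : TsaS) (hMfc : MfcS) (hF1 : F1S) (hRy : RaySpanS) (hRn : RnkS)
    (hO5 : H67.O5aS) (hFsp : FspS) {q f E : ℤ[X]} {a : ℝ} {j : ℕ} {C : Set L}
    (W : Oc phi D q f E a j eta C 1 Z mu) {nu : L →+ ℤ} (K : K4f D Z mu nu)
    (Y : Dp phi (Z 0) (Z 1)) {x : Ker Y.k1} (hx : ((x : Ker (co phi Y.i0)) : L) = Z 2) :
    ∃ (u w : (RO ℤ)ˣ) (H : AO ℤ (Ker Y.k1)),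
      dc Y (eta (Z 0) * tA) (eta (Z 1) * tC) D = cst (u : RO ℤ) * H ∧
      (w : RO ℤ) = -((u : RO ℤ) * LaurentPolynomial.T (-1)) ∧
      Bdz (psd Y) H j x w (eta (Z 2) * tA) (E - (1 + X) * f) f ∧ ImS (psd Y) x := by
  have h := W.cyc
  have W0 := W.kb
  have fp := W0.ko.min.fp
  have hD := fp.dd
  have hj := W0.ko.j2
  have hrk := W0.ko.rk
  have h2 : 2 ≤ Module.finrank ℤ L := by omega
  have hu := W.f0
  have hn := W.n
  obtain ⟨e, he, hRN⟩ := W0.rn (Z 0) (W.mem 0)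
  have hM : Mut D (Z 0) (Z 1) (eta (Z 0)) (eta (Z 1)) := by
    have := h.mtl 0
    rwa [zero_add] at this
  have hM' : Mut D (Z 0) (Z 1) (ld e 1) (eta (Z 1)) := by
    rw [← he]
    exact hM
  have dis : ∀ i, phi (Z 0) i = 0 ∨ phi (Z 1) i = 0 := h.dis 0 1 (by decide)
  have d02 : ∀ i, phi (Z 0) i = 0 ∨ phi (Z 2) i = 0 := h.dis 0 2 (by decide)
  have d12 : ∀ i, phi (Z 1) i = 0 ∨ phi (Z 2) i = 0 := h.dis 1 2 (by decide)
  have rZ : ∀ i, Ray D (Z i) := fun i => (h.mtl i).r0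
  have hEm : (aeval (-1 : ℂ) E : ℂ) ≠ 0 := W.Ez (-1) (by simp)
  have hfull : rk (supp (dc Y (ld e 1 * kap) (eta (Z 1) * uT (1 : ℤˣ) 1) D)) + 2 =
      Module.finrank ℤ L := by
    refine (hRn ℤ P L phi D _ _ _ _ hD.inj hD.bin hM' Y _ _).mpr fun nu' hk =>
      vdf4 hE2 hRk hF1 hI1 fp h2 h K nu' ?_
    rw [he]
    exact hk
  have hs0 : Fre phi Z mu (0 : L) :=
    ⟨fun i p => Or.inl (by rw [map_zero]; rfl), fun i => map_zero _⟩
  have hzf : (eta (Z 0) : RO ℤ) * D.coeff (Z 0) = LaurentPolynomial.T 1 * toLaurent f := by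
    rw [W.co 0, map_mul, toLaurent_X]
  -- the coefficient of `Z 2`
  have hc2 : (eta (Z 2) : RO ℤ) * (dc Y (eta (Z 0) * tA) (eta (Z 1) * tC) D).coeff x =
      -(LaurentPolynomial.T 1 * (LaurentPolynomial.T 1 * toLaurent f)) := by
    have h3 := csm_v2 hF1 hD h hs0 tA tC
    rw [zero_add, zero_add] at h3
    have h4 := (opp_zero h K (map_zero _) (map_zero _) (map_zero _)).1
    rw [zero_add] at h4
    rw [h4, mul_zero, mul_zero, add_zero, tA_val, tC_val, hzf] at h3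
    rw [dc_csm hD.bin dis, hx, h3]
    linear_combination (-(LaurentPolynomial.T 1 * toLaurent f) : RO ℤ) * TT1
  have hload : ld e 1 * kap = eta (Z 0) * tA := by rw [he]; rfl
  have hload1 : eta (Z 1) * uT (1 : ℤˣ) 1 = eta (Z 1) * tC := rfl
  have hxp : ((-(eta (Z 2) * uT (1 : ℤˣ) (-2)) : (RO ℤ)ˣ) : RO ℤ) *
      (dc Y (ld e 1 * kap) (eta (Z 1) * uT (1 : ℤˣ) 1) D).coeff x = toLaurent f := by
    rw [hload, hload1, Units.val_neg, Units.val_mul, H40.uT_val, Units.val_one, map_one, one_mul]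
    have h5 : (LaurentPolynomial.T (-2) : RO ℤ) =
        LaurentPolynomial.T (-1) * LaurentPolynomial.T (-1) := by
      rw [← LaurentPolynomial.T_add]
      norm_num
    rw [h5]
    linear_combination (-(LaurentPolynomial.T (-1) * LaurentPolynomial.T (-1)) : RO ℤ) * hc2 +
      (toLaurent f : RO ℤ) * (LaurentPolynomial.T (-1) * LaurentPolynomial.T 1 + 1) * TT1
  have hfne : f ≠ 0 := by
    intro h3
    rw [h3, coeff_zero] at hu
    exact zero_ne_one hu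
  have hxne : (dc Y (ld e 1 * kap) (eta (Z 1) * uT (1 : ℤˣ) 1) D).coeff x ≠ 0 := by
    intro h3
    rw [h3, mul_zero] at hxp
    exact (toLaurent_ne_zero.mpr hfne) hxp.symm
  -- the face
  obtain ⟨lam, l0, l1, l2, lp⟩ := face_z2 h K
  have hface := face3 hRy hE2 hD h2 (rZ 0) (rZ 1) (rZ 2) dis d02 d12 l0 l1 l2 lp
  have hray : Ray (dc Y (ld e 1 * kap) (eta (Z 1) * uT (1 : ℤˣ) 1) D) x :=
    ray_dcY hD.bin dis Y _ _ hx (rZ 2).2.1 l0 l1 l2 hface hxne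
  obtain ⟨i2, hi2⟩ := exists_port hD (rZ 2)
  have hIm : ImS (psd Y) x := ims_psd hFsp fp Y (rZ 0).1 (rZ 1).1 (rZ 2).1 dis d02 d12
    (iR := i2) hi2 l0 l1 l2 hface hx
  obtain ⟨c, H, hc, hdc, hDH, hVH, hrH, hH0, hHx, hfr⟩ := double2 hMm hMV hE1 hE2 hPc hClp hC0
    hG0 hI1 hRk hFD hWW hRF hMug hMco hTr hTsa hO5 W0 hu hn (W.mem 0) he hRN hM' W.eE
    (fun z hz => W.Ez z hz.le) hEm Y hfull x hray hu hxp
  obtain ⟨V, hVd⟩ : ∃ V : ℤ[X], V = E - (1 + X) * f := ⟨_, rfl⟩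
  rw [← hVd] at hH0
  have hXV : X * V = (1 - X - X ^ 2) * f - q := by
    rw [hVd]
    linear_combination -W.eE
  have hV0 : V.coeff 0 = j := by
    rw [hVd, coeff_sub, W.E0, mul_coeff_zero, hu]
    simp
  have hj0 : (j : ℤ) ≠ 0 := by exact_mod_cast (by omega : j ≠ 0)
  have hjV : V.coeff 0 ≠ 0 := by rw [hV0]; exact hj0
  obtain ⟨c', g', hc', hg', hcg, ⟨u, huc⟩, -⟩ :=
    split_one hU hu (-(eta (Z 2) * uT (1 : ℤˣ) (-2)) : (RO ℤ)ˣ).isUnit hHx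
  have hH00 : H.coeff 0 ≠ 0 := ((hMV ℤ).1 _ _ hVH).1
  obtain ⟨m, p', hp', hp'0⟩ := H40.exists_normal (H.coeff 0) hH00
  obtain ⟨n, s, hs, hus⟩ := (hU ℤ _).mp u.isUnit
  obtain ⟨s', rfl⟩ := hs
  have hVp : c' ∣ V := by
    refine ⟨-(Polynomial.C (s' : ℤ) * p'), ?_⟩
    have h3 : (LaurentPolynomial.T (n + m) : RO ℤ) * toLaurent (Polynomial.C (s' : ℤ) * (c' * p')) =
        LaurentPolynomial.T 1 * toLaurent (-V) := by
      rw [huc, hp', hus] at hH0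
      rw [LaurentPolynomial.T_add, map_mul toLaurent (Polynomial.C _), map_mul, toLaurent_C, map_neg]
      rw [map_mul, toLaurent_X] at hH0
      linear_combination hH0
    obtain ⟨-, h4⟩ := H56.nf_unique (n + m) 1 _ _ (by
      rw [mul_coeff_zero, coeff_C_zero, mul_coeff_zero, hc', one_mul]
      exact mul_ne_zero (Units.ne_zero s') hp'0) (by
      rw [coeff_neg]
      exact neg_ne_zero.mpr hjV) h3
    linear_combination h4
  have hc'ne : (toLaurent c' : RO ℤ) ≠ 0 := by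
    rw [toLaurent_ne_zero]
    intro h4
    rw [h4, coeff_zero] at hc'
    exact zero_ne_one hc'
  have hMc : M (toLaurent c' : RO ℤ) = 1 := by
    have h3 := ((hMV ℤ).1 _ _ hc).2
    rw [huc, (hMm ℤ).1 _ _ u.ne_zero hc'ne, (hMm ℤ).2.2 _ u.isUnit, one_mul] at h3
    exact h3
  obtain ⟨d, hd⟩ := content hU hM1 hMm hMfc hD h2 hRN hM' W.cusp hXV hc' hMc hVp
  have hc1 : c' = 1 := by
    rcases Nat.eq_zero_or_pos d with h3 | h3
    · rw [hd, h3, pow_zero]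
    · exfalso
      apply W.Ez Complex.I (by simp)
      have h4 : (aeval Complex.I c' : ℂ) = 0 := by
        rw [hd, map_pow, map_add, map_one, map_pow, aeval_X, Complex.I_sq, add_neg_cancel,
          zero_pow h3.ne']
      obtain ⟨b, hb⟩ := hVp
      have h5 : E = c' * (b + (1 + X) * g') := by
        have h6 : E = V + (1 + X) * f := by rw [hVd]; ring
        rw [h6, hb, hcg]
        ring
      rw [h5, map_mul, h4, zero_mul]
  rw [hc1, map_one, mul_one] at huc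
  subst huc
  obtain ⟨w, hw⟩ : ∃ w : (RO ℤ)ˣ, w = -(u * uT (1 : ℤˣ) (-1)) := ⟨_, rfl⟩
  have hwv : (w : RO ℤ) = -((u : RO ℤ) * LaurentPolynomial.T (-1)) := by
    rw [hw, Units.val_neg, Units.val_mul, H40.uT_val, Units.val_one, map_one, one_mul]
  rw [hload, hload1] at hdc hxp
  refine ⟨u, w, H, hdc, hwv, ⟨hj, hDH, hVH, hfr, fun K hK => W0.ko.ih K (by omega), hrH, ?_, ?_,
    ?_, hu⟩, hIm⟩
  · rw [← hVd, hwv]
    rw [map_mul, toLaurent_X] at hH0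
    linear_combination (-(LaurentPolynomial.T (-1)) : RO ℤ) * hH0 + (toLaurent V : RO ℤ) * TT1
  · rw [← hVd]
    exact hV0
  · rw [hwv, Units.val_mul, tA_val]
    rw [hdc, H71.cst_mul_coeff] at hc2
    linear_combination (LaurentPolynomial.T (-1) * LaurentPolynomial.T (-1) : RO ℤ) * hc2 -
      (toLaurent f : RO ℤ) * (LaurentPolynomial.T (-1) * LaurentPolynomial.T 1 + 1) * TT1

end

end Pool.Agent.B5.KO.H40
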