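import Pool.Agent.Lib.MP_b5021c_nt.KO.H40.G4
import Pool.Agent.Lib.MP_b5021c_nt.KO.H13.MovX
import Pool.Agent.Lib.MP_b5021c_nt.KO.H96.BeStr

/-!
# MP_b5021c_nt, all `θ`, K odd, (O4), ALPHA, row R8: two neutral cycles have no common port

* `alp_dis` : `V''` (or its mirror) drop free at both cycles: no common port.
* `alp_j3` : no common port: `6 + k + k' ≤ 2 j + 1`, so `3 ≤ j`.
* `df4m_all` : `Dff` at every place of a 4-cycle.
-/

set_option linter.unusedSectionVars false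

namespace Pool.Agent.B5.KO.H40

open scoped LaurentPolynomial
open Polynomial
open Pool.Agent.B5.KE
open Pool.Agent.B5.Nr.Sch
open Pool.Agent.B5.Nr (TrezS)
open Pool.Agent.B5.H61 (CuspS)
open Pool.Agent.B5.O4X
open Pool.Agent.B5.KO.H96 (Alp)

section

variable {P L : Type} [Fintype P] [DecidableEq P] [AddCommGroup L] [Module.Free ℤ L]
  [Module.Finite ℤ L] {phi : L →+ (P → ℤ)} {D : AO ℤ L} {eta : L → (RO ℤ)ˣ}

/-- (R8) Two neutral cycles with drop free `V''` (or mirror) have no common port. -/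
theorem alp_dis (hU : UnitRS) (hM1 : M1S) (hMm : MmulS) (hMV : MVS) (hE1 : E1S) (hE2 : E2S)
    (hPc : PCZS) (hClp : ClpS) (hC0 : Coeff0S) (hG0 : G0S) (hI1 : Inj1S) (hRk : RkS)
    (hFD : FDS) (hWW : WWfS) (hRF : RayFacS) (hMug : MugS) (hMco : McoS) (hCu : CuspS)
    (hSf : SfzS) (hTr : TrezS) (hTsa : TsaS) (hI3 : Io3S) (hMfc : MfcS) (hCa : Ca5S)
    (hGlc : GlcS) (hFou : FouS) (hDti : DtiS) (hF1 : F1S) (hRy : RaySpanS) (hRn : RnkS)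
    (hO5 : H67.O5aS) (hBx : BpxS) (hBd : BpdqS) {q f f' : ℤ[X]} {a : ℝ} {j : ℕ} {k k' : ℕ}
    {Z : ZMod (k + 3) → L} {mu : ZMod (k + 3) → L →+ ℤ}
    {Z' : ZMod (k' + 3) → L} {mu' : ZMod (k' + 3) → L →+ ℤ}
    (A : Alp phi D q f f' a j eta k k' Z mu Z' mu')
    (hd : ∀ i, Dff phi D eta (Z i) (Z (i + 1)))
    (hd' : ∀ l, Dff phi D eta (Z' l) (Z' (l + 1))) :
    ∀ i l p, phi (Z i) p = 0 ∨ phi (Z' l) p = 0 := by
  intro i l p
  have hD := A.w.ko.min.fp.dd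
  rcases hD.bin _ (A.c.mtl i).r0.1 p with h0 | h1
  · exact Or.inl h0
  rcases hD.bin _ (A.c'.mtl l).r0.1 p with h0' | h1'
  · exact Or.inr h0'
  exact (ovl_false hU hM1 hMm hMV hE1 hE2 hPc hClp hC0 hG0 hI1 hRk hFD hWW hRF hMug hMco hCu hSf
    hTr hTsa hI3 hMfc hCa hGlc hFou hDti hF1 hRy hRn hO5 hBx hBd A.w A.u A.n A.w' A.u' A.n' A.c
    A.c' A.ne ⟨i, rfl⟩ ⟨l, rfl⟩ (hd i) (hd' l) h1 h1').elim

/-- Two cycles without a common port: the rank. -/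
theorem alp_rk {q f f' : ℤ[X]} {a : ℝ} {j : ℕ} {k k' : ℕ}
    {Z : ZMod (k + 3) → L} {mu : ZMod (k + 3) → L →+ ℤ}
    {Z' : ZMod (k' + 3) → L} {mu' : ZMod (k' + 3) → L →+ ℤ}
    (A : Alp phi D q f f' a j eta k k' Z mu Z' mu')
    (hdis : ∀ i l p, phi (Z i) p = 0 ∨ phi (Z' l) p = 0) :
    (k + 3) + (k' + 3) ≤ 2 * j + 1 := by
  have hD := A.w.ko.min.fp.dd
  have hli : LinearIndependent ℤ (Sum.elim Z Z') := by
    refine H96.lin_ind (phi := phi) ?_ ?_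
    · rintro (i | i) (l | l) hne p
      · exact A.c.dis i l (fun h => hne (by rw [h])) p
      · exact hdis i l p
      · exact (hdis l i p).symm
      · exact A.c'.dis i l (fun h => hne (by rw [h])) p
    · rintro (i | i)
      · exact H96.ray_port hD (A.c.mtl i).r0
      · exact H96.ray_port hD (A.c'.mtl i).r0
  have h1 := hli.fintype_card_le_finrank
  rw [Fintype.card_sum, ZMod.card, ZMod.card, A.w.ko.rk] at h1
  exact h1

/-- Two cycles without a common port: `3 ≤ j`. -/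
theorem alp_j3 {q f f' : ℤ[X]} {a : ℝ} {j : ℕ} {k k' : ℕ}
    {Z : ZMod (k + 3) → L} {mu : ZMod (k + 3) → L →+ ℤ}
    {Z' : ZMod (k' + 3) → L} {mu' : ZMod (k' + 3) → L →+ ℤ}
    (A : Alp phi D q f f' a j eta k k' Z mu Z' mu')
    (hdis : ∀ i l p, phi (Z i) p = 0 ∨ phi (Z' l) p = 0) : 3 ≤ j := by
  have := alp_rk A hdis
  omega

/-- (R3, `k = 1`) `V''` or its mirror is drop free at every place of a 4-cycle. -/
theorem df4m_all (hOfa : OfaS) (hO1 : Oo1S) (hTop : TopS) (hQs : QsgS) (hCz : CzaS) (hTz : TzaS)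
    (hFj : FjtS) (hGa : GaiS) (hNz : NdzS)
    (hNd3 : Nd3S) (hTa : Ta3S) (hLd : LdzS) (hRW : ResWDS) (hRs : ResStS) (hRes : ResKS)
    (hFact : FactS) (hC4 : C4S) (hThin : ThinS) (hMin : MinS) (hB5a : B5aS) (hUA : UnitAS)
    (hFcm : FcmS) (hM1 : M1S) (hMm : MmulS) (hMV : MVS) (hE1 : E1S) (hE2 : E2S) (hPc : PCZS)
    (hClp : ClpS) (hC0 : Coeff0S) (hG0 : G0S) (hI1 : Inj1S) (hRk : RkS) (hFD : FDS)
    (hWW : WWfS) (hRF : RayFacS) (hMug : MugS) (hMco : McoS) (hCu : CuspS) (hSf : SfzS)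
    (hTr : TrezS) (hTsa : TsaS) (hI3 : Io3S) (hMfc : MfcS) (hCa : Ca5S) (hGlc : GlcS)
    (hFou : FouS) (hDti : DtiS) (hNbr : NbrS) (hF1 : F1S) (hF2 : F2S) (hKm : KmuS)
    (hFsp : FspS) (hVco : VcoS) (hRy : RaySpanS) (hVf : KvfS) (hVv : KvvS) (hT : TsgS)
    (hNd : Nd3vS) (hNr : Nr3S) (hB : BpS) (hF3 : F3S) (hRkU : RkUSS) (hL : LMNS)
    (hOfb : OfbS) (hO4 : Oo4S) (hB2 : Ob2S) (hB3 : Ob3S) {q f : ℤ[X]} {a : ℝ} {j : ℕ}
    {C : Set L} (W0 : KcB phi D q f a j eta 1 C) (hu : f.coeff 0 = 1)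
    (hn : f.coeff 1 - q.coeff 1 = j + 1) {Z : ZMod (1 + 3) → L}
    {mu : ZMod (1 + 3) → L →+ ℤ} (h0 : Cyc phi D eta 1 Z mu) (hZ : ∀ n, Z n ∈ C)
    (i : ZMod (1 + 3)) : Dff phi D eta (Z i) (Z (i + 1)) := by
  have h1 := df4m hOfa hO1 hTop hQs hCz hTz hFj hGa hNz hNd3 hTa hLd hRW hRs hRes hFact hC4
    hThin hMin hB5a hUA hFcm hM1 hMm hMV hE1 hE2 hPc hClp hC0 hG0 hI1 hRk hFD hWW hRF hMug hMco
    hCu hSf hTr hTsa hI3 hMfc hCa hGlc hFou hDti hNbr hF1 hF2 hKm hFsp hVco hRy hVf hVv hT hNd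
    hNr hB hF3 hRkU hL hOfb hO4 hB2 hB3 W0 hu hn (cyc_rot h0 i) (fun n => hZ _)
  rwa [zero_add, add_comm 1 i] at h1

end

end Pool.Agent.B5.KO.H40
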